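import Mathlib
import Pool.Agent.GrE.Nor

/-!
Tools for the integral closure of `K[x]` in `E = M(y)`, `y^g + c h_1 y^(g-1) = h_g`: points of the ring `A'[y]`, and their
use against integral elements.
-/

set_option autoImplicit false

namespace Pool.Agent.GrT

open Polynomial Pool.Agent.GrE

section

variable {K : Type*} [Field K] {w t : K}

/-- The inclusion of `A' = K[x] + K[x] ν` in the function field. -/
noncomputable def iA (w t : K) : AQ w t →+* EQ w t where
  toFun u := pp w t u.re u.im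
  map_one' := by
    refine QuadraticAlgebra.ext ?_ ?_
    · rw [QuadraticAlgebra.re_one, QuadraticAlgebra.re_one]
      simp only [pp, map_one]
    · rw [QuadraticAlgebra.im_one, QuadraticAlgebra.im_one]
      simp only [pp, map_zero]
  map_mul' u v := by
    rw [Nor_pp_mul, QuadraticAlgebra.re_mul, QuadraticAlgebra.im_mul]
  map_zero' := by
    refine QuadraticAlgebra.ext ?_ ?_
    · rw [QuadraticAlgebra.re_zero, QuadraticAlgebra.re_zero]
      simp only [pp, map_zero]
    · rw [QuadraticAlgebra.im_zero, QuadraticAlgebra.im_zero]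
      simp only [pp, map_zero]
  map_add' u v := by
    refine QuadraticAlgebra.ext ?_ ?_
    · rw [QuadraticAlgebra.re_add, QuadraticAlgebra.re_add]
      simp only [pp, map_add]
    · rw [QuadraticAlgebra.im_add, QuadraticAlgebra.im_add]
      simp only [pp, map_add]

lemma iA_apply (u : AQ w t) : iA w t u = pp w t u.re u.im := rfl

lemma iA_injective : Function.Injective (iA w t) := by
  intro u v h
  obtain ⟨h1, h2⟩ := Nor_pp_inj (show pp w t u.re u.im = pp w t v.re v.im from h)
  exact QuadraticAlgebra.ext h1 h2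

lemma iA_InA (u : AQ w t) : InA (iA w t u) := ⟨_, _, rfl⟩

lemma InA_iff_iA (u : EQ w t) : InA u ↔ ∃ v, iA w t v = u :=
  ⟨fun ⟨A, B, h⟩ => ⟨⟨A, B⟩, h.symm⟩, fun ⟨v, h⟩ => h ▸ iA_InA v⟩

/-- The constants in `A'`. -/
noncomputable def kA (w t : K) : K →+* AQ w t := (algebraMap K[X] (AQ w t)).comp C

lemma kA_re (c : K) : (kA w t c).re = C c := rfl

lemma kA_im (c : K) : (kA w t c).im = 0 := rfl

lemma iA_algebraMap (A : K[X]) : iA w t (algebraMap K[X] (AQ w t) A) = algebraMap K[X] (EQ w t) A := by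
  rw [Nor_algebraMap]
  rfl

lemma iA_kA (c : K) : iA w t (kA w t c) = algebraMap K (EQ w t) c := by
  rw [IsScalarTower.algebraMap_apply K K[X] (EQ w t)]
  exact iA_algebraMap (C c)

/-- The value at a point `(e, n)` of the affine curve. -/
noncomputable def evP {e n : K} (h : n ^ 2 = (TT w).eval e * n + (NN w t).eval e) :
    AQ w t →+* K where
  toFun u := u.re.eval e + u.im.eval e * n
  map_one' := by
    rw [QuadraticAlgebra.re_one, QuadraticAlgebra.im_one]
    simp
  map_mul' u v := by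
    rw [QuadraticAlgebra.re_mul, QuadraticAlgebra.im_mul]
    simp only [eval_add, eval_mul]
    linear_combination (-(u.im.eval e * v.im.eval e)) * h
  map_zero' := by
    rw [QuadraticAlgebra.re_zero, QuadraticAlgebra.im_zero]
    simp
  map_add' u v := by
    rw [QuadraticAlgebra.re_add, QuadraticAlgebra.im_add]
    simp only [eval_add]
    ring

lemma evP_apply {e n : K} (h : n ^ 2 = (TT w).eval e * n + (NN w t).eval e) (u : AQ w t) :
    evP h u = u.re.eval e + u.im.eval e * n := rfl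

lemma evP_kA {e n : K} (h : n ^ 2 = (TT w).eval e * n + (NN w t).eval e) (c : K) :
    evP h (kA w t c) = c := by
  rw [evP_apply, kA_re, kA_im, eval_C, eval_zero, zero_mul, add_zero]

lemma FinP_norm {A B P : K[X]}
    (hP : QuadraticAlgebra.norm (pp w t A B) = algebraMap K[X] (RatFunc K) P) :
    A * A + TT w * A * B - NN w t * B * B = P := by
  rw [Nor_norm] at hP
  exact RatFunc.algebraMap_injective K hP

/-- Divisibility by a polynomial of degree one. -/
lemma FinP_dvd {P : K[X]} (hd : P.natDegree = 1) {e : K} (he : P.eval e = 0) {Q : K[X]}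
    (hQ : Q.eval e = 0) : P ∣ Q := by
  have hP0 : P ≠ 0 := by
    rintro rfl
    rw [natDegree_zero] at hd
    exact absurd hd (by norm_num)
  obtain ⟨P1, hP1⟩ := dvd_iff_isRoot.mpr (show P.IsRoot e from he)
  obtain ⟨Q1, hQ1⟩ := dvd_iff_isRoot.mpr (show Q.IsRoot e from hQ)
  have hP10 : P1 ≠ 0 := by
    rintro rfl
    rw [mul_zero] at hP1
    exact hP0 hP1
  have h1 : P1.natDegree = 0 := by
    rw [hP1, natDegree_mul (X_sub_C_ne_zero e) hP10, natDegree_X_sub_C] at hd
    omega
  obtain ⟨a, ha⟩ := natDegree_eq_zero.mp h1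
  have ha0 : a ≠ 0 := by
    rintro rfl
    rw [C_0] at ha
    exact hP10 ha.symm
  refine ⟨C a⁻¹ * Q1, ?_⟩
  rw [hP1, hQ1, ← ha]
  have h2 : (C a * C a⁻¹ : K[X]) = 1 := by rw [← C_mul, mul_inv_cancel₀ ha0, C_1]
  linear_combination (-(X - C e) * Q1) * h2

lemma FinP_im_ne {A B P : K[X]} (hP : A * A + TT w * A * B - NN w t * B * B = P)
    (hd : P.natDegree = 1) {e : K} (he : P.eval e = 0) : B.eval e ≠ 0 := by
  intro hB
  have hP0 : P ≠ 0 := by
    intro h0
    rw [h0, natDegree_zero] at hd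
    exact absurd hd (by norm_num)
  have h1 := congrArg (eval e) hP
  rw [he] at h1
  simp only [eval_add, eval_sub, eval_mul, hB, mul_zero, add_zero, sub_zero] at h1
  have hA : A.eval e = 0 := mul_self_eq_zero.mp h1
  obtain ⟨A1, hA1⟩ := FinP_dvd hd he hA
  obtain ⟨B1, hB1⟩ := FinP_dvd hd he hB
  have h2 : P * (P * (A1 * A1 + TT w * A1 * B1 - NN w t * B1 * B1)) = P * 1 := by
    rw [mul_one]
    conv_rhs => rw [← hP]
    rw [hA1, hB1]
    ring
  have h3 := mul_left_cancel₀ hP0 h2
  have h4 := natDegree_eq_zero_of_isUnit (IsUnit.of_mul_eq_one _ h3)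
  rw [hd] at h4
  exact absurd h4 (by norm_num)

/-- A function with a norm of degree one has a zero. -/
lemma exists_zero {A B P : K[X]}
    (hP : QuadraticAlgebra.norm (pp w t A B) = algebraMap K[X] (RatFunc K) P)
    (hd : P.natDegree = 1) :
    ∃ e n : K, n ^ 2 = (TT w).eval e * n + (NN w t).eval e ∧ A.eval e + B.eval e * n = 0 := by
  have hPe := FinP_norm hP
  have hP0 : P ≠ 0 := by
    intro h0
    rw [h0, natDegree_zero] at hd
    exact absurd hd (by norm_num)
  obtain ⟨e, he⟩ := exists_root_of_degree_eq_one (p := P)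
    (by rw [degree_eq_natDegree hP0, hd]; rfl)
  have hB := FinP_im_ne hPe hd he
  have h1 := congrArg (eval e) hPe
  rw [show P.eval e = 0 from he] at h1
  simp only [eval_add, eval_sub, eval_mul] at h1
  have hmB : -(A.eval e) / B.eval e * B.eval e = -(A.eval e) := div_mul_cancel₀ _ hB
  refine ⟨e, -(A.eval e) / B.eval e, ?_, ?_⟩
  · apply mul_left_cancel₀ (pow_ne_zero 2 hB)
    generalize -(A.eval e) / B.eval e = m at hmB
    linear_combination h1 + (m * B.eval e - A.eval e) * hmB - (TT w).eval e * B.eval e * hmB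
  · rw [mul_comm, hmB]
    ring

/-- A function which vanishes at the zero of `A + B ν` is divisible by it. -/
lemma dvd_of_zero {A B P : K[X]}
    (hP : QuadraticAlgebra.norm (pp w t A B) = algebraMap K[X] (RatFunc K) P)
    (hd : P.natDegree = 1) {e n : K} (h : n ^ 2 = (TT w).eval e * n + (NN w t).eval e)
    (h1 : A.eval e + B.eval e * n = 0) {u : AQ w t} (hu : evP h u = 0) :
    (⟨A, B⟩ : AQ w t) ∣ u := by
  have hPe := FinP_norm hP
  have hP0 : P ≠ 0 := by
    intro h0
    rw [h0, natDegree_zero] at hd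
    exact absurd hd (by norm_num)
  have he : P.eval e = 0 := by
    rw [← hPe]
    simp only [eval_add, eval_sub, eval_mul]
    linear_combination (A.eval e + B.eval e * ((TT w).eval e - n)) * h1 +
      (B.eval e * B.eval e) * h
  have hBe := FinP_im_ne hPe hd he
  obtain ⟨C', D'⟩ := u
  rw [evP_apply] at hu
  simp only at hu
  have hCB : C'.eval e * B.eval e = D'.eval e * A.eval e := by
    linear_combination (B.eval e) * hu - D'.eval e * h1
  obtain ⟨D1, hD1⟩ := FinP_dvd (Q := D' * A - C' * B) hd he (by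
    simp only [eval_sub, eval_mul]
    linear_combination -hCB)
  have he1 := congrArg (eval e) hPe
  rw [he] at he1
  simp only [eval_add, eval_sub, eval_mul] at he1
  obtain ⟨C1, hC1⟩ := FinP_dvd (Q := C' * (A + B * TT w) - D' * B * NN w t) hd he (by
    have h1 : B.eval e * (C' * (A + B * TT w) - D' * B * NN w t).eval e = 0 := by
      simp only [eval_sub, eval_mul, eval_add]
      linear_combination D'.eval e * he1 + (A.eval e + B.eval e * (TT w).eval e) * hCB
    exact (mul_eq_zero.mp h1).resolve_left hBe)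
  refine ⟨⟨C1, D1⟩, QuadraticAlgebra.ext ?_ ?_⟩
  · rw [QuadraticAlgebra.re_mul]
    apply mul_left_cancel₀ hP0
    linear_combination (-C') * hPe + A * hC1 + NN w t * B * hD1
  · rw [QuadraticAlgebra.im_mul]
    apply mul_left_cancel₀ hP0
    linear_combination (-D') * hPe + B * hC1 + (A + TT w * B) * hD1

end

section

variable {K : Type*} [Field K] {w t : K} [Fact (∀ r : RatFunc K, r ^ 2 ≠ Nf w t + Tf w * r)]
  {E : Type*} [Field E] [Algebra (EQ w t) E]

/-- `A'[Y] → E`, `Y ↦ y`. -/
noncomputable def Th (w t : K) [Fact (∀ r : RatFunc K, r ^ 2 ≠ Nf w t + Tf w * r)]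
    {E : Type*} [Field E] [Algebra (EQ w t) E] (y : E) : (AQ w t)[X] →+* E :=
  eval₂RingHom ((algebraMap (EQ w t) E).comp (iA w t)) y

lemma Th_C (y : E) (u : AQ w t) : Th w t y (C u) = algebraMap (EQ w t) E (iA w t u) := by
  rw [Th, coe_eval₂RingHom, eval₂_C]
  rfl

lemma Th_X (y : E) : Th w t y X = y := by
  rw [Th, coe_eval₂RingHom, eval₂_X]

lemma Th_eq_sum (y : E) {g : ℕ} {V : (AQ w t)[X]} (hV : V.natDegree < g) :
    Th w t y V = ∑ i : Fin g, algebraMap (EQ w t) E (iA w t (V.coeff i)) * y ^ (i : ℕ) := by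
  rw [Th, coe_eval₂RingHom, eval₂_eq_sum_range' _ hV, Finset.sum_range]
  rfl

/-- `Y^g + m Y^(g-1) - f`. -/
noncomputable def FF (g : ℕ) (m f : AQ w t) : (AQ w t)[X] := X ^ g + C m * X ^ (g - 1) - C f

omit [Fact (∀ r : RatFunc K, r ^ 2 ≠ Nf w t + Tf w * r)] in
lemma FF_aux {g : ℕ} (hg : 1 ≤ g) (m f : AQ w t) :
    (C m * X ^ (g - 1) - C f : (AQ w t)[X]).degree < g := by
  refine (degree_sub_le _ _).trans_lt (max_lt ?_ ?_)
  · refine (degree_C_mul_X_pow_le _ _).trans_lt ?_
    exact_mod_cast Nat.sub_lt hg one_pos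
  · refine degree_C_le.trans_lt ?_
    exact_mod_cast hg

omit [Fact (∀ r : RatFunc K, r ^ 2 ≠ Nf w t + Tf w * r)] in
lemma FF_monic {g : ℕ} (hg : 1 ≤ g) (m f : AQ w t) : (FF g m f).Monic := by
  rw [FF, add_sub_assoc]
  exact monic_X_pow_add (FF_aux hg m f)

omit [Fact (∀ r : RatFunc K, r ^ 2 ≠ Nf w t + Tf w * r)] in
lemma FF_natDegree {g : ℕ} (hg : 1 ≤ g) (m f : AQ w t) : (FF g m f).natDegree = g := by
  have : Nontrivial (AQ w t) := ⟨⟨0, 1, fun h => zero_ne_one (congrArg QuadraticAlgebra.re h)⟩⟩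
  rw [FF, add_sub_assoc, natDegree_add_eq_left_of_degree_lt, natDegree_X_pow]
  rw [degree_X_pow]
  exact FF_aux hg m f

/-- The kernel of `A'[Y] → E`. -/
lemma Th_ker {y : E} {g : ℕ} (hg : 1 ≤ g) (b : Module.Basis (Fin g) (EQ w t) E)
    (hb : ∀ i, b i = y ^ (i : ℕ)) {m f : AQ w t}
    (hy : y ^ g + algebraMap (EQ w t) E (iA w t m) * y ^ (g - 1) =
      algebraMap (EQ w t) E (iA w t f)) {V : (AQ w t)[X]} (hV : Th w t y V = 0) :
    ∃ Q, V = FF g m f * Q := by
  have : Nontrivial (AQ w t) := ⟨⟨0, 1, fun h => zero_ne_one (congrArg QuadraticAlgebra.re h)⟩⟩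
  have hF : Th w t y (FF g m f) = 0 := by
    rw [FF, map_sub, map_add, map_mul, map_pow, map_pow, Th_X, Th_C, Th_C, hy, sub_self]
  have hmon := FF_monic hg m f
  have h1 := modByMonic_add_div V (FF g m f)
  have h2 : Th w t y (V %ₘ FF g m f) = 0 := by
    rw [← h1, map_add, map_mul, hF, zero_mul, add_zero] at hV
    exact hV
  have h3 : (V %ₘ FF g m f).natDegree < g := by
    have h4 := natDegree_modByMonic_lt V hmon (by
      intro h5
      have h6 := FF_natDegree hg m f
      rw [h5, natDegree_one] at h6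
      omega)
    rwa [FF_natDegree hg] at h4
  rw [Th_eq_sum y h3] at h2
  have h4 : ∑ i : Fin g, (iA w t ((V %ₘ FF g m f).coeff i)) • b i = 0 := by
    rw [← h2]
    refine Finset.sum_congr rfl fun i _ => ?_
    rw [hb, Algebra.smul_def]
  have h5 := Fintype.linearIndependent_iff.mp b.linearIndependent _ h4
  have h6 : V %ₘ FF g m f = 0 := by
    refine Polynomial.ext fun i => ?_
    rw [coeff_zero]
    by_cases hi : i < g
    · exact iA_injective (w := w) (t := t) (by rw [map_zero]; exact h5 ⟨i, hi⟩)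
    · exact coeff_eq_zero_of_natDegree_lt (by omega)
  rw [h6, zero_add] at h1
  exact ⟨_, h1.symm⟩

/-- An integral element `e'` with `z e' = s`, `z`, `s` in `A'[y]`, forces the zeros of `z` to be zeros of `s`. -/
lemma zero_of_integral [Algebra K[X] E] [IsScalarTower K[X] (EQ w t) E] {y : E} {g : ℕ}
    (hg : 1 ≤ g) (b : Module.Basis (Fin g) (EQ w t) E)
    (hb : ∀ i, b i = y ^ (i : ℕ)) {m f : AQ w t}
    (hy : y ^ g + algebraMap (EQ w t) E (iA w t m) * y ^ (g - 1) =
      algebraMap (EQ w t) E (iA w t f)) (φ : AQ w t →+* K) {y0 : K}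
    (hφ : y0 ^ g + φ m * y0 ^ (g - 1) = φ f) {z s : (AQ w t)[X]} {e' : E}
    (he : IsIntegral K[X] e') (hzs : Th w t y z * e' = Th w t y s)
    (hz : z.eval₂ φ y0 = 0) : s.eval₂ φ y0 = 0 := by
  obtain ⟨p, hp, hpe⟩ := he
  set n := p.natDegree with hn
  set W : (AQ w t)[X] := ∑ i ∈ Finset.range (n + 1),
    C (algebraMap K[X] (AQ w t) (p.coeff i)) * (z ^ (n - i) * s ^ i) with hW
  have h1 : Th w t y W = 0 := by
    have h2 : Th w t y W = Th w t y z ^ n * eval₂ (algebraMap K[X] E) e' p := by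
      rw [hW, map_sum, eval₂_eq_sum_range, Finset.mul_sum]
      refine Finset.sum_congr rfl fun i hi => ?_
      have hi' : i ≤ n := Nat.lt_succ_iff.mp (Finset.mem_range.mp hi)
      rw [map_mul, map_mul, map_pow, map_pow, Th_C, iA_algebraMap,
        ← IsScalarTower.algebraMap_apply, ← hzs, mul_pow]
      have h3 : Th w t y z ^ n = Th w t y z ^ (n - i) * Th w t y z ^ i := by
        rw [← pow_add, Nat.sub_add_cancel hi']
      rw [h3]
      ring
    rw [h2, hpe, mul_zero]
  obtain ⟨Q, hQ⟩ := Th_ker hg b hb hy h1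
  have h2 : W.eval₂ φ y0 = 0 := by
    rw [hQ, eval₂_mul]
    have h3 : (FF g m f).eval₂ φ y0 = 0 := by
      rw [FF, eval₂_sub, eval₂_add, eval₂_mul, eval₂_pow, eval₂_pow, eval₂_X, eval₂_C, eval₂_C,
        hφ, sub_self]
    rw [h3, zero_mul]
  have h3 : W.eval₂ φ y0 = (s.eval₂ φ y0) ^ n := by
    rw [hW, eval₂_finsetSum, Finset.sum_range_succ, Finset.sum_eq_zero, zero_add]
    · rw [eval₂_mul, eval₂_mul, eval₂_C, eval₂_pow, eval₂_pow, Nat.sub_self, pow_zero, one_mul,
        hn, hp.coeff_natDegree, map_one, map_one, one_mul]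
    · intro i hi
      have hi' : i < n := Finset.mem_range.mp hi
      rw [eval₂_mul, eval₂_mul, eval₂_pow, hz, zero_pow (by omega), zero_mul, mul_zero]
  rw [h3] at h2
  exact eq_zero_of_pow_eq_zero h2

end

end Pool.Agent.GrT
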