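import Mathlib
import Pool.Agent.GrT.FinP

/-!
The integral closure of `K[x]` in `E = M(y)`: removal of the factors `y` and `π`.
-/

set_option autoImplicit false

namespace Pool.Agent.GrT

open Polynomial Pool.Agent.GrE

section

variable {K : Type*} [Field K] {w t : K} [Fact (∀ r : RatFunc K, r ^ 2 ≠ Nf w t + Tf w * r)]
  {E : Type*} [Field E] [Algebra (EQ w t) E] [Algebra K[X] E] [IsScalarTower K[X] (EQ w t) E]
  {y : E} {g : ℕ} {m f : AQ w t}

/-- The elements of `A'[y]` are integral over `K[x]`. -/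
lemma Th_integral (hg : 1 ≤ g)
    (hy : y ^ g + algebraMap (EQ w t) E (iA w t m) * y ^ (g - 1) =
      algebraMap (EQ w t) E (iA w t f)) (V : (AQ w t)[X]) : IsIntegral K[X] (Th w t y V) := by
  have hc : ∀ u : AQ w t, IsIntegral K[X] (algebraMap (EQ w t) E (iA w t u)) :=
    fun u => (Nor_isIntegral (iA_InA u)).algebraMap
  have hyi : IsIntegral K[X] y := by
    let _ : Algebra (AQ w t) E := ((algebraMap (EQ w t) E).comp (iA w t)).toAlgebra
    have hmap : ∀ u : AQ w t, algebraMap (AQ w t) E u = algebraMap (EQ w t) E (iA w t u) :=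
      fun u => rfl
    have : IsScalarTower K[X] (AQ w t) E := by
      refine IsScalarTower.of_algebraMap_eq fun A => ?_
      rw [hmap, iA_algebraMap, ← IsScalarTower.algebraMap_apply]
    refine isIntegral_trans (A := AQ w t) y ⟨FF g m f, FF_monic hg m f, ?_⟩
    rw [FF, eval₂_sub, eval₂_add, eval₂_mul, eval₂_pow, eval₂_pow, eval₂_X, eval₂_C, eval₂_C,
      hmap, hmap, hy, sub_self]
  rw [Th, coe_eval₂RingHom, eval₂_eq_sum_range]
  exact IsIntegral.sum _ fun i _ => (hc _).mul (hyi.pow i)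

/-- Removal of a factor `y`. -/
lemma step_y {A B P : K[X]} (hP : QuadraticAlgebra.norm (pp w t A B) = algebraMap K[X] (RatFunc K) P)
    (hd : P.natDegree = 1) (hg : 2 ≤ g) (hy0 : y ≠ 0) (b : Module.Basis (Fin g) (EQ w t) E)
    (hb : ∀ i, b i = y ^ (i : ℕ))
    (hy : y ^ g + algebraMap (EQ w t) E (iA w t m) * y ^ (g - 1) =
      algebraMap (EQ w t) E (iA w t ⟨A, B⟩)) {e' : E} (he : IsIntegral K[X] e')
    (h : ∃ V, Th w t y V = y * e') : ∃ V, Th w t y V = e' := by
  obtain ⟨V, hV⟩ := h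
  obtain ⟨e, n, hn, h1⟩ := exists_zero hP hd
  have h2 : evP hn (⟨A, B⟩ : AQ w t) = 0 := h1
  have h3 : V.eval₂ (evP hn) 0 = 0 := by
    refine zero_of_integral (z := X) (by omega) b hb hy (evP hn) (y0 := 0) ?_ he ?_ ?_
    · rw [h2, zero_pow (by omega), zero_pow (by omega), mul_zero, add_zero]
    · rw [Th_X, hV]
    · rw [eval₂_X]
  rw [eval₂_at_zero] at h3
  obtain ⟨u, hu⟩ := dvd_of_zero hP hd hn h1 h3
  refine ⟨V.divX + (X ^ (g - 1) + C m * X ^ (g - 2)) * C u, ?_⟩
  apply mul_left_cancel₀ hy0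
  have h4 := congrArg (Th w t y) (divX_mul_X_add V)
  rw [map_add, map_mul, Th_X, hu, Th_C, map_mul (iA w t), map_mul (algebraMap (EQ w t) E), ← hy,
    hV] at h4
  rw [map_add, map_mul, map_add, map_mul, map_pow, map_pow, Th_X, Th_C, Th_C, ← h4]
  have e1 : y ^ g = y * y ^ (g - 1) := by
    rw [← pow_succ', Nat.sub_add_cancel (by omega)]
  have e2 : y ^ (g - 1) = y * y ^ (g - 2) := by
    rw [← pow_succ']
    congr 1
    omega
  rw [e1]
  conv_rhs => rw [e2]
  conv_lhs => rw [e2]
  ring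

/-- Removal of the factors `y^n`. -/
lemma step_pow {A B P : K[X]} (hP : QuadraticAlgebra.norm (pp w t A B) = algebraMap K[X] (RatFunc K) P)
    (hd : P.natDegree = 1) (hg : 2 ≤ g) (hy0 : y ≠ 0) (b : Module.Basis (Fin g) (EQ w t) E)
    (hb : ∀ i, b i = y ^ (i : ℕ))
    (hy : y ^ g + algebraMap (EQ w t) E (iA w t m) * y ^ (g - 1) =
      algebraMap (EQ w t) E (iA w t ⟨A, B⟩)) {e' : E} (he : IsIntegral K[X] e') (n : ℕ)
    (h : ∃ V, Th w t y V = y ^ n * e') : ∃ V, Th w t y V = e' := by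
  induction n with
  | zero => rwa [pow_zero, one_mul] at h
  | succ n ih =>
    apply ih
    refine step_y hP hd hg hy0 b hb hy ?_ ?_
    · have h1 := Th_integral (y := y) (by omega) hy X
      rw [Th_X] at h1
      exact (h1.pow n).mul he
    · rw [← mul_assoc, ← pow_succ']
      exact h

/-- Removal of the factor `π = A1 + B1 ν`. -/
lemma step_pi [IsAlgClosed K] {A1 B1 P1 : K[X]} {c : K} {α κ : AQ w t}
    (hP1 : QuadraticAlgebra.norm (pp w t A1 B1) = algebraMap K[X] (RatFunc K) P1)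
    (hd1 : P1.natDegree = 1) (hg : 2 ≤ g) (b : Module.Basis (Fin g) (EQ w t) E)
    (hb : ∀ i, b i = y ^ (i : ℕ))
    (hy : y ^ g + algebraMap (EQ w t) E (iA w t (kA w t c * ⟨A1, B1⟩)) * y ^ (g - 1) =
      algebraMap (EQ w t) E (iA w t α))
    {e n : K} (hn : n ^ 2 = (TT w).eval e * n + (NN w t).eval e)
    (h1 : A1.eval e + B1.eval e * n = 0)
    (hκ : α - kA w t (evP hn α) = ⟨A1, B1⟩ * κ)
    (hc : ∀ y₀ : K, y₀ ^ g = evP hn α → evP hn κ ≠ c * y₀ ^ (g - 1))
    {e' : E} (he : IsIntegral K[X] e')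
    (h : ∃ V, Th w t y V = algebraMap (EQ w t) E (iA w t ⟨A1, B1⟩) * e') :
    ∃ V, Th w t y V = e' := by
  classical
  have hg1 : 1 ≤ g := by omega
  have : Nontrivial (AQ w t) := ⟨⟨0, 1, fun h => zero_ne_one (congrArg QuadraticAlgebra.re h)⟩⟩
  set π : AQ w t := ⟨A1, B1⟩ with hπ
  have hπ0 : algebraMap (EQ w t) E (iA w t π) ≠ 0 := by
    intro h0
    have h2 : iA w t π = 0 := (map_eq_zero _).mp h0
    have h3 : QuadraticAlgebra.norm (pp w t A1 B1) = 0 := by
      have h4 : pp w t A1 B1 = 0 := h2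
      rw [h4, QuadraticAlgebra.norm_zero]
    rw [hP1] at h3
    have h5 : P1 = 0 := RatFunc.algebraMap_injective K (by rw [h3, map_zero])
    rw [h5, natDegree_zero] at hd1
    exact absurd hd1 (by norm_num)
  have hevπ : evP hn π = 0 := h1
  -- reduce the degree of `V`
  obtain ⟨V0, hV0⟩ := h
  set m : AQ w t := kA w t c * π with hm
  have hmon := FF_monic hg1 m α
  have hF : Th w t y (FF g m α) = 0 := by
    rw [FF, map_sub, map_add, map_mul, map_pow, map_pow, Th_X, Th_C, Th_C, hy, sub_self]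
  set V := V0 %ₘ FF g m α with hVdef
  have hV : Th w t y V = algebraMap (EQ w t) E (iA w t π) * e' := by
    rw [← hV0]
    conv_rhs => rw [← modByMonic_add_div V0 (FF g m α)]
    rw [map_add, map_mul, hF, zero_mul, add_zero]
  have hVd : V.natDegree < g := by
    have h4 := natDegree_modByMonic_lt V0 hmon (by
      intro h5
      have h6 := FF_natDegree hg1 m α
      rw [h5, natDegree_one] at h6
      omega)
    rwa [FF_natDegree hg1] at h4
  -- polynomials whose reduction vanishes
  have hdvd : ∀ D : (AQ w t)[X], D.map (evP hn) = 0 → ∃ D', D = C π * D' := by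
    intro D hD
    have h2 : C π ∣ D := by
      rw [C_dvd_iff_dvd_coeff]
      intro i
      refine dvd_of_zero hP1 hd1 hn h1 ?_
      have h3 := congrArg (fun p => p.coeff i) hD
      simpa [coeff_map] using h3
    exact h2
  by_cases hVbar : V.map (evP hn) = 0
  · obtain ⟨V', hV'⟩ := hdvd V hVbar
    refine ⟨V', ?_⟩
    apply mul_left_cancel₀ hπ0
    rw [← hV, hV', map_mul, Th_C]
  · exfalso
    obtain ⟨Vb, hVb⟩ : ∃ p : K[X], p = V.map (evP hn) := ⟨_, rfl⟩
    rw [← hVb] at hVbar
    obtain ⟨γ, hγ⟩ : ∃ x : K, x = evP hn α := ⟨_, rfl⟩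
    rw [← hγ] at hκ hc
    obtain ⟨G, hG⟩ : ∃ p : K[X], p = X ^ g - C γ := ⟨_, rfl⟩
    have hGd : G.natDegree = g := by
      rw [hG]
      exact natDegree_X_pow_sub_C
    have hG0 : G ≠ 0 := by
      rw [hG]
      exact X_pow_sub_C_ne_zero hg1 γ
    obtain ⟨d, hd⟩ : ∃ p : K[X], p = EuclideanDomain.gcd Vb G := ⟨_, rfl⟩
    obtain ⟨G', hG'⟩ := EuclideanDomain.gcd_dvd_right Vb G
    have hdd : d.natDegree < g := by
      have h2 : d.natDegree ≤ Vb.natDegree := by
        rw [hd]
        exact natDegree_le_of_dvd (EuclideanDomain.gcd_dvd_left Vb G) hVbar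
      have h3 : Vb.natDegree ≤ V.natDegree := by
        rw [hVb]
        exact natDegree_map_le
      omega
    rw [← hd] at hG'
    have hd0 : d ≠ 0 := by
      rintro h0
      rw [h0, zero_mul] at hG'
      exact hG0 hG'
    have hG'0 : G' ≠ 0 := by
      rintro h0
      rw [h0, mul_zero] at hG'
      exact hG0 hG'
    have hG'd : 0 < G'.natDegree := by
      have h2 := congrArg natDegree hG'
      rw [hGd, natDegree_mul hd0 hG'0] at h2
      omega
    obtain ⟨y₀, hy₀⟩ := IsAlgClosed.exists_root G' (by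
      intro h2
      rw [degree_eq_natDegree hG'0] at h2
      have h3 : G'.natDegree = 0 := by exact_mod_cast h2
      omega)
    obtain ⟨r, hr⟩ := dvd_iff_isRoot.mpr hy₀
    -- Bezout
    have hbez : d = Vb * EuclideanDomain.gcdA Vb G + G * EuclideanDomain.gcdB Vb G := by
      rw [hd]
      exact EuclideanDomain.gcd_eq_gcd_ab Vb G
    obtain ⟨p', hp'⟩ : ∃ p : K[X], p = r * EuclideanDomain.gcdA Vb G := ⟨_, rfl⟩
    obtain ⟨r', hr'⟩ : ∃ p : K[X], p = r * EuclideanDomain.gcdB Vb G := ⟨_, rfl⟩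
    obtain ⟨Q, hQ⟩ : ∃ p : K[X], p = d * r := ⟨_, rfl⟩
    have hQe : Q = p' * Vb + r' * G := by
      rw [hQ, hp', hr']
      conv_lhs => rw [hbez]
      ring
    have hGQ : G = (X - C y₀) * Q := by
      rw [hG', hr, hQ]
      ring
    have hlift : ∀ q : K[X], (q.map (kA w t)).map (evP hn) = q := by
      intro q
      rw [Polynomial.map_map]
      have h2 : (evP hn).comp (kA w t) = RingHom.id K := by
        refine RingHom.ext fun x => ?_
        exact evP_kA hn x
      rw [h2, Polynomial.map_id]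
    have hyγ : y₀ ^ g = γ := by
      have h2 := congrArg (eval y₀) hGQ
      rw [eval_mul, eval_sub, eval_X, eval_C, sub_self, zero_mul, hG, eval_sub, eval_pow, eval_X,
        eval_C] at h2
      exact sub_eq_zero.mp h2
    -- the multiple of `π`
    obtain ⟨D', hD'⟩ := hdvd (p'.map (kA w t) * V - Q.map (kA w t) +
        r'.map (kA w t) * (G.map (kA w t))) (by
      rw [Polynomial.map_add, Polynomial.map_sub, Polynomial.map_mul, Polynomial.map_mul, hlift,
        hlift, hlift, hlift, ← hVb, hQe]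
      ring)
    set s : (AQ w t)[X] := C κ - C (kA w t c) * X ^ (g - 1) with hs
    have hGy : Th w t y (G.map (kA w t)) = algebraMap (EQ w t) E (iA w t π) * Th w t y s := by
      rw [hG, Polynomial.map_sub, Polynomial.map_pow, map_X, map_C, map_sub, map_pow, Th_X, Th_C,
        hs, map_sub, map_mul, Th_C, map_pow, Th_X, Th_C]
      have h2 := congrArg (fun u => algebraMap (EQ w t) E (iA w t u)) hκ
      simp only [map_sub, map_mul] at h2
      have h3 := hy
      rw [hm, map_mul, map_mul] at h3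
      linear_combination h3 + h2
    set e1 : E := Th w t y (p'.map (kA w t)) * e' + Th w t y (r'.map (kA w t)) * Th w t y s -
      Th w t y D' with he1
    have hQy : Th w t y (Q.map (kA w t)) = algebraMap (EQ w t) E (iA w t π) * e1 := by
      have h2 := congrArg (Th w t y) hD'
      rw [map_add, map_sub, map_mul, map_mul, map_mul, hV, hGy, Th_C] at h2
      rw [he1]
      linear_combination -h2
    have he1i : IsIntegral K[X] e1 :=
      (((Th_integral hg1 hy _).mul he).add ((Th_integral hg1 hy _).mul (Th_integral hg1 hy _))).sub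
        (Th_integral hg1 hy _)
    have hfin : Th w t y (X - C (kA w t y₀)) * e1 = Th w t y s := by
      apply mul_left_cancel₀ hπ0
      rw [← hGy, hGQ, Polynomial.map_mul, Polynomial.map_sub, map_X, map_C, map_mul, hQy]
      ring
    have h2 := zero_of_integral hg1 b hb hy (evP hn) (y0 := y₀) (by
      rw [hm, map_mul, hevπ, mul_zero, zero_mul, add_zero, hyγ, hγ]) he1i hfin (by
      rw [eval₂_sub, eval₂_X, eval₂_C, evP_kA, sub_self])
    rw [hs, eval₂_sub, eval₂_mul, eval₂_C, eval₂_C, eval₂_pow, eval₂_X, evP_kA] at h2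
    exact hc y₀ hyγ (sub_eq_zero.mp h2)

end

end Pool.Agent.GrT
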