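import Mathlib
import Pool.Agent.GrE.Defs

/-!
The extension `E = M(t)`, `t^g + c t^(g-1) = f`, `g = 0` in `M`.
-/

set_option autoImplicit false

namespace Pool.Agent.GrT

open Polynomial

/-- `E` has the basis `1, t, ..., t^(g-1)` over `M`, and `t^g + c t^(g-1) = f`. -/
structure Tri (M E : Type*) [Field M] [Field E] [Algebra M E] (g : ℕ) (c f : M) where
  /-- the generator -/
  t : E
  ht : t ^ g + algebraMap M E c * t ^ (g - 1) = algebraMap M E f
  /-- the basis of the powers of `t` -/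
  b : Module.Basis (Fin g) M E
  hb : ∀ i, b i = t ^ (i : ℕ)
  hc : c ≠ 0
  hf : f ≠ 0

variable {M E : Type*} [Field M] [Field E] [Algebra M E] {g : ℕ} {c f : M}

theorem Tri_natDegree (hg : 3 ≤ g) :
    (X ^ g + C c * X ^ (g - 1) - C f : M[X]).natDegree = g := by
  have h1 : (C c * X ^ (g - 1) - C f : M[X]).natDegree ≤ g - 1 := by
    refine (natDegree_sub_le _ _).trans (max_le (natDegree_C_mul_X_pow_le _ _) ?_)
    rw [natDegree_C]
    exact Nat.zero_le _
  rw [add_sub_assoc, natDegree_add_eq_left_of_natDegree_lt]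
  · exact natDegree_X_pow g
  · rw [natDegree_X_pow]
    omega

/-- `E = AdjoinRoot`. -/
theorem exists_tri (hc : c ≠ 0) (hf : f ≠ 0) (hg : 3 ≤ g)
    [Fact (Irreducible (X ^ g + C c * X ^ (g - 1) - C f : M[X]))] :
    Nonempty (Tri M (AdjoinRoot (X ^ g + C c * X ^ (g - 1) - C f : M[X])) g c f) := by
  have h0 : (X ^ g + C c * X ^ (g - 1) - C f : M[X]).natDegree = g := Tri_natDegree hg
  have h1 : (X ^ g + C c * X ^ (g - 1) - C f : M[X]) ≠ 0 := by
    intro h
    rw [h, natDegree_zero] at h0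
    omega
  have h2 : (AdjoinRoot.powerBasis h1).dim = g := by
    rw [AdjoinRoot.powerBasis_dim, h0]
  refine ⟨{ t := AdjoinRoot.root _, ht := ?_,
            b := (AdjoinRoot.powerBasis h1).basis.reindex (finCongr h2), hb := ?_,
            hc := hc, hf := hf }⟩
  · have h3 := AdjoinRoot.eval₂_root (X ^ g + C c * X ^ (g - 1) - C f : M[X])
    rw [eval₂_sub, eval₂_add, eval₂_mul, eval₂_pow, eval₂_pow, eval₂_X, eval₂_C, eval₂_C,
      sub_eq_zero] at h3
    exact h3
  · intro i
    rw [Module.Basis.reindex_apply, PowerBasis.basis_eq_pow, AdjoinRoot.powerBasis_gen]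
    rfl

theorem Tri.t_ne (k : Tri M E g c f) (hg : 3 ≤ g) : k.t ≠ 0 := by
  intro h
  have h1 := k.ht
  rw [h, zero_pow (by omega), zero_pow (by omega), mul_zero, add_zero] at h1
  exact k.hf ((map_eq_zero (algebraMap M E)).mp h1.symm)

/-- The coefficients of `a t^n`, `n < g`. -/
theorem Tri.repr_pow (k : Tri M E g c f) (a : M) {n : ℕ} (hn : n < g) (i : Fin g) :
    k.b.repr (algebraMap M E a * k.t ^ n) i = if n = (i : ℕ) then a else 0 := by
  have h1 : k.t ^ n = k.b ⟨n, hn⟩ := (k.hb ⟨n, hn⟩).symm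
  rw [h1, ← Algebra.smul_def, map_smul, Module.Basis.repr_self, Finsupp.smul_apply,
    Finsupp.single_apply]
  by_cases h : n = (i : ℕ)
  · rw [if_pos h, if_pos (Fin.ext h), smul_eq_mul, mul_one]
  · rw [if_neg h, if_neg, smul_zero]
    intro h2
    exact h (congrArg Fin.val h2)

/-- The trace is the sum of the diagonal coefficients. -/
theorem Tri.trace_eq (k : Tri M E g c f) (u : E) :
    Algebra.trace M E u = ∑ i : Fin g, k.b.repr (u * k.t ^ (i : ℕ)) i := by
  rw [Algebra.trace_eq_matrix_trace k.b, Matrix.trace]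
  refine Finset.sum_congr rfl fun i _ => ?_
  rw [Matrix.diag_apply, Algebra.leftMulMatrix_eq_repr_mul, k.hb]

/-- Proof: the sum of the roots is `-c` (`Algebra.trace` of a generator = minus the next coefficient of the minimal
polynomial, or: the matrix of the multiplication by `t` in the basis `k.b`). -/
theorem Tri.trace_t (k : Tri M E g c f) (hg : 3 ≤ g) : Algebra.trace M E k.t = - c := by
  rw [k.trace_eq, Finset.sum_eq_single (⟨g - 1, by omega⟩ : Fin g)]
  · have h1 : k.t * k.t ^ (g - 1) = algebraMap M E f * k.t ^ 0 +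
        algebraMap M E (-c) * k.t ^ (g - 1) := by
      rw [← pow_succ', Nat.sub_add_cancel (by omega), pow_zero, mul_one, ← k.ht, map_neg]
      ring
    show k.b.repr (k.t * k.t ^ (g - 1)) _ = _
    rw [h1, map_add, Finsupp.add_apply, k.repr_pow _ (by omega), k.repr_pow _ (by omega),
      if_neg, if_pos rfl, zero_add]
    show ¬ (0 = g - 1)
    omega
  · intro i _ hi
    have h2 : (i : ℕ) + 1 < g := by
      have h3 := i.2
      have h4 : (i : ℕ) ≠ g - 1 := fun h => hi (Fin.ext h)
      omega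
    have h1 : k.t * k.t ^ (i : ℕ) = algebraMap M E 1 * k.t ^ ((i : ℕ) + 1) := by
      rw [map_one, one_mul, pow_succ']
    rw [h1, k.repr_pow _ h2, if_neg]
    omega
  · intro h
    exact absurd (Finset.mem_univ _) h

/-- Proof: the matrix of the multiplication by `t⁻¹` in the basis `k.b`: `t⁻¹ t^i = t^(i-1)` for `i ≥ 1` and
`t⁻¹ = f⁻¹ (t^(g-1) + c t^(g-2))`.  So `t^(-m) t^i = t^(i-m)` for `i ≥ m` (no diagonal entry if `m > 0`) and for `i < m`:
`t^(i-m) = f⁻¹ (t^(g-(m-i)) + c t^(g-1-(m-i)))`, whose coefficient at `t^i` is `0` since `g - 1 - m + i > i` for `m < g - 1`; for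
`m = 0` the trace is `g = 0`. -/
theorem Tri.trace_inv (k : Tri M E g c f) (hg : 3 ≤ g) (hg0 : (g : M) = 0) {m : ℕ}
    (hm : m ≤ g - 2) : Algebra.trace M E (k.t ^ m)⁻¹ = 0 := by
  have ht0 := k.t_ne hg
  have hfE : algebraMap M E f ≠ 0 := (map_ne_zero (algebraMap M E)).mpr k.hf
  rcases Nat.eq_zero_or_pos m with hm0 | hm0
  · subst hm0
    rw [pow_zero, inv_one, ← map_one (algebraMap M E), Algebra.trace_algebraMap_of_basis k.b,
      Fintype.card_fin, nsmul_eq_mul, hg0, zero_mul]
  · rw [k.trace_eq]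
    refine Finset.sum_eq_zero fun i _ => ?_
    by_cases h : m ≤ (i : ℕ)
    · have h1 : (k.t ^ m)⁻¹ * k.t ^ (i : ℕ) = algebraMap M E 1 * k.t ^ ((i : ℕ) - m) := by
        rw [map_one, one_mul, inv_mul_eq_iff_eq_mul₀ (pow_ne_zero _ ht0), ← pow_add]
        congr 1
        omega
      rw [h1, k.repr_pow _ (by omega), if_neg (by omega)]
    · push Not at h
      have h1 : (k.t ^ m)⁻¹ * k.t ^ (i : ℕ) = algebraMap M E f⁻¹ * k.t ^ (g - (m - i)) +
          algebraMap M E (f⁻¹ * c) * k.t ^ (g - 1 - (m - i)) := by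
        rw [inv_mul_eq_iff_eq_mul₀ (pow_ne_zero _ ht0), map_mul, map_inv₀]
        have e1 : k.t ^ m * k.t ^ (g - (m - (i : ℕ))) = k.t ^ (i : ℕ) * k.t ^ g := by
          rw [← pow_add, ← pow_add]
          congr 1
          omega
        have e2 : k.t ^ m * k.t ^ (g - 1 - (m - (i : ℕ))) = k.t ^ (i : ℕ) * k.t ^ (g - 1) := by
          rw [← pow_add, ← pow_add]
          congr 1
          omega
        have e3 : k.t ^ m * ((algebraMap M E f)⁻¹ * k.t ^ (g - (m - (i : ℕ))) +
            (algebraMap M E f)⁻¹ * algebraMap M E c * k.t ^ (g - 1 - (m - (i : ℕ)))) =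
            (algebraMap M E f)⁻¹ * (k.t ^ m * k.t ^ (g - (m - (i : ℕ))) +
              algebraMap M E c * (k.t ^ m * k.t ^ (g - 1 - (m - (i : ℕ))))) := by
          ring
        rw [e3, e1, e2]
        have e4 : k.t ^ (i : ℕ) * k.t ^ g + algebraMap M E c *
            (k.t ^ (i : ℕ) * k.t ^ (g - 1)) = k.t ^ (i : ℕ) * algebraMap M E f := by
          rw [← k.ht]
          ring
        rw [e4]
        field_simp
      rw [h1, map_add, Finsupp.add_apply, k.repr_pow _ (by omega), k.repr_pow _ (by omega),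
        if_neg (by omega), if_neg (by omega), add_zero]

/-- Proof: `t^(-(g-1)) = f⁻¹ (t + c)`, and `Tr c = g c = 0`. -/
theorem Tri.trace_inv_last (k : Tri M E g c f) (hg : 3 ≤ g) (hg0 : (g : M) = 0) :
    Algebra.trace M E (k.t ^ (g - 1))⁻¹ = - c / f := by
  have ht0 := k.t_ne hg
  have hfE : algebraMap M E f ≠ 0 := (map_ne_zero (algebraMap M E)).mpr k.hf
  have h1 : (k.t ^ (g - 1))⁻¹ = f⁻¹ • (k.t + algebraMap M E c) := by
    rw [Algebra.smul_def, map_inv₀, inv_eq_iff_eq_inv, mul_inv, inv_inv, eq_mul_inv_iff_mul_eq₀]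
    · rw [← k.ht]
      have e1 : k.t ^ g = k.t ^ (g - 1) * k.t := by
        rw [← pow_succ, Nat.sub_add_cancel (by omega)]
      rw [e1]
      ring
    · intro h
      have h2 := k.ht
      have e1 : k.t ^ g = k.t ^ (g - 1) * k.t := by
        rw [← pow_succ, Nat.sub_add_cancel (by omega)]
      rw [e1] at h2
      apply hfE
      rw [← h2]
      linear_combination k.t ^ (g - 1) * h
  rw [h1, map_smul, map_add, k.trace_t hg, Algebra.trace_algebraMap_of_basis k.b,
    Fintype.card_fin, nsmul_eq_mul, hg0, zero_mul, add_zero, smul_eq_mul]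
  field_simp

/-- Proof: the derivative of `Y^g + c Y^(g-1) - f` is `- c Y^(g-2)`, and `f ≠ 0`. -/
theorem Tri.sep (k : Tri M E g c f) (hg : 3 ≤ g) (hg0 : (g : M) = 0) :
    Algebra.IsSeparable M E := by
  have hsep : (X ^ g + C c * X ^ (g - 1) - C f : M[X]).Separable := by
    rw [Polynomial.separable_def]
    have hg1 : ((g - 1 : ℕ) : M) = -1 := by
      rw [Nat.cast_sub (by omega), hg0, Nat.cast_one, zero_sub]
    have hd : derivative (X ^ g + C c * X ^ (g - 1) - C f : M[X]) = C (-c) * X ^ (g - 1 - 1) := by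
      rw [derivative_sub, derivative_add, derivative_C_mul, derivative_X_pow, derivative_X_pow,
        derivative_C, hg0, hg1]
      simp
    rw [hd]
    refine IsCoprime.mul_right ?_ (IsCoprime.pow_right ?_)
    · refine ⟨0, C (-c)⁻¹, ?_⟩
      rw [zero_mul, zero_add, ← C_mul, inv_mul_cancel₀ (neg_ne_zero.mpr k.hc), C_1]
    · -- `f = X (...) - q`
      refine ⟨- C f⁻¹, C f⁻¹ * (X ^ (g - 1) + C c * X ^ (g - 1 - 1)), ?_⟩
      have e1 : (X : M[X]) ^ g = X ^ (g - 1) * X := by
        rw [← pow_succ, Nat.sub_add_cancel (by omega)]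
      have e2 : (X : M[X]) ^ (g - 1) = X ^ (g - 1 - 1) * X := by
        rw [← pow_succ, Nat.sub_add_cancel (by omega)]
      have e3 : (C f⁻¹ : M[X]) * C f = 1 := by
        rw [← C_mul, inv_mul_cancel₀ k.hf, C_1]
      rw [e1]
      linear_combination e3 - C f⁻¹ * C c * e2
  rw [← separableClosure.eq_top_iff]
  have ht : k.t ∈ separableClosure M E := by
    rw [mem_separableClosure_iff]
    refine hsep.of_dvd (minpoly.dvd _ _ ?_)
    rw [map_sub, map_add, map_mul, map_pow, map_pow, aeval_X, aeval_C, aeval_C, k.ht, sub_self]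
  rw [eq_top_iff]
  intro x _
  rw [← k.b.sum_repr x]
  refine sum_mem fun i _ => ?_
  rw [k.hb, Algebra.smul_def]
  exact mul_mem (IntermediateField.algebraMap_mem _ _) (pow_mem ht _)

end Pool.Agent.GrT
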