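import Mathlib
import Pool.Agent.GrT.Tri
import Pool.Agent.GrE.Nor

/-!
The polynomials with coefficients in `A'` evaluated at `y`: the ring `A'[y]`, its equation, and the coefficient criterion by traces.
-/

set_option autoImplicit false

namespace Pool.Agent.GrT

open Polynomial Pool.Agent.GrE

section

variable {K : Type*} [Field K] {w t : K}

/-- The inclusion of `A'` in the function field. -/
noncomputable def Fint_io (w t : K) : AQ w t →+* EQ w t where
  toFun u := pp w t u.re u.im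
  map_one' := by
    show pp w t 1 0 = 1
    rw [← Nor_algebraMap, map_one]
  map_mul' u v := by
    show pp w t (u * v).re (u * v).im = _
    rw [Nor_pp_mul, QuadraticAlgebra.re_mul, QuadraticAlgebra.im_mul]
  map_zero' := by
    show pp w t 0 0 = 0
    rw [← Nor_algebraMap, map_zero]
  map_add' u v := by
    show pp w t (u + v).re (u + v).im = _
    ext
    · simp [pp]
    · simp [pp]

theorem Fint_io_apply (u : AQ w t) : Fint_io w t u = pp w t u.re u.im := rfl

theorem Fint_io_inj : Function.Injective (Fint_io w t) := by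
  intro u v h
  obtain ⟨h1, h2⟩ := Nor_pp_inj h
  exact QuadraticAlgebra.ext h1 h2

theorem Fint_InA (u : AQ w t) : InA (Fint_io w t u) := ⟨u.re, u.im, rfl⟩

theorem Fint_exists {v : EQ w t} (hv : InA v) : ∃ u : AQ w t, Fint_io w t u = v := by
  obtain ⟨A, B, rfl⟩ := hv
  exact ⟨⟨A, B⟩, rfl⟩

theorem Fint_const (c : K) (A B : K[X]) :
    algebraMap K (EQ w t) c * pp w t A B = pp w t (C c * A) (C c * B) := by
  rw [← Nor_algebraMap_mul]
  congr 1

end

/-- The coefficient criterion over a subring `S` of `M`. -/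
theorem Fint_gen {M E : Type*} [Field M] [Field E] [Algebra M E] {g : ℕ} {π' α : M}
    (k : Tri M E g π' α) (hg : 3 ≤ g) (hg0 : (g : M) = 0) (S : Subring M) (hπS : π' ∈ S)
    (hαS : α ∈ S) (v : Fin g → M) :
    (∀ i : ℕ, i < g → Algebra.trace M E ((∑ j : Fin g, algebraMap M E (v j) * k.t ^ (j : ℕ)) *
      k.t ^ i * (algebraMap M E π' * k.t ^ (g - 2))⁻¹) ∈ S) ↔ ∀ i, v i ∈ S := by
  have hπ0 : π' ≠ 0 := k.hc
  have ht0 : k.t ≠ 0 := k.t_ne hg
  set Λ : ℕ → M := fun n => Algebra.trace M E (k.t ^ n *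
    (algebraMap M E π' * k.t ^ (g - 2))⁻¹) with hΛ
  have hΛe : ∀ n, Λ n = Algebra.trace M E (k.t ^ n *
    (algebraMap M E π' * k.t ^ (g - 2))⁻¹) := fun n => rfl
  -- small exponents
  have hΛ0 : ∀ n, n ≤ g - 2 → Λ n = 0 := by
    intro n hn
    have h1 : k.t ^ n * (algebraMap M E π' * k.t ^ (g - 2))⁻¹ =
        π'⁻¹ • (k.t ^ (g - 2 - n))⁻¹ := by
      rw [Algebra.smul_def, map_inv₀, mul_inv, mul_left_comm]
      congr 1
      rw [mul_inv_eq_iff_eq_mul₀ (pow_ne_zero _ ht0), inv_mul_eq_div,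
        eq_div_iff (pow_ne_zero _ ht0), ← pow_add]
      congr 1
      omega
    rw [hΛe, h1, map_smul, k.trace_inv hg hg0 (by omega), smul_zero]
  have hΛ1 : Λ (g - 1) = -1 := by
    have h1 : k.t ^ (g - 1) * (algebraMap M E π' * k.t ^ (g - 2))⁻¹ =
        π'⁻¹ • k.t := by
      rw [Algebra.smul_def, map_inv₀, mul_inv, mul_left_comm]
      congr 1
      rw [mul_inv_eq_iff_eq_mul₀ (pow_ne_zero _ ht0), ← pow_succ']
      congr 1
      omega
    rw [hΛe, h1, map_smul, k.trace_t hg, smul_eq_mul, mul_neg, inv_mul_cancel₀ hπ0]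
  have hΛr : ∀ n, Λ (n + g) = α * Λ n - π' * Λ (n + (g - 1)) := by
    intro n
    have h1 : k.t ^ (n + g) * (algebraMap M E π' * k.t ^ (g - 2))⁻¹ =
        α • (k.t ^ n * (algebraMap M E π' * k.t ^ (g - 2))⁻¹) -
        π' • (k.t ^ (n + (g - 1)) * (algebraMap M E π' * k.t ^ (g - 2))⁻¹) := by
      rw [Algebra.smul_def, Algebra.smul_def, ← k.ht, pow_add, pow_add]
      ring
    rw [hΛe, h1, map_sub, map_smul, map_smul, smul_eq_mul, smul_eq_mul]
  have hΛA : ∀ n, Λ n ∈ S := by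
    intro n
    induction n using Nat.strong_induction_on with
    | _ n ih =>
      by_cases h1 : n ≤ g - 2
      · rw [hΛ0 n h1]
        exact S.zero_mem
      · by_cases h2 : n = g - 1
        · rw [h2, hΛ1]
          exact S.neg_mem S.one_mem
        · obtain ⟨m, rfl⟩ : ∃ m, n = m + g := ⟨n - g, by omega⟩
          rw [hΛr]
          exact S.sub_mem (S.mul_mem hαS (ih _ (by omega))) (S.mul_mem hπS (ih _ (by omega)))
  have hX : ∀ i : ℕ, Algebra.trace M E ((∑ j : Fin g, algebraMap M E (v j) * k.t ^ (j : ℕ)) *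
      k.t ^ i * (algebraMap M E π' * k.t ^ (g - 2))⁻¹) = ∑ j : Fin g, v j * Λ (i + j) := by
    intro i
    rw [Finset.sum_mul, Finset.sum_mul, map_sum]
    refine Finset.sum_congr rfl fun j _ => ?_
    have h1 : algebraMap M E (v j) * k.t ^ (j : ℕ) * k.t ^ i *
        (algebraMap M E π' * k.t ^ (g - 2))⁻¹ =
        v j • (k.t ^ (i + (j : ℕ)) * (algebraMap M E π' * k.t ^ (g - 2))⁻¹) := by
      rw [Algebra.smul_def, pow_add]
      ring
    rw [h1, map_smul, smul_eq_mul]
  constructor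
  · intro h
    have key : ∀ i : ℕ, ∀ hi : i < g, v ⟨g - 1 - i, by omega⟩ ∈ S := by
      intro i
      induction i using Nat.strong_induction_on with
      | _ i ih =>
        intro hi
        have h1 := h i hi
        rw [hX i, ← Finset.add_sum_erase _ _ (Finset.mem_univ (⟨g - 1 - i, by omega⟩ : Fin g))]
          at h1
        have h2 : Λ (i + ((⟨g - 1 - i, by omega⟩ : Fin g) : ℕ)) = -1 := by
          rw [← hΛ1]
          congr 1
          show i + (g - 1 - i) = g - 1
          omega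
        rw [h2] at h1
        have h3 : ∑ j ∈ Finset.univ.erase (⟨g - 1 - i, by omega⟩ : Fin g),
            v j * Λ (i + j) ∈ S := by
          refine S.sum_mem fun j hj => ?_
          have hj1 : (j : ℕ) ≠ g - 1 - i := fun hh =>
            (Finset.mem_erase.mp hj).1 (Fin.ext hh)
          rcases Nat.lt_or_gt_of_ne hj1 with h4 | h4
          · rw [hΛ0 _ (by omega), mul_zero]
            exact S.zero_mem
          · have hj2 := j.2
            have h5 := ih (g - 1 - j) (by omega) (by omega)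
            have h6 : (⟨g - 1 - (g - 1 - j), by omega⟩ : Fin g) = j := Fin.ext (by
              show g - 1 - (g - 1 - (j : ℕ)) = j
              omega)
            rw [h6] at h5
            exact S.mul_mem h5 (hΛA _)
        have h7 := S.neg_mem (S.sub_mem h1 h3)
        rw [add_sub_cancel_right, mul_neg_one, neg_neg] at h7
        exact h7
    intro j
    have hj2 := j.2
    have h5 := key (g - 1 - j) (by omega)
    have h6 : (⟨g - 1 - (g - 1 - j), by omega⟩ : Fin g) = j := Fin.ext (by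
      show g - 1 - (g - 1 - (j : ℕ)) = j
      omega)
    rw [h6] at h5
    exact h5
  · intro h i _
    rw [hX i]
    exact S.sum_mem fun j _ => S.mul_mem (h j) (hΛA _)

section

variable {K : Type*} [Field K] {w t : K} [Fact (∀ r : RatFunc K, r ^ 2 ≠ Nf w t + Tf w * r)]
  {E : Type*} [Field E] [Algebra (EQ w t) E] [Algebra K E] [Algebra K[X] E] [Algebra (RatFunc K) E]
  [IsScalarTower K (EQ w t) E] [IsScalarTower K[X] (EQ w t) E]
  [IsScalarTower (RatFunc K) (EQ w t) E]
  {A1 B1 P1 Ag Bg Pg : K[X]} {g : ℕ} {c : K}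

/-- `∑ a_i y^i`. -/
noncomputable def pw (k : Tri (EQ w t) E g (algebraMap K (EQ w t) c * pp w t A1 B1) (pp w t Ag Bg))
    (a : Fin g → EQ w t) : E := ∑ i, algebraMap (EQ w t) E (a i) * k.t ^ (i : ℕ)

theorem Fint_pw (k : Tri (EQ w t) E g (algebraMap K (EQ w t) c * pp w t A1 B1) (pp w t Ag Bg))
    (a : Fin g → EQ w t) : pw k a = ∑ i, a i • k.b i := by
  unfold pw
  refine Finset.sum_congr rfl fun i _ => ?_
  rw [k.hb, Algebra.smul_def]

theorem Fint_pw_inj (k : Tri (EQ w t) E g (algebraMap K (EQ w t) c * pp w t A1 B1)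
    (pp w t Ag Bg)) {a b : Fin g → EQ w t} (h : pw k a = pw k b) : a = b := by
  rw [Fint_pw, Fint_pw] at h
  funext i
  have h1 := congrArg (fun e => k.b.repr e i) h
  simp only [Module.Basis.repr_sum_self] at h1
  exact h1

/-- The polynomials with coefficients in `A'`, evaluated at `y`. -/
noncomputable def Fint_Phi (k : Tri (EQ w t) E g (algebraMap K (EQ w t) c * pp w t A1 B1)
    (pp w t Ag Bg)) : (AQ w t)[X] →+* E :=
  eval₂RingHom ((algebraMap (EQ w t) E).comp (Fint_io w t)) k.t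

theorem Fint_Phi_C (k : Tri (EQ w t) E g (algebraMap K (EQ w t) c * pp w t A1 B1)
    (pp w t Ag Bg)) (u : AQ w t) : Fint_Phi k (C u) = algebraMap (EQ w t) E (Fint_io w t u) := by
  simp [Fint_Phi]

theorem Fint_Phi_X (k : Tri (EQ w t) E g (algebraMap K (EQ w t) c * pp w t A1 B1)
    (pp w t Ag Bg)) : Fint_Phi k X = k.t := by
  simp [Fint_Phi]

/-- The equation of `y` over `A'`. -/
noncomputable def Fint_F (w t : K) (g : ℕ) (c : K) (A1 B1 Ag Bg : K[X]) : (AQ w t)[X] :=
  X ^ g + (C (⟨C c * A1, C c * B1⟩ : AQ w t) * X ^ (g - 1) - C (⟨Ag, Bg⟩ : AQ w t))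

omit [Fact (∀ r : RatFunc K, r ^ 2 ≠ Nf w t + Tf w * r)] in
theorem Fint_F_lt (hg : 3 ≤ g) : (C (⟨C c * A1, C c * B1⟩ : AQ w t) * X ^ (g - 1) -
    C (⟨Ag, Bg⟩ : AQ w t) : (AQ w t)[X]).degree < g := by
  refine lt_of_le_of_lt (degree_sub_le _ _) (max_lt ?_ ?_)
  · refine lt_of_le_of_lt (degree_C_mul_X_pow_le _ _) ?_
    exact_mod_cast (show g - 1 < g by omega)
  · refine lt_of_le_of_lt degree_C_le ?_
    exact_mod_cast (show 0 < g by omega)

omit [Fact (∀ r : RatFunc K, r ^ 2 ≠ Nf w t + Tf w * r)] in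
theorem Fint_F_monic (hg : 3 ≤ g) : (Fint_F w t g c A1 B1 Ag Bg).Monic :=
  monic_X_pow_add (Fint_F_lt hg)

omit [Fact (∀ r : RatFunc K, r ^ 2 ≠ Nf w t + Tf w * r)] in
theorem Fint_F_degree (hg : 3 ≤ g) : (Fint_F w t g c A1 B1 Ag Bg).degree = g := by
  have : Nontrivial (AQ w t) := inferInstance
  unfold Fint_F
  rw [degree_add_eq_left_of_degree_lt, degree_X_pow]
  rw [degree_X_pow]
  exact Fint_F_lt hg

theorem Fint_Phi_F (k : Tri (EQ w t) E g (algebraMap K (EQ w t) c * pp w t A1 B1)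
    (pp w t Ag Bg)) : Fint_Phi k (Fint_F w t g c A1 B1 Ag Bg) = 0 := by
  unfold Fint_F
  rw [map_add, map_sub, map_mul, map_pow, map_pow, Fint_Phi_X, Fint_Phi_C, Fint_Phi_C]
  show k.t ^ g + (algebraMap (EQ w t) E (pp w t (C c * A1) (C c * B1)) * k.t ^ (g - 1) -
    algebraMap (EQ w t) E (pp w t Ag Bg)) = 0
  rw [← Fint_const, ← k.ht]
  ring

/-- A polynomial of degree less than `g` as `∑ a_i y^i`. -/
theorem Fint_Phi_lt (k : Tri (EQ w t) E g (algebraMap K (EQ w t) c * pp w t A1 B1)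
    (pp w t Ag Bg)) {P : (AQ w t)[X]} (hP : P.degree < g) :
    Fint_Phi k P = pw k (fun i => Fint_io w t (P.coeff i)) := by
  have h1 : P.natDegree < g ∨ P = 0 := by
    by_cases h : P = 0
    · exact Or.inr h
    · exact Or.inl ((natDegree_lt_iff_degree_lt h).mpr hP)
  rcases h1 with h1 | h1
  · unfold pw
    rw [Fin.sum_univ_eq_sum_range (fun i => algebraMap (EQ w t) E (Fint_io w t (P.coeff i)) *
      k.t ^ i) g]
    exact eval₂_eq_sum_range' _ h1 _
  · subst h1
    rw [map_zero]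
    unfold pw
    simp

/-- The `∑ a_i y^i` with `a_i` in `A'` are the values of the polynomials. -/
theorem Fint_mem (k : Tri (EQ w t) E g (algebraMap K (EQ w t) c * pp w t A1 B1)
    (pp w t Ag Bg)) (hg : 3 ≤ g) (a : Fin g → EQ w t) :
    (∃ P : (AQ w t)[X], Fint_Phi k P = pw k a) ↔ ∀ i, InA (a i) := by
  constructor
  · rintro ⟨P, hP⟩ i
    have h1 : Fint_Phi k P = Fint_Phi k (P %ₘ Fint_F w t g c A1 B1 Ag Bg) := by
      conv_lhs => rw [← modByMonic_add_div P (Fint_F w t g c A1 B1 Ag Bg)]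
      rw [map_add, map_mul, Fint_Phi_F, zero_mul, add_zero]
    have h2 : (P %ₘ Fint_F w t g c A1 B1 Ag Bg).degree < g := by
      rw [← Fint_F_degree (w := w) (t := t) (c := c) (A1 := A1) (B1 := B1) (Ag := Ag)
        (Bg := Bg) hg]
      exact degree_modByMonic_lt _ (Fint_F_monic hg)
    rw [h1, Fint_Phi_lt k h2] at hP
    rw [← Fint_pw_inj k hP]
    exact Fint_InA _
  · intro h
    choose u hu using fun i => Fint_exists (h i)
    refine ⟨∑ i : Fin g, C (u i) * X ^ (i : ℕ), ?_⟩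
    rw [map_sum]
    refine Finset.sum_congr rfl fun i _ => ?_
    rw [map_mul, map_pow, Fint_Phi_C, Fint_Phi_X, hu]

/-- The kernel. -/
theorem Fint_ker (k : Tri (EQ w t) E g (algebraMap K (EQ w t) c * pp w t A1 B1)
    (pp w t Ag Bg)) (hg : 3 ≤ g) {P : (AQ w t)[X]} (hP : Fint_Phi k P = 0) :
    ∃ H : (AQ w t)[X], P = Fint_F w t g c A1 B1 Ag Bg * H := by
  have h1 : Fint_Phi k (P %ₘ Fint_F w t g c A1 B1 Ag Bg) = 0 := by
    have h3 := congrArg (Fint_Phi k) (modByMonic_add_div P (Fint_F w t g c A1 B1 Ag Bg))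
    rw [map_add, map_mul, Fint_Phi_F, zero_mul, add_zero, hP] at h3
    exact h3
  have h2 : (P %ₘ Fint_F w t g c A1 B1 Ag Bg).degree < g := by
    rw [← Fint_F_degree (w := w) (t := t) (c := c) (A1 := A1) (B1 := B1) (Ag := Ag)
      (Bg := Bg) hg]
    exact degree_modByMonic_lt _ (Fint_F_monic hg)
  have h3 : pw k (fun i => Fint_io w t ((P %ₘ Fint_F w t g c A1 B1 Ag Bg).coeff i)) =
      pw k (fun _ => 0) := by
    rw [← Fint_Phi_lt k h2, h1]
    unfold pw
    simp
  have h4 := Fint_pw_inj k h3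
  have h5 : P %ₘ Fint_F w t g c A1 B1 Ag Bg = 0 := by
    ext1 n
    rw [coeff_zero]
    by_cases hn : n < g
    · have h6 := congrFun h4 ⟨n, hn⟩
      exact Fint_io_inj (by rw [map_zero]; exact h6)
    · push Not at hn
      exact coeff_eq_zero_of_degree_lt (lt_of_lt_of_le h2 (by exact_mod_cast hn))
  refine ⟨P /ₘ Fint_F w t g c A1 B1 Ag Bg, ?_⟩
  conv_lhs => rw [← modByMonic_add_div P (Fint_F w t g c A1 B1 Ag Bg), h5, zero_add]

/-- Multiplication by `y`: `(y v)_0 = α v_(g-1)`, `(y v)_i = v_(i-1)`, `(y v)_(g-1) = v_(g-2) - c π v_(g-1)`.  So the `A'`-span `S` of the powers of `y` is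
a ring.  -/
theorem pw_mul (k : Tri (EQ w t) E g (algebraMap K (EQ w t) c * pp w t A1 B1) (pp w t Ag Bg))
    (hg : 3 ≤ g) {a b : Fin g → EQ w t} (ha : ∀ i, InA (a i)) (hb : ∀ i, InA (b i)) :
    ∃ d : Fin g → EQ w t, (∀ i, InA (d i)) ∧ pw k a * pw k b = pw k d := by
  obtain ⟨P, hP⟩ := (Fint_mem k hg a).mpr ha
  obtain ⟨Q, hQ⟩ := (Fint_mem k hg b).mpr hb
  set d : Fin g → EQ w t := fun i => k.b.repr (pw k a * pw k b) i with hd
  have h1 : pw k a * pw k b = pw k d := by
    rw [Fint_pw k d, hd]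
    exact (k.b.sum_repr _).symm
  exact ⟨d, (Fint_mem k hg d).mp ⟨P * Q, by rw [map_mul, hP, hQ, h1]⟩, h1⟩

/-- A coefficient criterion: `Tr(e y^(-(g-2)) y^i)`, `i < g`, in `A'` implies that the coefficients of `e` are in `A'`:
`Tr (∑ v_i y^(i-(g-2))) = - c π v_(g-1)`, `y v` as in `pw_mul`.  It is used for `e = c π f`, `Tr (f y^i) = Tr ((c π f) y^i)/(c π)`. -/
theorem trace_coeff (k : Tri (EQ w t) E g (algebraMap K (EQ w t) c * pp w t A1 B1) (pp w t Ag Bg))
    (hg : 3 ≤ g) (hg0 : (g : K) = 0) (v : Fin g → EQ w t) :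
    (∀ i : ℕ, i < g → InA (Algebra.trace (EQ w t) E (pw k v * k.t ^ i *
      (algebraMap (EQ w t) E (algebraMap K (EQ w t) c * pp w t A1 B1) * k.t ^ (g - 2))⁻¹))) ↔
    ∀ i, InA (v i) := by
  have hgE : (g : EQ w t) = 0 := by
    rw [← map_natCast (algebraMap K (EQ w t)), hg0, map_zero]
  have hS : ∀ u : EQ w t, InA u ↔ u ∈ (Fint_io w t).range := by
    intro u
    constructor
    · intro h
      obtain ⟨v, hv⟩ := Fint_exists h
      exact ⟨v, hv⟩
    · rintro ⟨v, rfl⟩
      exact Fint_InA v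
  have hπA : algebraMap K (EQ w t) c * pp w t A1 B1 ∈ (Fint_io w t).range := by
    rw [← hS, Fint_const]
    exact ⟨_, _, rfl⟩
  have hαA : pp w t Ag Bg ∈ (Fint_io w t).range := by
    rw [← hS]
    exact ⟨_, _, rfl⟩
  have h := Fint_gen k hg hgE (Fint_io w t).range hπA hαA v
  simp only [hS]
  exact h

end

end Pool.Agent.GrT
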