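import Mathlib
import Pool.Agent.GrE.HL
import Pool.Agent.GrE.NorL
import Pool.Agent.GrE.Prm
import Pool.Agent.GrE.Eps

/-!
`h_g / h_1` is not in `A'`; the point `P_1` where `h_1` vanishes.
-/

set_option autoImplicit false

namespace Pool.Agent.GrT

open Polynomial IsLocalRing Pool.Agent.GrE Pool.Agent.GrS

private theorem Nd_ne {K : Type*} [Field K] {w t : K} {A B P : K[X]}
    (hP : QuadraticAlgebra.norm (pp w t A B) = algebraMap K[X] (RatFunc K) P)
    (hd : P.natDegree = 1) : pp w t A B ≠ 0 := by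
  intro h
  rw [h, QuadraticAlgebra.norm_zero] at hP
  have h1 : P = 0 := RatFunc.algebraMap_injective K (by rw [← hP, map_zero])
  rw [h1, natDegree_zero] at hd
  exact absurd hd (by norm_num)

private theorem Nd_reg {K : Type*} [Field K] {P : K[X]} (hd : P.natDegree = 1) :
    (algebraMap K[X] (RatFunc K) P * (RatFunc.X : RatFunc K)⁻¹)⁻¹ ∈ regInf K := by
  have hP0 : P ≠ 0 := fun h0 => by
    rw [h0, natDegree_zero] at hd
    exact absurd hd (by norm_num)
  have h1 : algebraMap K[X] (RatFunc K) P ≠ 0 := by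
    rw [Ne, map_eq_zero_iff (algebraMap K[X] (RatFunc K)) (RatFunc.algebraMap_injective K)]
    exact hP0
  have h2 : (RatFunc.X : RatFunc K)⁻¹ ≠ 0 := inv_ne_zero RatFunc.X_ne_zero
  change RatFunc.intDegree _ ≤ 0
  rw [RatFunc.intDegree_inv, RatFunc.intDegree_mul h1 h2, RatFunc.intDegree_inv,
    RatFunc.intDegree_X, RatFunc.intDegree_polynomial, hd]
  norm_num

private theorem Nd_unit {K : Type*} [Field K] {w t : K}
    [Fact (∀ r : RatFunc K, r ^ 2 ≠ Nf w t + Tf w * r)] {A B P : K[X]} (hs : 1 + w ≠ 0)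
    (hP : QuadraticAlgebra.norm (pp w t A B) = algebraMap K[X] (RatFunc K) P)
    (hd : P.natDegree = 1) {g : ℕ} (hU : InB (pp w t A B * (eps w t ^ (2 * g + 1) * xE w t ^ g))) :
    InB ((pp w t A B * (eps w t ^ (2 * g + 1) * xE w t ^ g))⁻¹) := by
  set U := pp w t A B * (eps w t ^ (2 * g + 1) * xE w t ^ g) with hUd
  have hX : (RatFunc.X : RatFunc K) ≠ 0 := RatFunc.X_ne_zero
  have h1 : QuadraticAlgebra.norm U = (algebraMap K[X] (RatFunc K) P * (RatFunc.X : RatFunc K)⁻¹) *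
      (QuadraticAlgebra.norm (eps w t) * RatFunc.X) ^ (2 * g + 1) := by
    have h2 : QuadraticAlgebra.norm (xE w t) = (RatFunc.X : RatFunc K) ^ 2 := by
      unfold xE
      exact QuadraticAlgebra.norm_algebraMap _
    rw [hUd, map_mul, map_mul, map_pow, map_pow, hP, h2, mul_pow, ← pow_mul, pow_succ _ (2 * g),
      pow_succ (RatFunc.X : RatFunc K) (2 * g)]
    field_simp
  have h3 : (QuadraticAlgebra.norm U)⁻¹ ∈ regInf K := by
    rw [h1, mul_inv, ← inv_pow]
    exact mul_mem (Nd_reg hd) (pow_mem (norm_eps hs).2 _)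
  have h4 : U⁻¹ = algebraMap (RatFunc K) (EQ w t) ((QuadraticAlgebra.norm U)⁻¹) * star U := by
    rw [← Algebra.smul_def]
    rfl
  rw [h4]
  exact (InB_of_regInf h3).mul hU.star

private theorem Nd_const {K : Type*} [Field K] {w t : K} (c : K) :
    algebraMap K (EQ w t) c = pp w t (C c) 0 := by
  refine QuadraticAlgebra.ext ?_ ?_
  · change algebraMap K (RatFunc K) c = algebraMap K[X] (RatFunc K) (C c)
    rw [RatFunc.algebraMap_C, RatFunc.algebraMap_eq_C]
  · change (0 : RatFunc K) = algebraMap K[X] (RatFunc K) 0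
    rw [map_zero]

/-- Proof.  Let `v = α / π` be in `A'`, `α = h_g`, `π = h_1`.  `N(v) = N(α)/N(π)` is a polynomial of degree `0`.  `α gB g` and
`π gB 1` are units at infinity (regular, and their norms `P x⁻¹ (N(ε) x)^n` are units of `regInf`), so `v gB (g-1) = v ε^(2g-1) x^(g-1) =
ε (α gB g) (π gB 1)⁻¹` is regular at infinity: `v ∈ L_(g-1)`.  By `uniq_L`, `v = c h`, `h` from `exists_h` for `g - 1`, and
`N(h)` has degree `1` (`norm_deg`), `c ≠ 0`: a contradiction. -/
theorem not_dvd {K : Type*} [Field K] (V : ValuationSubring K) (w t : V)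
    [Fact (∀ r : RatFunc K, r ^ 2 ≠ Nf (w : K) (t : K) + Tf (w : K) * r)]
    (ht : residue V t = 0) (hw0 : residue V w ≠ 0) (hs : 1 + residue V w ≠ 0) (g : ℕ)
    (hg : 3 ≤ g) (hw : ∀ i, 1 ≤ i → i ≤ g + 1 → residue V w ^ i ≠ 1)
    {A1 B1 P1 Ag Bg Pg : K[X]} (hL1 : InL 1 (pp (w : K) (t : K) A1 B1))
    (hLg : InL g (pp (w : K) (t : K) Ag Bg))
    (hP1 : QuadraticAlgebra.norm (pp (w : K) (t : K) A1 B1) = algebraMap K[X] (RatFunc K) P1)
    (hPg : QuadraticAlgebra.norm (pp (w : K) (t : K) Ag Bg) = algebraMap K[X] (RatFunc K) Pg)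
    (hd1 : P1.natDegree = 1) (hdg : Pg.natDegree = 1) :
    ¬ InA (pp (w : K) (t : K) Ag Bg * (pp (w : K) (t : K) A1 B1)⁻¹) := by
  intro hv
  have hsK : 1 + (w : K) ≠ 0 := by
    intro h0
    have h1 : (1 + w : V) = 0 := by
      apply Subtype.ext
      simpa using h0
    apply hs
    rw [← map_one (residue V), ← map_add, h1, map_zero]
  have hα := Nd_ne hPg hdg
  have hπ := Nd_ne hP1 hd1
  have he : eps (w : K) (t : K) ≠ 0 := eps_ne_zero
  have hx : xE (w : K) (t : K) ≠ 0 := xE_ne_zero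
  set α := pp (w : K) (t : K) Ag Bg with hαd
  set π := pp (w : K) (t : K) A1 B1 with hπd
  -- the norm
  obtain ⟨C', D', hCD⟩ := hv
  have hα2 : α = pp (w : K) (t : K) C' D' * π := by
    rw [← hCD, inv_mul_cancel_right₀ hπ]
  set Q : K[X] := C' * C' + TT (w : K) * C' * D' - NN (w : K) (t : K) * D' * D' with hQ
  have hQn : QuadraticAlgebra.norm (pp (w : K) (t : K) C' D') = algebraMap K[X] (RatFunc K) Q :=
    Nor_norm C' D'
  have hPQ : Pg = Q * P1 := by
    apply RatFunc.algebraMap_injective K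
    rw [map_mul, ← hPg, hα2, map_mul QuadraticAlgebra.norm, hQn, hP1]
  have hPg0 : Pg ≠ 0 := by
    intro h
    rw [h, natDegree_zero] at hdg
    exact absurd hdg (by norm_num)
  have hQ0 : Q ≠ 0 := by
    intro h
    rw [h, zero_mul] at hPQ
    exact hPg0 hPQ
  have hP10 : P1 ≠ 0 := by
    intro h
    rw [h, mul_zero] at hPQ
    exact hPg0 hPQ
  have hQd : Q.natDegree = 0 := by
    have h1 := natDegree_mul hQ0 hP10
    rw [← hPQ, hdg, hd1] at h1
    omega
  -- `v` is in `L_(g-1)`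
  have hUg : InB (α * (eps (w : K) (t : K) ^ (2 * g + 1) * xE (w : K) (t : K) ^ g)) := by
    have := hLg.2
    unfold gB at this
    rwa [if_neg (by omega)] at this
  have hU1 : InB (π * (eps (w : K) (t : K) ^ (2 * 1 + 1) * xE (w : K) (t : K) ^ 1)) := by
    have := hL1.2
    unfold gB at this
    rwa [if_neg (by norm_num)] at this
  have hU1' := Nd_unit hsK hP1 hd1 hU1
  have hL : InL (g - 1) (pp (w : K) (t : K) C' D') := by
    refine ⟨⟨C', D', rfl⟩, ?_⟩
    unfold gB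
    rw [if_neg (by omega), ← hCD]
    obtain ⟨m, rfl⟩ : ∃ m, g = m + 1 := ⟨g - 1, by omega⟩
    have h1 : α * π⁻¹ * (eps (w : K) (t : K) ^ (2 * (m + 1 - 1) + 1) *
        xE (w : K) (t : K) ^ (m + 1 - 1)) = eps (w : K) (t : K) *
          ((α * (eps (w : K) (t : K) ^ (2 * (m + 1) + 1) * xE (w : K) (t : K) ^ (m + 1))) *
          (π * (eps (w : K) (t : K) ^ (2 * 1 + 1) * xE (w : K) (t : K) ^ 1))⁻¹) := by
      rw [Nat.add_sub_cancel]
      field_simp
      ring
    rw [h1]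
    exact InB_eps.mul (hUg.mul hU1')
  obtain ⟨A, B, hAB, hR⟩ := exists_h V w t ht hw0 hs (g - 1) (fun i hi1 hi2 => hw i hi1 (by omega))
  obtain ⟨P, hPd, hPn⟩ := norm_deg V w t ht hw0 hs (g - 1) (hw _ (by omega) (by omega))
    (hw _ (by omega) (by omega)) A B hAB hR
  obtain ⟨c, hc⟩ := uniq_L hsK hL hAB (Nd_ne hPn hPd)
  have hQ2 : Q = C (c ^ 2) * P := by
    apply RatFunc.algebraMap_injective K
    rw [map_mul, ← hQn, hc, map_mul QuadraticAlgebra.norm, hPn, Nd_const, Nor_norm]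
    congr 2
    rw [C_pow]
    ring
  by_cases hc0 : c = 0
  · rw [hc0, zero_pow two_ne_zero, C_0, zero_mul] at hQ2
    exact hQ0 hQ2
  · rw [hQ2, natDegree_C_mul (pow_ne_zero 2 hc0), hPd] at hQd
    exact absurd hQd (by norm_num)

/-- The zero `(e, n)` of `h_1 = A1 + B1 ν`; `γ = h_g(e, n) ≠ 0` and `h_g - γ = h_1 (A' + B' ν)`. -/
structure Pt {K : Type*} [Field K] (w t : K) (A1 B1 Ag Bg : K[X]) where
  e : K
  n : K
  A' : K[X]
  B' : K[X]
  he : n ^ 2 = (TT w).eval e * n + (NN w t).eval e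
  h1 : A1.eval e + B1.eval e * n = 0
  hγ : Ag.eval e + Bg.eval e * n ≠ 0
  hκ : pp w t Ag Bg - algebraMap K (EQ w t) (Ag.eval e + Bg.eval e * n) =
    pp w t A1 B1 * pp w t A' B'

private lemma Nd_place {K : Type*} [Field K] {w t : K} {A B P : K[X]}
    (hP : A * A + TT w * A * B - NN w t * B * B = P)
    (hd : P.natDegree = 1) : ∃ e n k : K, k ≠ 0 ∧ P = C k * (X - C e) ∧ B.eval e ≠ 0 ∧
      n ^ 2 = (TT w).eval e * n + (NN w t).eval e ∧ A.eval e = - n * B.eval e := by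
  obtain ⟨k, hk, b, hb⟩ : ∃ k : K, k ≠ 0 ∧ ∃ b : K, P = C k * X + C b := by
    obtain ⟨a, ha, b, hb⟩ := natDegree_eq_one.mp hd
    exact ⟨a, ha, b, hb.symm⟩
  set e : K := -(b / k) with he
  have hPe : P = C k * (X - C e) := by
    rw [hb, he, mul_sub, ← C_mul, C_inj.mpr (show k * -(b / k) = -b by field_simp), C_neg]
    ring
  have hP0 : P.eval e = 0 := by
    rw [hPe, eval_mul, eval_sub, eval_X, eval_C, eval_C, sub_self, mul_zero]
  have h1 : A.eval e * A.eval e + (TT w).eval e * A.eval e * B.eval e -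
      (NN w t).eval e * B.eval e * B.eval e = 0 := by
    rw [← hP0, ← hP]
    simp
  have hB : B.eval e ≠ 0 := by
    intro hB
    have hA : A.eval e = 0 := by
      rw [hB] at h1
      have : A.eval e * A.eval e = 0 := by linear_combination h1
      exact mul_self_eq_zero.mp this
    obtain ⟨A', rfl⟩ := dvd_iff_isRoot.mpr hA
    obtain ⟨B', rfl⟩ := dvd_iff_isRoot.mpr hB
    have h2 : (X - C e) * (X - C e) ∣ (X - C e) * C k := by
      refine ⟨A' * A' + TT w * A' * B' - NN w t * B' * B', ?_⟩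
      rw [mul_comm _ (C k), ← hPe, ← hP]
      ring
    have h3 : (X - C e) ∣ C k := (mul_dvd_mul_iff_left (X_sub_C_ne_zero e)).mp h2
    have h4 := dvd_iff_isRoot.mp h3
    rw [IsRoot.def, eval_C] at h4
    exact hk h4
  refine ⟨e, -(A.eval e / B.eval e), k, hk, hPe, hB, ?_, ?_⟩
  · field_simp
    linear_combination h1
  · field_simp

/-- Proof: as in `dvd_of_pow` (GrE/Prm): `e` the root of `P1`, `n = -A1(e)/B1(e)`; `v` in `A'` is divisible by `h_1` iff its value at
`(e, n)` is `0`. -/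
theorem exists_pt {K : Type*} [Field K] {w t : K}
    [Fact (∀ r : RatFunc K, r ^ 2 ≠ Nf w t + Tf w * r)] {A1 B1 P1 Ag Bg : K[X]}
    (hP1 : QuadraticAlgebra.norm (pp w t A1 B1) = algebraMap K[X] (RatFunc K) P1)
    (hd1 : P1.natDegree = 1) (hnd : ¬ InA (pp w t Ag Bg * (pp w t A1 B1)⁻¹)) :
    Nonempty (Pt w t A1 B1 Ag Bg) := by
  have hπ := Nd_ne hP1 hd1
  have hP' : A1 * A1 + TT w * A1 * B1 - NN w t * B1 * B1 = P1 := by
    rw [Nor_norm] at hP1
    exact RatFunc.algebraMap_injective K hP1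
  have hP0 : P1 ≠ 0 := by
    intro h0
    rw [h0, natDegree_zero] at hd1
    exact absurd hd1 (by norm_num)
  obtain ⟨e, n, k, hk, hPe, hB, hn, hA⟩ := Nd_place hP' hd1
  -- divisibility
  have hdvd : ∀ C' D' : K[X], C'.eval e + D'.eval e * n = 0 →
      ∃ Q S : K[X], pp w t C' D' = pp w t A1 B1 * pp w t Q S := by
    intro C' D' h7
    have h8 : P1 ∣ C' * (A1 + TT w * B1) - NN w t * D' * B1 := by
      rw [hPe]
      refine (isUnit_C.mpr (isUnit_iff_ne_zero.mpr hk)).mul_left_dvd.mpr ?_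
      rw [dvd_iff_isRoot, IsRoot.def]
      simp only [eval_sub, eval_mul, eval_add, hA]
      linear_combination (B1.eval e * (-n + (TT w).eval e)) * h7 + (B1.eval e * D'.eval e) * hn
    have h9 : P1 ∣ D' * A1 - C' * B1 := by
      rw [hPe]
      refine (isUnit_C.mpr (isUnit_iff_ne_zero.mpr hk)).mul_left_dvd.mpr ?_
      rw [dvd_iff_isRoot, IsRoot.def]
      simp only [eval_sub, eval_mul, hA]
      linear_combination (-B1.eval e) * h7
    obtain ⟨Q, hQ⟩ := h8
    obtain ⟨S, hS⟩ := h9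
    refine ⟨Q, S, ?_⟩
    rw [Nor_pp_mul]
    congr 1
    · apply mul_left_cancel₀ hP0
      linear_combination (-C') * hP' + A1 * hQ + NN w t * B1 * hS
    · apply mul_left_cancel₀ hP0
      linear_combination (-D') * hP' + B1 * hQ + (A1 + TT w * B1) * hS
  set γ : K := Ag.eval e + Bg.eval e * n with hγd
  obtain ⟨Q, S, hQS⟩ := hdvd (Ag - C γ) Bg (by
    rw [eval_sub, eval_C, hγd]
    ring)
  refine ⟨⟨e, n, Q, S, hn, ?_, ?_, ?_⟩⟩
  · rw [hA]
    ring
  · intro h0
    obtain ⟨Q', S', hQS'⟩ := hdvd Ag Bg h0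
    apply hnd
    refine ⟨Q', S', ?_⟩
    rw [hQS', mul_comm, inv_mul_cancel_left₀ hπ]
  · rw [← hQS, ← hγd, Nd_const]
    refine QuadraticAlgebra.ext ?_ ?_
    · change algebraMap K[X] (RatFunc K) Ag - algebraMap K[X] (RatFunc K) (C γ) =
        algebraMap K[X] (RatFunc K) (Ag - C γ)
      rw [map_sub]
    · change algebraMap K[X] (RatFunc K) Bg - algebraMap K[X] (RatFunc K) 0 =
        algebraMap K[X] (RatFunc K) Bg
      rw [map_zero, sub_zero]

end Pool.Agent.GrT
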