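import Mathlib
import Pool.Agent.GrT.Tri
import Pool.Agent.GrT.FintA
import Pool.Agent.GrT.FinQ
import Pool.Agent.GrT.Nd
import Pool.Agent.GrE.Nor
import Pool.Agent.GrE.Prm

/-!
The integral closure of `K[x]` in `E = M(y)`, `y^g + c h_1 y^(g-1) = h_g`, is `A'[y]`.
-/

set_option autoImplicit false

namespace Pool.Agent.GrT

open Polynomial Pool.Agent.GrE

section

variable {K : Type*} [Field K] {w t : K} [Fact (∀ r : RatFunc K, r ^ 2 ≠ Nf w t + Tf w * r)]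
  {E : Type*} [Field E] [Algebra (EQ w t) E] [Algebra K E] [Algebra K[X] E] [Algebra (RatFunc K) E]
  [IsScalarTower K (EQ w t) E] [IsScalarTower K[X] (EQ w t) E]
  [IsScalarTower (RatFunc K) (EQ w t) E]
  {A1 B1 P1 Ag Bg Pg : K[X]} {g : ℕ} {c : K}

/-- Proof (`→`).  `e = pw k a` integral.  (1) `Tr (e y^i)` is in `A'` (integral and in `M`), so by `trace_coeff` (for
`pw k v = e c π y^(g-2)`) `c π y^(g-2) e ∈ S`.
(2) If `e'` is integral and `y e' ∈ S`, then `e' ∈ S`: `v = y e'`, from `e'^m + b_1 e'^(m-1) + ... = 0`, `b_i ∈ K[x]`: `v^m ∈ y S`; `v' ∈ y S` iff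
`α ∣ v'_0`, and `(v^m)_0 ≡ v_0^m` modulo `α`, so `α ∣ v_0` (`dvd_of_pow`).  So `π e ∈ S`.
(3) `v = π e ∈ S`; `V(Y) = ∑ v_i(P) Y^i ∈ K[Y]`, `P = (q.e, q.n)` the zero of `π`.  If `V = 0`, all `v_i` are divisible by `π` and `e ∈ S`.  Otherwise
let `d = gcd(V, Y^g - γ) = p V + r (Y^g - γ)`, `y₀` a root of `(Y^g - γ)/d`, `Q = (Y^g - γ)/(Y - y₀)`, a multiple of `d`: `Q = p' V + r' (Y^g - γ)`.  As
`y^g - γ = π (κ' - c y^(g-1))` (`κ' = q.A' + q.B' ν`) is in `π S`, `p'(y) v - Q(y) ∈ π S`: so there is an integral `e'` with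
`π e' = Q(y)` and `(y - y₀) e' = (y^g - γ)/π = κ' - c y^(g-1)`.  Multiply an integral equation of `e'` by `(y - y₀)^m` and apply the homomorphism
`S → K`, `ν ↦ q.n`, `x ↦ q.e`, `y ↦ y₀` (`y₀^g + c π(P) y₀^(g-1) = γ`): `(κ'(P) - c y₀^(g-1))^m = 0`, against `hc`. -/
theorem fin_iff [IsAlgClosed K] (hG : Good w t) (hg : 3 ≤ g) (hg0 : (g : K) = 0) (hc0 : c ≠ 0)
    (hP1 : QuadraticAlgebra.norm (pp w t A1 B1) = algebraMap K[X] (RatFunc K) P1)
    (hPg : QuadraticAlgebra.norm (pp w t Ag Bg) = algebraMap K[X] (RatFunc K) Pg)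
    (hd1 : P1.natDegree = 1) (hdg : Pg.natDegree = 1) (q : Pt w t A1 B1 Ag Bg)
    (hc : ∀ y : K, y ^ g = Ag.eval q.e + Bg.eval q.e * q.n →
      q.A'.eval q.e + q.B'.eval q.e * q.n ≠ c * y ^ (g - 1))
    (k : Tri (EQ w t) E g (algebraMap K (EQ w t) c * pp w t A1 B1) (pp w t Ag Bg))
    (a : Fin g → EQ w t) : IsIntegral K[X] (pw k a) ↔ ∀ i, InA (a i) := by
  have hTh : ∀ V : (AQ w t)[X], Th w t k.t V = Fint_Phi k V := fun V => rfl
  have hy : k.t ^ g + algebraMap (EQ w t) E (iA w t (kA w t c * ⟨A1, B1⟩)) * k.t ^ (g - 1) =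
      algebraMap (EQ w t) E (iA w t ⟨Ag, Bg⟩) := by
    rw [map_mul (iA w t), iA_kA]
    exact k.ht
  have ht0 := k.t_ne hg
  constructor
  · intro he
    -- (1) the coefficients of `c π y^(g-2) e`
    set z : E := algebraMap (EQ w t) E (algebraMap K (EQ w t) c * pp w t A1 B1) with hz
    have hz0 : z ≠ 0 := (map_ne_zero (algebraMap (EQ w t) E)).mpr k.hc
    obtain ⟨v, hv⟩ : ∃ v : Fin g → EQ w t, pw k v = k.t ^ (g - 2) * (z * pw k a) := by
      refine ⟨fun i => k.b.repr (k.t ^ (g - 2) * (z * pw k a)) i, ?_⟩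
      rw [Fint_pw k]
      exact k.b.sum_repr _
    have ht : IsIntegral K[X] k.t := by
      have h1 := Th_integral (y := k.t) (by omega) hy X
      rwa [Th_X] at h1
    have hfin : FiniteDimensional (EQ w t) E := Module.Finite.of_basis k.b
    have h1 : ∀ i, InA (v i) := by
      rw [← trace_coeff k hg hg0 v]
      intro i _
      have h2 : pw k v * k.t ^ i * (z * k.t ^ (g - 2))⁻¹ = pw k a * k.t ^ i := by
        rw [hv, mul_inv_eq_iff_eq_mul₀ (mul_ne_zero hz0 (pow_ne_zero _ ht0))]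
        ring
      rw [h2]
      exact (isIntegral_iff hG _).mp (Algebra.isIntegral_trace (he.mul (ht.pow i)))
    obtain ⟨V, hV⟩ := (Fint_mem k hg v).mpr h1
    -- (2) removal of `y^(g-2)`
    have hzi : IsIntegral K[X] z := by
      rw [hz, Fint_const]
      exact (Nor_isIntegral ⟨_, _, rfl⟩).algebraMap
    obtain ⟨V1, hV1⟩ := step_pow hPg hdg (by omega) ht0 k.b k.hb hy (e' := z * pw k a)
      (hzi.mul he) (g - 2) ⟨V, by rw [hTh, hV, hv]⟩
    have hκ : (⟨Ag, Bg⟩ : AQ w t) - kA w t (evP q.he (⟨Ag, Bg⟩ : AQ w t)) =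
        (⟨A1, B1⟩ : AQ w t) * (⟨q.A', q.B'⟩ : AQ w t) := by
      apply iA_injective (w := w) (t := t)
      rw [map_sub, map_mul, iA_kA]
      exact q.hκ
    -- (3) removal of `π`
    obtain ⟨V2, hV2⟩ := step_pi hP1 hd1 (by omega) k.b k.hb hy q.he q.h1 hκ hc he
      ⟨C (kA w t c⁻¹) * V1, by
        rw [map_mul, Th_C, iA_kA, hV1, hz, map_mul (algebraMap (EQ w t) E), ← mul_assoc,
          ← mul_assoc, ← map_mul (algebraMap (EQ w t) E), ← map_mul (algebraMap K (EQ w t)),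
          inv_mul_cancel₀ hc0, map_one, map_one, one_mul]
        rfl⟩
    exact (Fint_mem k hg a).mp ⟨V2, by rw [← hTh, hV2]⟩
  · intro h
    obtain ⟨V, hV⟩ := (Fint_mem k hg a).mpr h
    rw [← hV, ← hTh]
    exact Th_integral (by omega) hy V

end

end Pool.Agent.GrT
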