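import Mathlib
import Pool.Agent.GrE.Root
import Pool.Agent.GrE.Uni
import Pool.Agent.GrE.InLP

/-!
`Y^g + c h_1 Y^(g-1) - h_g` is irreducible.
-/

set_option autoImplicit false

namespace Pool.Agent.GrT

open Polynomial Pool.Agent.GrE Pool.Agent.GrS

section

variable {K : Type*} [Field K] {w t : K}

/-- The inclusion of `A'`. -/
private noncomputable def Irt_hom (w t : K) : AQ w t →+* EQ w t :=
  InLP_hom (algebraMap K[X] (RatFunc K)) (NN w t) (TT w) (Nf w t) (Tf w) rfl rfl

private lemma Irt_hom_apply (A B : K[X]) : Irt_hom w t ⟨A, B⟩ = pp w t A B := rfl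

private lemma Irt_hom_inj : Function.Injective (Irt_hom w t) := by
  intro u v h
  have h1 := congrArg QuadraticAlgebra.re h
  have h2 := congrArg QuadraticAlgebra.im h
  exact QuadraticAlgebra.ext (RatFunc.algebraMap_injective K h1)
    (RatFunc.algebraMap_injective K h2)

private lemma Irt_InA {u : EQ w t} : InA u ↔ u ∈ (Irt_hom w t).range := by
  constructor
  · rintro ⟨A, B, rfl⟩
    exact ⟨⟨A, B⟩, rfl⟩
  · rintro ⟨⟨A, B⟩, rfl⟩
    exact ⟨A, B, rfl⟩

private lemma Irt_const (c : K) : Irt_hom w t (algebraMap K (AQ w t) c) = algebraMap K (EQ w t) c := by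
  refine QuadraticAlgebra.ext ?_ ?_
  · change algebraMap K[X] (RatFunc K) (C c) = algebraMap K (RatFunc K) c
    rw [RatFunc.algebraMap_C, RatFunc.algebraMap_eq_C]
  · change algebraMap K[X] (RatFunc K) 0 = 0
    rw [map_zero]

/-- The value at a point of the curve. -/
private noncomputable def Irt_ev (w t e n : K) (hn : n ^ 2 = (TT w).eval e * n + (NN w t).eval e) :
    AQ w t →+* K where
  toFun u := u.re.eval e + u.im.eval e * n
  map_one' := by
    change (1 : K[X]).eval e + (0 : K[X]).eval e * n = 1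
    simp
  map_zero' := by
    change (0 : K[X]).eval e + (0 : K[X]).eval e * n = 0
    simp
  map_mul' := by
    intro u v
    simp only [QuadraticAlgebra.re_mul, QuadraticAlgebra.im_mul, eval_add, eval_mul]
    linear_combination (-(u.im.eval e * v.im.eval e)) * hn
  map_add' := by
    intro u v
    simp only [QuadraticAlgebra.re_add, QuadraticAlgebra.im_add, eval_add]
    ring

private lemma Irt_ev_apply {e n : K} (hn : n ^ 2 = (TT w).eval e * n + (NN w t).eval e)
    (u : AQ w t) : Irt_ev w t e n hn u = u.re.eval e + u.im.eval e * n := rfl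

private lemma Irt_ev_const {e n : K} (hn : n ^ 2 = (TT w).eval e * n + (NN w t).eval e) (c : K) :
    Irt_ev w t e n hn (algebraMap K (AQ w t) c) = c := by
  rw [Irt_ev_apply]
  change (C c : K[X]).eval e + (0 : K[X]).eval e * n = c
  simp

/-- The place of the zero of `α`. -/
private lemma Irt_place {A B P : K[X]} (hP : A * A + TT w * A * B - NN w t * B * B = P)
    (hd : P.natDegree = 1) : ∃ e n k : K, k ≠ 0 ∧ P = C k * (X - C e) ∧ B.eval e ≠ 0 ∧
      n ^ 2 = (TT w).eval e * n + (NN w t).eval e ∧ A.eval e = - n * B.eval e := by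
  obtain ⟨k, hk, b, hb⟩ : ∃ k : K, k ≠ 0 ∧ ∃ b : K, P = C k * X + C b := by
    obtain ⟨a, ha, b, hb⟩ := natDegree_eq_one.mp hd
    exact ⟨a, ha, b, hb.symm⟩
  set e : K := -(b / k) with he
  have hPe : P = C k * (X - C e) := by
    rw [hb, he, mul_sub, ← C_mul, C_inj.mpr (show k * -(b / k) = -b by field_simp), C_neg]
    ring
  have hP0 : P.eval e = 0 := by
    rw [hPe, eval_mul, eval_sub, eval_X, eval_C, eval_C, sub_self, mul_zero]
  have h1 : A.eval e * A.eval e + (TT w).eval e * A.eval e * B.eval e -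
      (NN w t).eval e * B.eval e * B.eval e = 0 := by
    rw [← hP0, ← hP]
    simp
  have hB : B.eval e ≠ 0 := by
    intro hB
    have hA : A.eval e = 0 := by
      rw [hB] at h1
      have : A.eval e * A.eval e = 0 := by linear_combination h1
      exact mul_self_eq_zero.mp this
    obtain ⟨A', rfl⟩ := dvd_iff_isRoot.mpr hA
    obtain ⟨B', rfl⟩ := dvd_iff_isRoot.mpr hB
    have h2 : (X - C e) * (X - C e) ∣ (X - C e) * C k := by
      refine ⟨A' * A' + TT w * A' * B' - NN w t * B' * B', ?_⟩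
      rw [mul_comm _ (C k), ← hPe, ← hP]
      ring
    have h3 : (X - C e) ∣ C k := (mul_dvd_mul_iff_left (X_sub_C_ne_zero e)).mp h2
    have h4 := dvd_iff_isRoot.mp h3
    rw [IsRoot.def, eval_C] at h4
    exact hk h4
  refine ⟨e, -(A.eval e / B.eval e), k, hk, hPe, hB, ?_, ?_⟩
  · field_simp
    linear_combination h1
  · field_simp

end

variable {K : Type*} [Field K] {w t : K} [Fact (∀ r : RatFunc K, r ^ 2 ≠ Nf w t + Tf w * r)]
  {A1 B1 P1 Ag Bg Pg : K[X]}

omit [Fact (∀ r : RatFunc K, r ^ 2 ≠ Nf w t + Tf w * r)] in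
private lemma Irt_P {A B P : K[X]}
    (hP : QuadraticAlgebra.norm (pp w t A B) = algebraMap K[X] (RatFunc K) P) :
    A * A + TT w * A * B - NN w t * B * B = P := by
  rw [Nor_norm] at hP
  exact RatFunc.algebraMap_injective K hP

omit [Fact (∀ r : RatFunc K, r ^ 2 ≠ Nf w t + Tf w * r)] in
private lemma Irt_ne {A B P : K[X]}
    (hP : QuadraticAlgebra.norm (pp w t A B) = algebraMap K[X] (RatFunc K) P)
    (hd : P.natDegree = 1) : pp w t A B ≠ 0 := by
  intro h
  rw [h, QuadraticAlgebra.norm_zero] at hP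
  have h1 : P = 0 := RatFunc.algebraMap_injective K (by rw [← hP, map_zero])
  rw [h1, natDegree_zero] at hd
  exact absurd hd (by norm_num)

/-- `α` divides what vanishes at its zero. -/
private lemma Irt_dvd {A B P : K[X]}
    (hP : QuadraticAlgebra.norm (pp w t A B) = algebraMap K[X] (RatFunc K) P)
    (hd : P.natDegree = 1) {e m k : K} (hk : k ≠ 0) (hPe : P = C k * (X - C e))
    (hm : m ^ 2 = (TT w).eval e * m + (NN w t).eval e) (hA : A.eval e = - m * B.eval e)
    {v : AQ w t} (hv : Irt_ev w t e m hm v = 0) : InA (Irt_hom w t v * (pp w t A B)⁻¹) := by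
  have hα := Irt_ne hP hd
  obtain ⟨C0, D0⟩ := v
  rw [Irt_ev_apply] at hv
  change C0.eval e + D0.eval e * m = 0 at hv
  have h8 : P ∣ C0 * (A + TT w * B) - NN w t * D0 * B := by
    rw [hPe]
    refine (isUnit_C.mpr (isUnit_iff_ne_zero.mpr hk)).mul_left_dvd.mpr ?_
    rw [dvd_iff_isRoot, IsRoot.def]
    simp only [eval_sub, eval_mul, eval_add, hA]
    linear_combination (B.eval e * (-m + (TT w).eval e)) * hv + (B.eval e * D0.eval e) * hm
  have h9 : P ∣ D0 * A - C0 * B := by
    rw [hPe]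
    refine (isUnit_C.mpr (isUnit_iff_ne_zero.mpr hk)).mul_left_dvd.mpr ?_
    rw [dvd_iff_isRoot, IsRoot.def]
    simp only [eval_sub, eval_mul, hA]
    linear_combination (-B.eval e) * hv
  obtain ⟨Q, hQ⟩ := h8
  obtain ⟨S, hS⟩ := h9
  refine ⟨Q, S, ?_⟩
  rw [Irt_hom_apply, ← div_eq_mul_inv, div_eq_iff hα, Nor_pp_mul]
  have hP' := Irt_P hP
  have hP0 : P ≠ 0 := by
    intro h0
    rw [h0, natDegree_zero] at hd
    exact absurd hd (by norm_num)
  congr 1
  · apply mul_left_cancel₀ hP0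
    linear_combination (-C0) * hP' + A * hQ + NN w t * B * hS
  · apply mul_left_cancel₀ hP0
    linear_combination (-D0) * hP' + B * hQ + (A + TT w * B) * hS

private theorem Irt_reg (hd : P1.natDegree = 1) :
    (algebraMap K[X] (RatFunc K) P1 * (RatFunc.X : RatFunc K)⁻¹)⁻¹ ∈ regInf K := by
  have hP0 : P1 ≠ 0 := fun h0 => by
    rw [h0, natDegree_zero] at hd
    exact absurd hd (by norm_num)
  have h1 : algebraMap K[X] (RatFunc K) P1 ≠ 0 := by
    rw [Ne, map_eq_zero_iff (algebraMap K[X] (RatFunc K)) (RatFunc.algebraMap_injective K)]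
    exact hP0
  have h2 : (RatFunc.X : RatFunc K)⁻¹ ≠ 0 := inv_ne_zero RatFunc.X_ne_zero
  change RatFunc.intDegree _ ≤ 0
  rw [RatFunc.intDegree_inv, RatFunc.intDegree_mul h1 h2, RatFunc.intDegree_inv,
    RatFunc.intDegree_X, RatFunc.intDegree_polynomial, hd]
  norm_num

/-- `h gB j` is a unit at infinity. -/
theorem unit_inf (hs : 1 + w ≠ 0) {j : ℕ} (hj : 1 ≤ j) (hL : InL j (pp w t A1 B1))
    (hP : QuadraticAlgebra.norm (pp w t A1 B1) = algebraMap K[X] (RatFunc K) P1)
    (hd : P1.natDegree = 1) : InB (pp w t A1 B1 * gB w t j) ∧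
      InB ((pp w t A1 B1 * gB w t j)⁻¹) := by
  refine ⟨hL.2, ?_⟩
  have hU := hL.2
  have hg : gB w t j = eps w t ^ (2 * j + 1) * xE w t ^ j := by
    unfold gB
    rw [if_neg (by omega)]
  rw [hg] at hU ⊢
  set U := pp w t A1 B1 * (eps w t ^ (2 * j + 1) * xE w t ^ j) with hUd
  have hX : (RatFunc.X : RatFunc K) ≠ 0 := RatFunc.X_ne_zero
  have h1 : QuadraticAlgebra.norm U = (algebraMap K[X] (RatFunc K) P1 * (RatFunc.X : RatFunc K)⁻¹) *
      (QuadraticAlgebra.norm (eps w t) * RatFunc.X) ^ (2 * j + 1) := by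
    have h2 : QuadraticAlgebra.norm (xE w t) = (RatFunc.X : RatFunc K) ^ 2 := by
      unfold xE
      exact QuadraticAlgebra.norm_algebraMap _
    rw [hUd, map_mul, map_mul, map_pow, map_pow, hP, h2, mul_pow, ← pow_mul, pow_succ _ (2 * j),
      pow_succ (RatFunc.X : RatFunc K) (2 * j)]
    field_simp
  have h3 : (QuadraticAlgebra.norm U)⁻¹ ∈ regInf K := by
    rw [h1, mul_inv, ← inv_pow]
    exact mul_mem (Irt_reg hd) (pow_mem (norm_eps hs).2 _)
  have h4 : U⁻¹ = algebraMap (RatFunc K) (EQ w t) ((QuadraticAlgebra.norm U)⁻¹) * star U := by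
    rw [← Algebra.smul_def]
    rfl
  rw [h4]
  exact (InB_of_regInf h3).mul hU.star

/-- No root. -/
private theorem Irt_root [IsAlgClosed K] (hG : Good w t) {g : ℕ} (hg : 3 ≤ g) {c : K}
    (hL1 : InL 1 (pp w t A1 B1)) (hLg : InL g (pp w t Ag Bg))
    (hP1 : QuadraticAlgebra.norm (pp w t A1 B1) = algebraMap K[X] (RatFunc K) P1)
    (hPg : QuadraticAlgebra.norm (pp w t Ag Bg) = algebraMap K[X] (RatFunc K) Pg)
    (hd1 : P1.natDegree = 1) (hdg : Pg.natDegree = 1)
    (hnd : ¬ InA (pp w t Ag Bg * (pp w t A1 B1)⁻¹)) {r : EQ w t} (hrA : InA r)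
    (hr : r ^ g + algebraMap K (EQ w t) c * pp w t A1 B1 * r ^ (g - 1) = pp w t Ag Bg) : False := by
  have hs := hG.s_ne
  obtain ⟨n, rfl⟩ : ∃ n, g = n + 1 := ⟨g - 1, by omega⟩
  rw [Nat.add_sub_cancel] at hr
  obtain ⟨u1, -⟩ := unit_inf hs le_rfl hL1 hP1 hd1
  obtain ⟨ug, ug'⟩ := unit_inf hs (show 1 ≤ n + 1 by omega) hLg hPg hdg
  have hπ := Irt_ne hP1 hd1
  have hα := Irt_ne hPg hdg
  have he : eps w t ≠ 0 := eps_ne_zero
  have hx : xE w t ≠ 0 := xE_ne_zero
  have hr0 : r ≠ 0 := by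
    rintro rfl
    rw [zero_pow (by omega), zero_pow (by omega), mul_zero, add_zero] at hr
    exact hα hr.symm
  set π := pp w t A1 B1 with hπd
  set α := pp w t Ag Bg with hαd
  have hg1 : gB w t 1 = eps w t ^ 3 * xE w t := by
    unfold gB
    rw [if_neg one_ne_zero, pow_one]
  have hgg : gB w t (n + 1) = eps w t ^ (2 * (n + 1) + 1) * xE w t ^ (n + 1) := by
    unfold gB
    rw [if_neg (Nat.succ_ne_zero n)]
  rw [hg1] at u1
  rw [hgg] at ug ug'
  set e := eps w t with hee
  set x := xE w t with hxx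
  set cc := algebraMap K (EQ w t) c with hcc
  set η1 := π * (e ^ 3 * x) with hη1
  set ηg := α * (e ^ (2 * (n + 1) + 1) * x ^ (n + 1)) with hηg
  have hηg0 : ηg ≠ 0 := mul_ne_zero hα (mul_ne_zero (pow_ne_zero _ he) (pow_ne_zero _ hx))
  -- the function `U`
  set U := (r * (e ^ 2 * x))⁻¹ with hU
  have hU0 : U ≠ 0 := inv_ne_zero (mul_ne_zero hr0 (mul_ne_zero (pow_ne_zero _ he) hx))
  have hrU : r * (e ^ 2 * x) * U = 1 :=
    mul_inv_cancel₀ (mul_ne_zero hr0 (mul_ne_zero (pow_ne_zero _ he) hx))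
  have key : ηg * U ^ (n + 1) = cc * η1 * U + e := by
    have h1 : ηg = (r ^ (n + 1) + cc * π * r ^ n) * (e ^ (2 * (n + 1) + 1) * x ^ (n + 1)) := by
      rw [hηg, ← hr]
    rw [h1]
    have h2 : (r ^ (n + 1) + cc * π * r ^ n) * (e ^ (2 * (n + 1) + 1) * x ^ (n + 1)) * U ^ (n + 1) =
        e * (r * (e ^ 2 * x) * U) ^ (n + 1) +
          cc * (π * (e ^ 3 * x)) * U * (r * (e ^ 2 * x) * U) ^ n := by
      ring
    rw [h2, hrU, one_pow, one_pow, mul_one, mul_one]
    ring
  have hUB : InB U := by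
    rw [← isIntegral_inf_iff]
    refine isIntegral_trans (R := regInf K) (A := integralClosure (regInf K) (EQ w t)) U ?_
    have m1 : (ηg⁻¹ * (cc * η1)) ∈ integralClosure (regInf K) (EQ w t) :=
      (isIntegral_inf_iff _).2 (ug'.mul ((InB_const c).mul u1))
    have m2 : (ηg⁻¹ * e) ∈ integralClosure (regInf K) (EQ w t) :=
      (isIntegral_inf_iff _).2 (ug'.mul InB_eps)
    refine ⟨X ^ (n + 1) + (- C (⟨_, m1⟩ : integralClosure (regInf K) (EQ w t)) * X -
      C (⟨_, m2⟩ : integralClosure (regInf K) (EQ w t))), ?_, ?_⟩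
    · refine monic_X_pow_add (lt_of_le_of_lt (degree_sub_le _ _) (max_lt ?_ ?_))
      · refine lt_of_le_of_lt (degree_mul_le _ _) ?_
        rw [degree_neg, degree_X]
        refine lt_of_le_of_lt (add_le_add_left degree_C_le 1) ?_
        rw [zero_add]
        exact_mod_cast (show 1 < n + 1 by omega)
      · exact lt_of_le_of_lt degree_C_le (by exact_mod_cast (show 0 < n + 1 by omega))
    · rw [eval₂_add, eval₂_sub, eval₂_mul, eval₂_neg, eval₂_C, eval₂_C, eval₂_X_pow, eval₂_X]
      change U ^ (n + 1) + (-(ηg⁻¹ * (cc * η1)) * U - ηg⁻¹ * e) = 0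
      have h3 : U ^ (n + 1) = ηg⁻¹ * (cc * η1 * U + e) := by
        rw [← key, inv_mul_cancel_left₀ hηg0]
      rw [h3]
      ring
  have hrL : InL 1 r := by
    refine ⟨hrA, ?_⟩
    rw [hg1]
    have h4 : r * (e ^ 3 * x) = ηg * U ^ n - cc * η1 := by
      apply mul_right_cancel₀ hU0
      have h5 : r * (e ^ 3 * x) * U = e * (r * (e ^ 2 * x) * U) := by ring
      rw [h5, hrU, mul_one, sub_mul, mul_assoc ηg, ← pow_succ, key]
      ring
    change InB (r * (e ^ 3 * x))
    rw [h4]
    exact (ug.mul (hUB.pow n)).sub ((InB_const c).mul u1)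
  obtain ⟨d, hd⟩ := uniq_L hs hrL hL1 hπ
  refine hnd ?_
  have h6 : α * π⁻¹ = (algebraMap K (EQ w t) (d ^ (n + 1) + c * d ^ n)) * π ^ n := by
    rw [← hr, hd, map_add, map_mul, map_pow, map_pow, mul_pow, mul_pow]
    have : π ^ (n + 1) * π⁻¹ = π ^ n := by rw [pow_succ, mul_inv_cancel_right₀ hπ]
    calc _ = algebraMap K (EQ w t) d ^ (n + 1) * (π ^ (n + 1) * π⁻¹) +
        cc * algebraMap K (EQ w t) d ^ n * (π ^ n * (π * π⁻¹)) := by ring
      _ = _ := by
        rw [this, mul_inv_cancel₀ hπ]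
        ring
  rw [h6]
  refine Nor_mul ?_ (Nor_pow ⟨A1, B1, rfl⟩ n)
  rw [Irt_InA]
  exact ⟨_, Irt_const _⟩

/-- Let `π = A1 + B1 ν` (in `L_1`) and `α = Ag + Bg ν` (in `L_g`).
Proof, no root: a root `r ≠ 0` is integral, so in `A'`; `U = κ/r`, `κ = 1/(ε² x)`, satisfies
`η_g U^g = c η_1 U + ε`, `η_1 = π gB 1`, `η_g = α gB g` units at infinity (`unit_inf`), so `U` is regular at infinity
(integral), and `r gB 1 = ε/U = η_g U^(g-1) - c η_1` is regular: `r ∈ L_1`, `r = c' π` (`uniq_L`), so `α = (c'^g + c c'^(g-1)) π^g`,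
`α/π` in `A'`: a contradiction to `hnd`.
Two monic factors `f₁ f₂`: their coefficients are integral over `K[x]` (in `A'`), `f₁(0) f₂(0) = - α`, `α` is prime, say `α ∣ f₁(0)`, so
`f₂(0)` is a unit of `A'`.  Modulo `α` (the value at the zero `P_g` of `α`): `f = Y^(g-1) (Y + c π(P_g))`, `π(P_g) ≠ 0` (otherwise `π = α v`,
`N(v)` constant, `v⁻¹` in `A'`), `f₂(0) ≠ 0`: `deg f₂ = 1`, a root. -/
theorem tri_irred [IsAlgClosed K] (hG : Good w t) {g : ℕ} (hg : 3 ≤ g) {c : K} (hc : c ≠ 0)
    (hL1 : InL 1 (pp w t A1 B1)) (hLg : InL g (pp w t Ag Bg))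
    (hP1 : QuadraticAlgebra.norm (pp w t A1 B1) = algebraMap K[X] (RatFunc K) P1)
    (hPg : QuadraticAlgebra.norm (pp w t Ag Bg) = algebraMap K[X] (RatFunc K) Pg)
    (hd1 : P1.natDegree = 1) (hdg : Pg.natDegree = 1)
    (hnd : ¬ InA (pp w t Ag Bg * (pp w t A1 B1)⁻¹)) :
    Irreducible (X ^ g + C (algebraMap K (EQ w t) c * pp w t A1 B1) * X ^ (g - 1) -
      C (pp w t Ag Bg) : (EQ w t)[X]) := by
  have hα := Irt_ne hPg hdg
  obtain ⟨e, m, k, hk, hPe, -, hm, hA⟩ := Irt_place (Irt_P hPg) hdg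
  set ι := Irt_hom w t with hι
  set ev := Irt_ev w t e m hm with hev
  have hιi : Function.Injective ι := Irt_hom_inj
  have hdvd : ∀ v : AQ w t, ev v = 0 → InA (ι v * (pp w t Ag Bg)⁻¹) := fun v hv =>
    Irt_dvd hPg hdg hk hPe hm hA hv
  -- the polynomial over `A'`
  set a : AQ w t := ⟨Ag, Bg⟩ with ha
  set q : AQ w t := ⟨A1, B1⟩ with hq
  have hιa : ι a = pp w t Ag Bg := rfl
  have hιq : ι q = pp w t A1 B1 := rfl
  have heva : ev a = 0 := by
    rw [hev, Irt_ev_apply]
    change Ag.eval e + Bg.eval e * m = 0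
    rw [hA]
    ring
  set F : (AQ w t)[X] := X ^ g + C (algebraMap K (AQ w t) c * q) * X ^ (g - 1) - C a with hF
  set f : (EQ w t)[X] := X ^ g + C (algebraMap K (EQ w t) c * pp w t A1 B1) * X ^ (g - 1) -
      C (pp w t Ag Bg) with hf
  have hFf : F.map ι = f := by
    rw [hF, hf]
    simp only [Polynomial.map_sub, Polynomial.map_add, Polynomial.map_mul, Polynomial.map_pow,
      map_X, map_C, map_mul, hιa, hιq]
    rw [show ι (algebraMap K (AQ w t) c) = algebraMap K (EQ w t) c from Irt_const c]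
  have hfm : f.Monic := by
    rw [hf, add_sub_assoc]
    refine monic_X_pow_add (lt_of_le_of_lt (degree_sub_le _ _) (max_lt ?_ ?_))
    · exact lt_of_le_of_lt (degree_C_mul_X_pow_le _ _) (by exact_mod_cast (show g - 1 < g by omega))
    · exact lt_of_le_of_lt degree_C_le (by exact_mod_cast (show 0 < g by omega))
  have hev_F : F.map ev = X ^ (g - 1) * (X + C (c * ev q)) := by
    rw [hF]
    simp only [Polynomial.map_sub, Polynomial.map_add, Polynomial.map_mul, Polynomial.map_pow,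
      map_X, map_C, map_mul, heva, C_0, sub_zero]
    rw [show ev (algebraMap K (AQ w t) c) = c from Irt_ev_const hm c]
    have : (X : K[X]) ^ g = X ^ (g - 1) * X := by
      rw [← pow_succ]
      congr 1
      omega
    rw [this]
    ring
  rw [hfm.irreducible_iff_natDegree]
  refine ⟨?_, ?_⟩
  · intro h1
    have h2 : f.natDegree = g := by
      rw [hf, add_sub_assoc, natDegree_add_eq_left_of_natDegree_lt]
      · exact natDegree_X_pow g
      · rw [natDegree_X_pow]
        refine lt_of_le_of_lt (natDegree_sub_le _ _) (max_lt ?_ ?_)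
        · exact lt_of_le_of_lt (natDegree_C_mul_X_pow_le _ _) (by omega)
        · rw [natDegree_C]
          omega
    rw [h1, natDegree_one] at h2
    omega
  · intro f1 f2 hm1 hm2 h12
    -- the coefficients are in `A'`
    have lift : ∀ p : (EQ w t)[X], p.Monic → p ∣ f → ∃ p' : (AQ w t)[X], p'.map ι = p ∧
        p'.degree = p.degree ∧ p'.Monic := by
      intro p hp hpf
      have hint : ∀ u : AQ w t, IsIntegral K[X] (ι u) := fun u =>
        (isIntegral_iff hG _).2 (Irt_InA.2 ⟨u, rfl⟩)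
      set R := integralClosure K[X] (EQ w t) with hR
      have hfR : f ∈ lifts (algebraMap R (EQ w t)) := by
        rw [lifts_iff_coeff_lifts]
        intro n
        rw [← hFf, coeff_map]
        exact ⟨⟨_, hint (F.coeff n)⟩, rfl⟩
      obtain ⟨fR, h1, -, h3⟩ := lifts_and_degree_eq_and_monic hfR hfm
      have h4 := integralClosure.mem_lifts_of_monic_of_dvd_map (R := R) (EQ w t) h3 hp
        (by rw [h1]; exact hpf)
      refine lifts_and_degree_eq_and_monic ?_ hp
      rw [lifts_iff_coeff_lifts] at h4 ⊢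
      intro n
      obtain ⟨y, hy⟩ := h4 n
      have h5 : IsIntegral R (p.coeff n) := by
        rw [← hy]
        exact y.2
      have h6 : IsIntegral K[X] (p.coeff n) := isIntegral_trans (A := R) _ h5
      exact Irt_InA.1 ((isIntegral_iff hG _).1 h6)
    obtain ⟨F1, g1, d1, m1⟩ := lift f1 hm1 ⟨f2, h12.symm⟩
    obtain ⟨F2, g2, d2, m2⟩ := lift f2 hm2 ⟨f1, by rw [mul_comm]; exact h12.symm⟩
    have hFF : F1 * F2 = F := by
      apply Polynomial.map_injective ι hιi
      rw [Polynomial.map_mul, g1, g2, hFf, h12]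
    have hcoef : F1.coeff 0 * F2.coeff 0 = - a := by
      rw [← mul_coeff_zero, hFF, hF]
      simp only [coeff_sub, coeff_add, coeff_X_pow, coeff_C_mul, coeff_C_zero]
      rw [if_neg (by omega), if_neg (by omega)]
      ring
    -- one of the two constant terms is not zero at the place
    have hone : ev (F1.coeff 0) ≠ 0 ∨ ev (F2.coeff 0) ≠ 0 := by
      by_contra hcon
      push Not at hcon
      obtain ⟨n1, n2⟩ := hcon
      obtain ⟨v1, hv1⟩ := Irt_InA.1 (hdvd _ n1)
      obtain ⟨v2, hv2⟩ := Irt_InA.1 (hdvd _ n2)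
      refine not_InA_inv hPg hdg ?_
      have h1 : ι (F1.coeff 0) * ι (F2.coeff 0) = - pp w t Ag Bg := by
        rw [← map_mul, hcoef, map_neg, hιa]
      have h2 : (pp w t Ag Bg)⁻¹ = - ((ι (F1.coeff 0) * (pp w t Ag Bg)⁻¹) *
          (ι (F2.coeff 0) * (pp w t Ag Bg)⁻¹)) := by
        have h3 : (ι (F1.coeff 0) * (pp w t Ag Bg)⁻¹) * (ι (F2.coeff 0) * (pp w t Ag Bg)⁻¹) =
            (ι (F1.coeff 0) * ι (F2.coeff 0)) * (pp w t Ag Bg)⁻¹ * (pp w t Ag Bg)⁻¹ := by ring
        rw [h3, h1, neg_mul, mul_inv_cancel₀ hα]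
        ring
      rw [h2]
      exact Nor_neg (Nor_mul (hdvd _ n1) (hdvd _ n2))
    -- the factor which does not vanish has degree zero
    have key : ∀ (p p' : (EQ w t)[X]) (Q Q' : (AQ w t)[X]), p.Monic → Q.map ι = p → Q.degree = p.degree →
        Q.Monic → Q' * Q = F → p' * p = f → ev (Q.coeff 0) ≠ 0 → p.natDegree = 0 := by
      intro p p' Q Q' hp hQp hQd hQm hQQ hpp h0
      have h1 : Q.map ev ∣ X ^ (g - 1) * (X + C (c * ev q)) := by
        rw [← hev_F, ← hQQ, Polynomial.map_mul]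
        exact dvd_mul_left _ _
      have h2 : IsCoprime (Q.map ev) (X ^ (g - 1)) := by
        refine IsCoprime.pow_right ?_
        rw [isCoprime_comm]
        refine (irreducible_X.coprime_iff_not_dvd).2 fun h => ?_
        rw [X_dvd_iff, coeff_map] at h
        exact h0 h
      have h3 : Q.map ev ∣ X + C (c * ev q) := h2.dvd_of_dvd_mul_left h1
      have h4 : (Q.map ev).natDegree ≤ 1 := by
        have := natDegree_le_of_dvd h3 (X_add_C_ne_zero _)
        rwa [natDegree_X_add_C] at this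
      rw [hQm.natDegree_map] at h4
      have h5 : Q.natDegree = p.natDegree := natDegree_eq_natDegree hQd
      rw [h5] at h4
      by_contra hne
      have h6 : p.natDegree = 1 := by omega
      -- a root
      have h7 : p = X - C (- p.coeff 0) := by
        have h8 := hp.as_sum
        rw [h6] at h8
        rw [h8]
        simp
      have hroot : f.eval (- p.coeff 0) = 0 := by
        rw [← hpp, h7, eval_mul, eval_sub, eval_X, eval_C, coeff_sub, coeff_X_zero, coeff_C_zero]
        ring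
      have hInA : InA (- p.coeff 0) := by
        rw [← hQp, coeff_map]
        exact Nor_neg (Irt_InA.2 ⟨_, rfl⟩)
      refine Irt_root hG hg hL1 hLg hP1 hPg hd1 hdg hnd hInA (c := c) ?_
      rw [hf] at hroot
      simp only [eval_sub, eval_add, eval_mul, eval_pow, eval_X, eval_C] at hroot
      exact sub_eq_zero.1 hroot
    rcases hone with h | h
    · left
      exact key f1 f2 F1 F2 hm1 g1 d1 m1 (by rw [mul_comm]; exact hFF)
        (by rw [mul_comm]; exact h12) h
    · right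
      exact key f2 f1 F2 F1 hm2 g2 d2 m2 hFF h12 h

end Pool.Agent.GrT
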