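import Mathlib
import Pool.Agent.GrT.Tri
import Pool.Agent.GrT.Irt
import Pool.Agent.GrE.Root

/-!
The integral closure of `regInf` in `E = M(y)` is `B[U]`, `U = κ/y`, `κ = 1/(ε² x)`.
-/

set_option autoImplicit false

namespace Pool.Agent.GrT

open Polynomial Pool.Agent.GrE Pool.Agent.GrS

section

variable {K : Type*} [Field K] {w t : K} [Fact (∀ r : RatFunc K, r ^ 2 ≠ Nf w t + Tf w * r)]
  {E : Type*} [Field E] [Algebra (EQ w t) E] [Algebra K E] [Algebra K[X] E] [Algebra (RatFunc K) E]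
  [IsScalarTower K (EQ w t) E] [IsScalarTower K[X] (EQ w t) E]
  [IsScalarTower (RatFunc K) (EQ w t) E]
  {A1 B1 P1 Ag Bg Pg : K[X]} {g : ℕ} {c : K}

/-- `κ = 1/(ε² x)`. -/
noncomputable def kap (w t : K) [Fact (∀ r : RatFunc K, r ^ 2 ≠ Nf w t + Tf w * r)] : EQ w t :=
  (eps w t ^ 2 * xE w t)⁻¹

/-- `∑ b_i U^i`, `U = κ / y`. -/
noncomputable def pwU (k : Tri (EQ w t) E g (algebraMap K (EQ w t) c * pp w t A1 B1)
    (pp w t Ag Bg)) (b : Fin g → EQ w t) : E :=
  ∑ i, algebraMap (EQ w t) E (b i) * (algebraMap (EQ w t) E (kap w t) * k.t⁻¹) ^ (i : ℕ)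

private theorem kap_ne : kap w t ≠ 0 :=
  inv_ne_zero (mul_ne_zero (pow_ne_zero _ eps_ne_zero) xE_ne_zero)

private theorem InB_sum {ι : Type*} (s : Finset ι) (f : ι → EQ w t) (h : ∀ i ∈ s, InB (f i)) :
    InB (∑ i ∈ s, f i) :=
  Finset.sum_induction f InB (fun _ _ ha hb => ha.add hb) InB_zero h

theorem exists_pwU (k : Tri (EQ w t) E g (algebraMap K (EQ w t) c * pp w t A1 B1)
    (pp w t Ag Bg)) (hg : 3 ≤ g) (e : E) : ∃ b, e = pwU k b := by
  have ht := k.t_ne hg
  have hκ : algebraMap (EQ w t) E (kap w t) ≠ 0 :=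
    (map_ne_zero (algebraMap (EQ w t) E)).mpr kap_ne
  obtain ⟨a, ha⟩ : ∃ a : Fin g → EQ w t, e * k.t ^ (g - 1) =
      ∑ i, algebraMap (EQ w t) E (a i) * k.t ^ (i : ℕ) := by
    refine ⟨fun i => k.b.repr (e * k.t ^ (g - 1)) i, ?_⟩
    conv_lhs => rw [← k.b.sum_repr (e * k.t ^ (g - 1))]
    refine Finset.sum_congr rfl fun i _ => ?_
    rw [k.hb, Algebra.smul_def]
  refine ⟨fun i => a (Fin.rev i) * (kap w t ^ (i : ℕ))⁻¹, ?_⟩
  have h2 : e = (∑ i, algebraMap (EQ w t) E (a i) * k.t ^ (i : ℕ)) * (k.t ^ (g - 1))⁻¹ := by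
    rw [← ha, mul_inv_cancel_right₀ (pow_ne_zero _ ht)]
  rw [h2, Finset.sum_mul, pwU, ← Equiv.sum_comp Fin.revPerm]
  refine Finset.sum_congr rfl fun i _ => ?_
  have h3 : k.t ^ (g - 1) = k.t ^ ((Fin.revPerm i : Fin g) : ℕ) * k.t ^ (i : ℕ) := by
    rw [← pow_add]
    congr 1
    have h4 := i.2
    rw [Fin.revPerm_apply, Fin.val_rev]
    omega
  have h5 : k.t ^ ((Fin.revPerm i : Fin g) : ℕ) ≠ 0 := pow_ne_zero _ ht
  have h6 : k.t ^ (i : ℕ) ≠ 0 := pow_ne_zero _ ht
  have h7 : algebraMap (EQ w t) E (kap w t) ^ (i : ℕ) ≠ 0 := pow_ne_zero _ hκ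
  rw [h3, map_mul, map_inv₀, map_pow, mul_pow, inv_pow, Fin.revPerm_apply]
  rw [Fin.revPerm_apply] at h5
  field_simp

/-- `η_g U^g = c η_1 U + ε`, `η_1 = π gB 1`, `η_g = α gB g`; so (`unit_inf`) the `B`-span of the `U^i`, `i < g`, is a ring of integral
elements. -/
theorem U_eq (k : Tri (EQ w t) E g (algebraMap K (EQ w t) c * pp w t A1 B1)
    (pp w t Ag Bg)) (hg : 3 ≤ g) :
    algebraMap (EQ w t) E (pp w t Ag Bg * gB w t g) *
        (algebraMap (EQ w t) E (kap w t) * k.t⁻¹) ^ g =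
      algebraMap (EQ w t) E (algebraMap K (EQ w t) c * (pp w t A1 B1 * gB w t 1)) *
        (algebraMap (EQ w t) E (kap w t) * k.t⁻¹) + algebraMap (EQ w t) E (eps w t) := by
  have ht := k.t_ne hg
  have hT := k.ht
  have he : algebraMap (EQ w t) E (eps w t) ≠ 0 :=
    (map_ne_zero (algebraMap (EQ w t) E)).mpr eps_ne_zero
  have hx : algebraMap (EQ w t) E (xE w t) ≠ 0 :=
    (map_ne_zero (algebraMap (EQ w t) E)).mpr xE_ne_zero
  have h1 : gB w t 1 = eps w t ^ 3 * xE w t := by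
    rw [gB, if_neg one_ne_zero, pow_one]
  have h2 : gB w t g = eps w t ^ (2 * g + 1) * xE w t ^ g := by
    rw [gB, if_neg (by omega)]
  have h3 : k.t ^ g = k.t ^ (g - 1) * k.t := by
    rw [← pow_succ, Nat.sub_add_cancel (by omega)]
  rw [h1, h2, kap]
  simp only [map_mul, map_inv₀, map_pow] at hT ⊢
  rw [← hT]
  generalize algebraMap (EQ w t) E (eps w t) = e at he
  generalize algebraMap (EQ w t) E (xE w t) = x at hx
  generalize algebraMap (EQ w t) E (algebraMap K (EQ w t) c) = c'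
  generalize algebraMap (EQ w t) E (pp w t A1 B1) = π
  have h4 : ((e ^ 2 * x)⁻¹ * k.t⁻¹) ^ g = (e ^ (2 * g) * x ^ g * k.t ^ g)⁻¹ := by
    rw [← mul_inv, inv_pow, mul_pow, mul_pow, ← pow_mul]
  rw [h4, pow_succ e (2 * g)]
  have h5 : k.t ^ (g - 1) ≠ 0 := pow_ne_zero _ ht
  have h6 : e ^ (2 * g) ≠ 0 := pow_ne_zero _ he
  have h7 : x ^ g ≠ 0 := pow_ne_zero _ hx
  rw [h3]
  field_simp
  ring

private theorem trU_pow (k : Tri (EQ w t) E g (algebraMap K (EQ w t) c * pp w t A1 B1)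
    (pp w t Ag Bg)) (m : ℕ) :
    Algebra.trace (EQ w t) E ((algebraMap (EQ w t) E (kap w t) * k.t⁻¹) ^ m) =
      kap w t ^ m * Algebra.trace (EQ w t) E (k.t ^ m)⁻¹ := by
  rw [mul_pow, inv_pow, ← map_pow, ← Algebra.smul_def, map_smul, smul_eq_mul]

private theorem trU_mul (k : Tri (EQ w t) E g (algebraMap K (EQ w t) c * pp w t A1 B1)
    (pp w t Ag Bg)) (b : Fin g → EQ w t) (i : ℕ) :
    Algebra.trace (EQ w t) E (pwU k b * (algebraMap (EQ w t) E (kap w t) * k.t⁻¹) ^ i) =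
      ∑ j : Fin g, b j * Algebra.trace (EQ w t) E
        ((algebraMap (EQ w t) E (kap w t) * k.t⁻¹) ^ ((j : ℕ) + i)) := by
  rw [pwU, Finset.sum_mul, map_sum]
  refine Finset.sum_congr rfl fun j _ => ?_
  rw [mul_assoc, ← pow_add, ← Algebra.smul_def, map_smul, smul_eq_mul]

/-- Proof: `Tr (∑ b_i U^i) = b_(g-1) κ^(g-1) (- c π/α) = - c (η_1/η_g) b_(g-1)` (`Tri.trace_inv`, `Tri.trace_inv_last`; `η_1/η_g` is a unit at infinity), and
the multiplication by `U` is given by `U_eq`. -/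
theorem trace_coeffU (hs : 1 + w ≠ 0) (hg : 3 ≤ g) (hg0 : (g : K) = 0) (hc0 : c ≠ 0)
    (hL1 : InL 1 (pp w t A1 B1)) (hLg : InL g (pp w t Ag Bg))
    (hP1 : QuadraticAlgebra.norm (pp w t A1 B1) = algebraMap K[X] (RatFunc K) P1)
    (hPg : QuadraticAlgebra.norm (pp w t Ag Bg) = algebraMap K[X] (RatFunc K) Pg)
    (hd1 : P1.natDegree = 1) (hdg : Pg.natDegree = 1)
    (k : Tri (EQ w t) E g (algebraMap K (EQ w t) c * pp w t A1 B1) (pp w t Ag Bg))
    (b : Fin g → EQ w t) :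
    (∀ i : ℕ, i < g → InB (Algebra.trace (EQ w t) E (pwU k b *
      (algebraMap (EQ w t) E (kap w t) * k.t⁻¹) ^ i))) ↔ ∀ i, InB (b i) := by
  obtain ⟨h1, h1'⟩ := unit_inf hs le_rfl hL1 hP1 hd1
  obtain ⟨h2, h2'⟩ := unit_inf hs (by omega : 1 ≤ g) hLg hPg hdg
  have hgE : (g : EQ w t) = 0 := by
    have h3 : (g : EQ w t) = algebraMap K (EQ w t) (g : K) := (map_natCast _ g).symm
    rw [h3, hg0, map_zero]
  have hcE : algebraMap K (EQ w t) c ≠ 0 := (map_ne_zero (algebraMap K (EQ w t))).mpr hc0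
  have hπ : pp w t A1 B1 ≠ 0 := fun h => k.hc (by rw [h, mul_zero])
  have hα : pp w t Ag Bg ≠ 0 := k.hf
  have he : eps w t ≠ 0 := eps_ne_zero
  have hx : xE w t ≠ 0 := xE_ne_zero
  have hgB1 : gB w t 1 = eps w t ^ 3 * xE w t := by
    rw [gB, if_neg one_ne_zero, pow_one]
  have hgBg : gB w t g = eps w t ^ (2 * g + 1) * xE w t ^ g := by
    rw [gB, if_neg (by omega)]
  have hη1 : pp w t A1 B1 * gB w t 1 ≠ 0 := by
    rw [hgB1]
    exact mul_ne_zero hπ (mul_ne_zero (pow_ne_zero _ he) hx)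
  have hηg : pp w t Ag Bg * gB w t g ≠ 0 := by
    rw [hgBg]
    exact mul_ne_zero hα (mul_ne_zero (pow_ne_zero _ he) (pow_ne_zero _ hx))
  -- the traces of the powers of `U`
  obtain ⟨T, hT⟩ : ∃ T : ℕ → EQ w t, ∀ m, Algebra.trace (EQ w t) E
      ((algebraMap (EQ w t) E (kap w t) * k.t⁻¹) ^ m) = T m := ⟨_, fun _ => rfl⟩
  have hT0 : ∀ m, m ≤ g - 2 → T m = 0 := by
    intro m hm
    rw [← hT, trU_pow, k.trace_inv hg hgE hm, mul_zero]
  have hT1 : T (g - 1) = algebraMap K (EQ w t) (-c) * (pp w t A1 B1 * gB w t 1) *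
      (pp w t Ag Bg * gB w t g)⁻¹ := by
    rw [← hT, trU_pow, k.trace_inv_last hg hgE, hgB1, hgBg, kap, map_neg]
    obtain ⟨n, rfl⟩ : ∃ n, g = n + 1 := ⟨g - 1, by omega⟩
    rw [Nat.add_sub_cancel, inv_pow, mul_pow, ← pow_mul]
    have e1 : eps w t ^ (2 * (n + 1) + 1) = eps w t ^ (2 * n) * eps w t ^ 3 := by
      rw [← pow_add]
      congr 1
    rw [e1, pow_succ (xE w t) n]
    field_simp
  have hT1B : InB (T (g - 1)) := by
    rw [hT1]
    exact ((InB_const _).mul h1).mul h2'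
  have hT1B' : InB ((T (g - 1))⁻¹) := by
    have e1 : (T (g - 1))⁻¹ = algebraMap K (EQ w t) (-c)⁻¹ * (pp w t A1 B1 * gB w t 1)⁻¹ *
        (pp w t Ag Bg * gB w t g) := by
      rw [hT1, mul_inv, mul_inv, inv_inv, map_inv₀]
    rw [e1]
    exact ((InB_const _).mul h1').mul h2
  have hT1n : T (g - 1) ≠ 0 := by
    rw [hT1, map_neg]
    exact mul_ne_zero (mul_ne_zero (neg_ne_zero.mpr hcE) hη1) (inv_ne_zero hηg)
  have hTB : ∀ m, InB (T m) := by
    intro m
    induction m using Nat.strong_induction_on with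
    | _ m ih =>
      rcases lt_trichotomy m (g - 1) with hm | hm | hm
      · rw [hT0 m (by omega)]
        exact InB_zero
      · rw [hm]
        exact hT1B
      · obtain ⟨n, rfl⟩ : ∃ n, m = n + g := ⟨m - g, by omega⟩
        have e1 : (algebraMap (EQ w t) E (kap w t) * k.t⁻¹) ^ g =
            algebraMap (EQ w t) E ((pp w t Ag Bg * gB w t g)⁻¹ *
              (algebraMap K (EQ w t) c * (pp w t A1 B1 * gB w t 1))) *
              (algebraMap (EQ w t) E (kap w t) * k.t⁻¹) +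
            algebraMap (EQ w t) E ((pp w t Ag Bg * gB w t g)⁻¹ * eps w t) := by
          have e2 := U_eq k hg
          have e3 : algebraMap (EQ w t) E (pp w t Ag Bg * gB w t g) ≠ 0 :=
            (map_ne_zero (algebraMap (EQ w t) E)).mpr hηg
          refine mul_left_cancel₀ e3 ?_
          rw [e2, map_mul (algebraMap (EQ w t) E) ((pp w t Ag Bg * gB w t g)⁻¹),
            map_mul (algebraMap (EQ w t) E) ((pp w t Ag Bg * gB w t g)⁻¹), map_inv₀]
          field_simp
        have e4 : (algebraMap (EQ w t) E (kap w t) * k.t⁻¹) ^ (n + g) =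
            ((pp w t Ag Bg * gB w t g)⁻¹ *
              (algebraMap K (EQ w t) c * (pp w t A1 B1 * gB w t 1))) •
              (algebraMap (EQ w t) E (kap w t) * k.t⁻¹) ^ (n + 1) +
            ((pp w t Ag Bg * gB w t g)⁻¹ * eps w t) •
              (algebraMap (EQ w t) E (kap w t) * k.t⁻¹) ^ n := by
          rw [pow_add, e1, Algebra.smul_def, Algebra.smul_def, pow_succ]
          ring
        have e5 : T (n + g) = ((pp w t Ag Bg * gB w t g)⁻¹ *
              (algebraMap K (EQ w t) c * (pp w t A1 B1 * gB w t 1))) * T (n + 1) +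
            ((pp w t Ag Bg * gB w t g)⁻¹ * eps w t) * T n := by
          rw [← hT, e4, map_add, map_smul, map_smul, smul_eq_mul, smul_eq_mul, hT, hT]
        rw [e5]
        exact ((h2'.mul ((InB_const c).mul h1)).mul (ih _ (by omega))).add
          ((h2'.mul InB_eps).mul (ih _ (by omega)))
  have hsum : ∀ i : ℕ, Algebra.trace (EQ w t) E (pwU k b *
      (algebraMap (EQ w t) E (kap w t) * k.t⁻¹) ^ i) = ∑ j : Fin g, b j * T ((j : ℕ) + i) := by
    intro i
    rw [trU_mul]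
    refine Finset.sum_congr rfl fun j _ => ?_
    rw [hT]
  constructor
  · intro h
    have key : ∀ d : ℕ, ∀ j : Fin g, (j : ℕ) + d = g - 1 → InB (b j) := by
      intro d
      induction d using Nat.strong_induction_on with
      | _ d ih =>
        intro j hj
        have h3 := h d (by omega)
        rw [hsum, ← Finset.add_sum_erase _ _ (Finset.mem_univ j), hj] at h3
        have h4 : InB (∑ x ∈ Finset.univ.erase j, b x * T ((x : ℕ) + d)) := by
          refine InB_sum _ _ fun x hx => ?_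
          have hne : (x : ℕ) ≠ (j : ℕ) := fun h => (Finset.mem_erase.mp hx).1 (Fin.ext h)
          have hxg := x.2
          rcases Nat.lt_or_ge (x : ℕ) (j : ℕ) with hlt | hge
          · rw [hT0 _ (by omega), mul_zero]
            exact InB_zero
          · exact (ih (g - 1 - (x : ℕ)) (by omega) x (by omega)).mul (hTB _)
        have h5 := h3.sub h4
        rw [add_sub_cancel_right] at h5
        have h6 := h5.mul hT1B'
        rwa [mul_inv_cancel_right₀ hT1n] at h6
    intro j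
    exact key (g - 1 - (j : ℕ)) j (by have := j.2; omega)
  · intro h i _
    rw [hsum]
    exact InB_sum _ _ fun j _ => (h j).mul (hTB _)

/-- Proof (`→`): if `e = pwU k b` is integral, so is `e U^i`, its trace is integral and in `M`, so regular at infinity (`isIntegral_inf_iff`); `trace_coeffU`. -/
theorem inf_iff (hs : 1 + w ≠ 0) (hg : 3 ≤ g) (hg0 : (g : K) = 0) (hc0 : c ≠ 0)
    (hL1 : InL 1 (pp w t A1 B1)) (hLg : InL g (pp w t Ag Bg))
    (hP1 : QuadraticAlgebra.norm (pp w t A1 B1) = algebraMap K[X] (RatFunc K) P1)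
    (hPg : QuadraticAlgebra.norm (pp w t Ag Bg) = algebraMap K[X] (RatFunc K) Pg)
    (hd1 : P1.natDegree = 1) (hdg : Pg.natDegree = 1)
    (k : Tri (EQ w t) E g (algebraMap K (EQ w t) c * pp w t A1 B1) (pp w t Ag Bg))
    (b : Fin g → EQ w t) :
    IsIntegral (regInf K) (pwU k b) ↔ ∀ i, InB (b i) := by
  have hTower : IsScalarTower (regInf K) (EQ w t) E := by
    refine IsScalarTower.of_algebraMap_eq fun c => ?_
    exact IsScalarTower.algebraMap_apply (RatFunc K) (EQ w t) E (c : RatFunc K)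
  obtain ⟨h1, h1'⟩ := unit_inf hs le_rfl hL1 hP1 hd1
  obtain ⟨h2, h2'⟩ := unit_inf hs (by omega : 1 ≤ g) hLg hPg hdg
  have hfin : FiniteDimensional (EQ w t) E := Module.Finite.of_basis k.b
  have hηg : pp w t Ag Bg * gB w t g ≠ 0 := by
    rw [gB, if_neg (by omega)]
    exact mul_ne_zero k.hf (mul_ne_zero (pow_ne_zero _ eps_ne_zero) (pow_ne_zero _ xE_ne_zero))
  have hM : ∀ v : EQ w t, InB v → IsIntegral (regInf K) (algebraMap (EQ w t) E v) := by
    intro v hv
    exact ((isIntegral_inf_iff v).2 hv).algebraMap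
  -- `U` is integral
  have hU : IsIntegral (regInf K) (algebraMap (EQ w t) E (kap w t) * k.t⁻¹) := by
    have e1 : (algebraMap (EQ w t) E (kap w t) * k.t⁻¹) ^ g =
        algebraMap (EQ w t) E ((pp w t Ag Bg * gB w t g)⁻¹ *
          (algebraMap K (EQ w t) c * (pp w t A1 B1 * gB w t 1))) *
          (algebraMap (EQ w t) E (kap w t) * k.t⁻¹) +
        algebraMap (EQ w t) E ((pp w t Ag Bg * gB w t g)⁻¹ * eps w t) := by
      have e2 := U_eq k hg
      have e3 : algebraMap (EQ w t) E (pp w t Ag Bg * gB w t g) ≠ 0 :=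
        (map_ne_zero (algebraMap (EQ w t) E)).mpr hηg
      refine mul_left_cancel₀ e3 ?_
      rw [e2, map_mul (algebraMap (EQ w t) E) ((pp w t Ag Bg * gB w t g)⁻¹),
        map_mul (algebraMap (EQ w t) E) ((pp w t Ag Bg * gB w t g)⁻¹), map_inv₀]
      field_simp
    have hβ : IsIntegral (regInf K) (algebraMap (EQ w t) E ((pp w t Ag Bg * gB w t g)⁻¹ *
        (algebraMap K (EQ w t) c * (pp w t A1 B1 * gB w t 1)))) :=
      hM _ (h2'.mul ((InB_const c).mul h1))
    have hγ : IsIntegral (regInf K) (algebraMap (EQ w t) E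
        ((pp w t Ag Bg * gB w t g)⁻¹ * eps w t)) := hM _ (h2'.mul InB_eps)
    generalize algebraMap (EQ w t) E ((pp w t Ag Bg * gB w t g)⁻¹ *
        (algebraMap K (EQ w t) c * (pp w t A1 B1 * gB w t 1))) = β at e1 hβ
    generalize algebraMap (EQ w t) E ((pp w t Ag Bg * gB w t g)⁻¹ * eps w t) = γ at e1 hγ
    generalize algebraMap (EQ w t) E (kap w t) * k.t⁻¹ = U at e1
    -- integral over the integral closure
    have h3 : IsIntegral (integralClosure (regInf K) E) U := by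
      refine ⟨X ^ g - (C (⟨β, hβ⟩ : integralClosure (regInf K) E) * X +
        C (⟨γ, hγ⟩ : integralClosure (regInf K) E)), ?_, ?_⟩
      · refine monic_X_pow_sub ?_
        refine (degree_linear_le).trans_lt ?_
        norm_cast
        omega
      · rw [eval₂_sub, eval₂_X_pow, eval₂_add, eval₂_mul, eval₂_C, eval₂_C, eval₂_X, e1]
        exact sub_self _
    exact isIntegral_trans (R := regInf K) (A := integralClosure (regInf K) E) U h3
  constructor
  · intro h
    rw [← trace_coeffU hs hg hg0 hc0 hL1 hLg hP1 hPg hd1 hdg k b]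
    intro i _
    rw [← isIntegral_inf_iff]
    exact Algebra.isIntegral_trace (h.mul (hU.pow i))
  · intro h
    exact IsIntegral.sum _ fun i _ => (hM _ (h i)).mul (hU.pow _)

end

end Pool.Agent.GrT
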