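import Mathlib
import Pool.Agent.GrT.Fint
import Pool.Agent.GrT.Inft
import Pool.Agent.GrE.Tr
import Pool.Agent.GrE.Ex
import Pool.Agent.GrE.Uni

/-!
The regular differentials of the curve `y^g + c h_1 y^(g-1) = h_g`, and its genus.
-/

set_option autoImplicit false

namespace Pool.Agent.GrT

open Polynomial Pool.Agent.GrE Pool.Agent.GrS

section

variable {K : Type*} [Field K] {w t : K} [Fact (∀ r : RatFunc K, r ^ 2 ≠ Nf w t + Tf w * r)]
  {E : Type*} [Field E] [Algebra (EQ w t) E] [Algebra K E] [Algebra K[X] E] [Algebra (RatFunc K) E]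
  [IsScalarTower K (EQ w t) E] [IsScalarTower K[X] (EQ w t) E]
  [IsScalarTower (RatFunc K) (EQ w t) E]
  {A1 B1 P1 Ag Bg Pg : K[X]} {g : ℕ} {c : K}

/-- `∑ v_j y^(1-j) / (π W)`. -/
noncomputable def elt (k : Tri (EQ w t) E g (algebraMap K (EQ w t) c * pp w t A1 B1)
    (pp w t Ag Bg)) (v : Fin g → EQ w t) : E :=
  algebraMap (EQ w t) E ((pp w t A1 B1 * WE w t)⁻¹) *
    ∑ j, algebraMap (EQ w t) E (v j) * (k.t * (k.t ^ (j : ℕ))⁻¹)

theorem HKt_zero : InA (0 : EQ w t) := ⟨0, 0, by rw [← Nor_algebraMap, map_zero]⟩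

theorem HKt_W_ne : WE w t ≠ 0 := by
  intro h
  have h1 := congrArg QuadraticAlgebra.re h
  have h2 : - Tf w = 0 := h1
  rw [neg_eq_zero] at h2
  have h3 : TT w = 0 := by
    apply RatFunc.algebraMap_injective K
    rw [map_zero]
    exact h2
  have h4 : (X * (X - C (1 + w)) : K[X]) = 0 := h3
  rcases mul_eq_zero.mp h4 with h5 | h5
  · exact X_ne_zero h5
  · exact X_sub_C_ne_zero _ h5

theorem HKt_pi_ne (k : Tri (EQ w t) E g (algebraMap K (EQ w t) c * pp w t A1 B1)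
    (pp w t Ag Bg)) : pp w t A1 B1 ≠ 0 := right_ne_zero_of_mul k.hc

theorem HKt_mul (k : Tri (EQ w t) E g (algebraMap K (EQ w t) c * pp w t A1 B1)
    (pp w t Ag Bg)) (hg : 3 ≤ g) (v : Fin g → EQ w t) :
    elt k v * (algebraMap (EQ w t) E (pp w t A1 B1 * WE w t) * k.t ^ (g - 2)) =
      ∑ i, v (Fin.rev i) • k.b i := by
  have ht0 : k.t ≠ 0 := k.t_ne hg
  have hπW : algebraMap (EQ w t) E (pp w t A1 B1 * WE w t) ≠ 0 :=
    (_root_.map_ne_zero _).mpr (mul_ne_zero (HKt_pi_ne k) HKt_W_ne)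
  unfold elt
  rw [map_inv₀]
  have h1 : (algebraMap (EQ w t) E (pp w t A1 B1 * WE w t))⁻¹ *
      (∑ j, algebraMap (EQ w t) E (v j) * (k.t * (k.t ^ (j : ℕ))⁻¹)) *
      (algebraMap (EQ w t) E (pp w t A1 B1 * WE w t) * k.t ^ (g - 2)) =
      (∑ j, algebraMap (EQ w t) E (v j) * (k.t * (k.t ^ (j : ℕ))⁻¹)) * k.t ^ (g - 2) := by
    generalize (∑ j, algebraMap (EQ w t) E (v j) * (k.t * (k.t ^ (j : ℕ))⁻¹)) = S
    field_simp
  rw [h1, Finset.sum_mul, ← Equiv.sum_comp Fin.revPerm]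
  refine Finset.sum_congr rfl fun i _ => ?_
  rw [k.hb, Algebra.smul_def, Fin.revPerm_apply, mul_assoc]
  congr 1
  have h2 : k.t * k.t ^ (g - 2) = k.t ^ ((Fin.rev i : Fin g) : ℕ) * k.t ^ (i : ℕ) := by
    rw [← pow_succ', ← pow_add]
    congr 1
    rw [Fin.val_rev]
    omega
  rw [mul_right_comm, h2, mul_right_comm, mul_inv_cancel₀ (pow_ne_zero _ ht0), one_mul]

/-- `elt k v * π W y^(g-2) = ∑ v_j y^(g-1-j)`. -/
theorem exists_elt (k : Tri (EQ w t) E g (algebraMap K (EQ w t) c * pp w t A1 B1)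
    (pp w t Ag Bg)) (hg : 3 ≤ g) (e : E) : ∃ v, e = elt k v := by
  have ht0 : k.t ≠ 0 := k.t_ne hg
  have hπW : algebraMap (EQ w t) E (pp w t A1 B1 * WE w t) ≠ 0 :=
    (_root_.map_ne_zero _).mpr (mul_ne_zero (HKt_pi_ne k) HKt_W_ne)
  refine ⟨fun j => k.b.equivFun (e * (algebraMap (EQ w t) E (pp w t A1 B1 * WE w t) *
    k.t ^ (g - 2))) (Fin.rev j), ?_⟩
  apply mul_right_cancel₀ (mul_ne_zero hπW (pow_ne_zero (g - 2) ht0))
  rw [HKt_mul k hg]
  simp only [Fin.rev_rev]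
  exact (k.b.sum_equivFun _).symm

theorem elt_injective (k : Tri (EQ w t) E g (algebraMap K (EQ w t) c * pp w t A1 B1)
    (pp w t Ag Bg)) (hg : 3 ≤ g) : Function.Injective (elt k) := by
  intro f f' h
  have h1 : ∑ i, f (Fin.rev i) • k.b i = ∑ i, f' (Fin.rev i) • k.b i := by
    rw [← HKt_mul k hg, ← HKt_mul k hg, h]
  rw [← k.b.equivFun_symm_apply (fun i => f (Fin.rev i)),
    ← k.b.equivFun_symm_apply (fun i => f' (Fin.rev i))] at h1
  have h2 := k.b.equivFun.symm.injective h1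
  funext i
  have h3 := congrFun h2 (Fin.rev i)
  simpa only [Fin.rev_rev] using h3

/-- The trace to `K(x)` through the trace to `M`. -/
theorem HKt_tr (k : Tri (EQ w t) E g (algebraMap K (EQ w t) c * pp w t A1 B1)
    (pp w t Ag Bg)) (f : E) (u : Fin g → E) (b : Fin g → EQ w t) :
    Algebra.trace (RatFunc K) E (f * ∑ i, algebraMap (EQ w t) E (b i) * u i) =
      ∑ i, Algebra.trace (RatFunc K) (EQ w t) (Algebra.trace (EQ w t) E (f * u i) * b i) := by
  have : Module.Finite (EQ w t) E := Module.Finite.of_basis k.b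
  rw [← Algebra.trace_trace (S := EQ w t), Finset.mul_sum, map_sum, map_sum]
  refine Finset.sum_congr rfl fun i _ => ?_
  have h1 : f * (algebraMap (EQ w t) E (b i) * u i) = b i • (f * u i) := by
    rw [Algebra.smul_def]
    ring
  rw [h1, map_smul, smul_eq_mul, mul_comm (b i)]

/-- The test with all combinations and the test with the single terms. -/
theorem HKt_single (k : Tri (EQ w t) E g (algebraMap K (EQ w t) c * pp w t A1 B1)
    (pp w t Ag Bg)) (f : E) (u : Fin g → E) (P : EQ w t → Prop) (hP0 : P 0)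
    (S : AddSubmonoid (RatFunc K)) (r : RatFunc K) :
    (∀ b : Fin g → EQ w t, (∀ i, P (b i)) →
      r * Algebra.trace (RatFunc K) E (f * ∑ i, algebraMap (EQ w t) E (b i) * u i) ∈ S) ↔
    ∀ i, ∀ a : EQ w t, P a →
      r * Algebra.trace (RatFunc K) (EQ w t) (Algebra.trace (EQ w t) E (f * u i) * a) ∈ S := by
  classical
  constructor
  · intro h i a ha
    have h1 := h (Pi.single i a) (fun j => by
      by_cases hj : j = i
      · subst hj
        rw [Pi.single_eq_same]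
        exact ha
      · rw [Pi.single_eq_of_ne hj]
        exact hP0)
    rw [HKt_tr k, Finset.sum_eq_single i] at h1
    · rw [Pi.single_eq_same] at h1
      exact h1
    · intro j _ hj
      rw [Pi.single_eq_of_ne hj, mul_zero, map_zero]
    · intro hi
      exact absurd (Finset.mem_univ i) hi
  · intro h b hb
    rw [HKt_tr k, Finset.mul_sum]
    exact S.sum_mem fun i _ => h i (b i) (hb i)

/-- Proof.  By `fin_iff`: `f ∈ omFin` iff `Tr_(M/K(x)) (Tr_(E/M) (f y^i) a)` is a polynomial for all `i < g`, `a ∈ A'`, iff (`dual_fin`) `Tr_(E/M) (f W y^i)` is in `A'`,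
iff (`trace_coeff`) the coefficients `v_j` of `f W c π y^(g-2) = c ∑ v_j y^(g-1-j)` are in `A'`. -/
theorem mem_omFin [IsAlgClosed K] (hG : Good w t) (hg : 3 ≤ g) (hg0 : (g : K) = 0) (hc0 : c ≠ 0)
    (hP1 : QuadraticAlgebra.norm (pp w t A1 B1) = algebraMap K[X] (RatFunc K) P1)
    (hPg : QuadraticAlgebra.norm (pp w t Ag Bg) = algebraMap K[X] (RatFunc K) Pg)
    (hd1 : P1.natDegree = 1) (hdg : Pg.natDegree = 1) (q : Pt w t A1 B1 Ag Bg)
    (hc : ∀ y : K, y ^ g = Ag.eval q.e + Bg.eval q.e * q.n →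
      q.A'.eval q.e + q.B'.eval q.e * q.n ≠ c * y ^ (g - 1))
    (k : Tri (EQ w t) E g (algebraMap K (EQ w t) c * pp w t A1 B1) (pp w t Ag Bg))
    (v : Fin g → EQ w t) : elt k v ∈ omFin K E ↔ ∀ j, InA (v j) := by
  have ht0 : k.t ≠ 0 := k.t_ne hg
  have hπ0 := HKt_pi_ne k
  have hcM : algebraMap K (EQ w t) c ≠ 0 := (_root_.map_ne_zero _).mpr hc0
  -- the elements integral over `K[x]`
  have h1 : elt k v ∈ omFin K E ↔ ∀ b : Fin g → EQ w t, (∀ i, InA (b i)) →
      1 * Algebra.trace (RatFunc K) E (elt k v * ∑ i, algebraMap (EQ w t) E (b i) *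
        k.t ^ (i : ℕ)) ∈ (algebraMap K[X] (RatFunc K)).range.toAddSubmonoid := by
    constructor
    · intro h b hb
      rw [one_mul]
      exact h _ ((fin_iff hG hg hg0 hc0 hP1 hPg hd1 hdg q hc k b).mpr hb)
    · intro h a ha
      have h2 : a = pw k (fun i => k.b.repr a i) := by
        rw [Fint_pw]
        exact (k.b.sum_repr a).symm
      rw [h2] at ha ⊢
      have h3 := h _ ((fin_iff hG hg hg0 hc0 hP1 hPg hd1 hdg q hc k _).mp ha)
      rw [one_mul] at h3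
      exact h3
  rw [h1, HKt_single k (elt k v) (fun i => k.t ^ (i : ℕ)) InA HKt_zero]
  -- duality over `A'`
  have h2 : ∀ i : Fin g, (∀ a : EQ w t, InA a →
      1 * Algebra.trace (RatFunc K) (EQ w t) (Algebra.trace (EQ w t) E
        (elt k v * k.t ^ (i : ℕ)) * a) ∈ (algebraMap K[X] (RatFunc K)).range.toAddSubmonoid) ↔
      InA (Algebra.trace (EQ w t) E (elt k v * k.t ^ (i : ℕ)) * WE w t) := by
    intro i
    rw [← dual_fin]
    simp only [one_mul]
    rfl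
  rw [forall_congr' h2]
  have h3 : ∀ i : ℕ, Algebra.trace (EQ w t) E (elt k v * k.t ^ i) * WE w t =
      Algebra.trace (EQ w t) E (pw k (fun j => algebraMap K (EQ w t) c * v (Fin.rev j)) *
        k.t ^ i * (algebraMap (EQ w t) E (algebraMap K (EQ w t) c * pp w t A1 B1) *
          k.t ^ (g - 2))⁻¹) := by
    intro i
    rw [mul_comm, ← smul_eq_mul, ← map_smul]
    congr 1
    have h4 : pw k (fun j => algebraMap K (EQ w t) c * v (Fin.rev j)) =
        algebraMap (EQ w t) E (algebraMap K (EQ w t) c) * (elt k v *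
          (algebraMap (EQ w t) E (pp w t A1 B1 * WE w t) * k.t ^ (g - 2))) := by
      rw [HKt_mul k hg, Fint_pw, Finset.mul_sum]
      refine Finset.sum_congr rfl fun j _ => ?_
      rw [Algebra.smul_def, Algebra.smul_def, map_mul]
      ring
    have hcE : algebraMap (EQ w t) E (algebraMap K (EQ w t) c) ≠ 0 := (_root_.map_ne_zero _).mpr hcM
    have hπE : algebraMap (EQ w t) E (pp w t A1 B1) ≠ 0 := (_root_.map_ne_zero _).mpr hπ0
    have htE : k.t ^ (g - 2) ≠ 0 := pow_ne_zero _ ht0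
    rw [h4, Algebra.smul_def, map_mul, map_mul, mul_inv, mul_inv]
    field_simp
  have h4 := trace_coeff k hg hg0 (fun j => algebraMap K (EQ w t) c * v (Fin.rev j))
  constructor
  · intro h
    have h5 := h4.mp (fun i hi => by
      have h6 := h ⟨i, hi⟩
      rw [h3] at h6
      exact h6)
    intro j
    have h6 := h5 (Fin.rev j)
    simp only [Fin.rev_rev] at h6
    have h7 : v j = algebraMap K (EQ w t) c⁻¹ * (algebraMap K (EQ w t) c * v j) := by
      rw [← mul_assoc, ← map_mul, inv_mul_cancel₀ hc0, map_one, one_mul]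
    rw [h7]
    obtain ⟨A, B, hAB⟩ := h6
    rw [hAB, Fint_const]
    exact ⟨_, _, rfl⟩
  · intro h i
    rw [h3]
    refine h4.mpr (fun j => ?_) i i.2
    obtain ⟨A, B, hAB⟩ := h (Fin.rev j)
    rw [hAB, Fint_const]
    exact ⟨_, _, rfl⟩

/-- `gB j = ε κ^(-j)`. -/
theorem HKt_gB {j : ℕ} (hj : 1 ≤ j) : gB w t j = eps w t * (kap w t)⁻¹ ^ j := by
  unfold gB kap
  rw [if_neg (by omega), inv_inv, mul_pow, ← pow_mul]
  ring

/-- Proof.  By `inf_iff`: `f ∈ omInf` iff `Tr_(E/M) (f W U^i)` is regular at infinity for all `i < g` (`dual_inf`), iff (`trace_coeffU`) the `b_i` in `f W = ∑ b_i U^i` are.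
`y = κ U⁻¹`, `κ U⁻¹ = (κ/ε) (η_g U^(g-1) - c η_1)`, `π = η_1 κ/ε`: `f W = ∑ v_j y^(1-j)/π` has the coefficients
`b_(g-1) = v_0 η_g/η_1`, `b_(j-1) = v_j ε κ^(-j)/η_1 = v_j gB j/η_1` (`2 ≤ j < g`), `b_0 = v_1 gB 1/η_1 - c v_0` (`gB j = ε κ^(-j)` for `j ≥ 1`). -/
theorem HKt_coeff (k : Tri (EQ w t) E g (algebraMap K (EQ w t) c * pp w t A1 B1)
    (pp w t Ag Bg)) (hg : 3 ≤ g) (v β : Fin g → EQ w t)
    (hβ0 : β ⟨0, by omega⟩ = v ⟨1, by omega⟩ * gB w t 1 * (pp w t A1 B1 * gB w t 1)⁻¹ -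
      algebraMap K (EQ w t) c * v ⟨0, by omega⟩)
    (hβ : ∀ (i : ℕ) (hi : i + 1 < g), 1 ≤ i → β ⟨i, by omega⟩ =
      v ⟨i + 1, hi⟩ * gB w t (i + 1) * (pp w t A1 B1 * gB w t 1)⁻¹)
    (hβ1 : β ⟨g - 1, by omega⟩ = v ⟨0, by omega⟩ * (pp w t Ag Bg * gB w t g) *
      (pp w t A1 B1 * gB w t 1)⁻¹) :
    elt k v * algebraMap (EQ w t) E (WE w t) = pwU k β := by
  have ht0 : k.t ≠ 0 := k.t_ne hg
  have hπ0 := HKt_pi_ne k
  have he0 : eps w t ≠ 0 := eps_ne_zero
  have hx0 : xE w t ≠ 0 := xE_ne_zero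
  have hκ0 : kap w t ≠ 0 := inv_ne_zero (mul_ne_zero (pow_ne_zero _ he0) hx0)
  have hU := U_eq k hg
  set U : E := algebraMap (EQ w t) E (kap w t) * k.t⁻¹ with hUd
  have hκE : algebraMap (EQ w t) E (kap w t) ≠ 0 := (_root_.map_ne_zero _).mpr hκ0
  have hU0 : U ≠ 0 := mul_ne_zero hκE (inv_ne_zero ht0)
  have hg1 : gB w t 1 ≠ 0 := by
    rw [HKt_gB le_rfl]
    exact mul_ne_zero he0 (pow_ne_zero _ (inv_ne_zero hκ0))
  have hπE : algebraMap (EQ w t) E (pp w t A1 B1) ≠ 0 := (_root_.map_ne_zero _).mpr hπ0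
  have hWE : algebraMap (EQ w t) E (WE w t) ≠ 0 := (_root_.map_ne_zero _).mpr HKt_W_ne
  have heE : algebraMap (EQ w t) E (eps w t) ≠ 0 := (_root_.map_ne_zero _).mpr he0
  -- the left side
  have h1 : elt k v * algebraMap (EQ w t) E (WE w t) =
      ∑ j : Fin g, algebraMap (EQ w t) E (v j * (pp w t A1 B1)⁻¹) *
        (k.t * (k.t ^ (j : ℕ))⁻¹) := by
    unfold elt
    rw [map_inv₀, map_mul, Finset.mul_sum, Finset.sum_mul]
    refine Finset.sum_congr rfl fun j _ => ?_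
    rw [map_mul, map_inv₀]
    field_simp
  rw [h1]
  unfold pwU
  rw [← hUd]
  obtain ⟨m, rfl⟩ : ∃ m, g = m + 1 := ⟨g - 1, by omega⟩
  have hm : 2 ≤ m := by omega
  rw [Fin.sum_univ_succ, Fin.sum_univ_castSucc]
  -- the terms
  have h2 : ∀ i : Fin m, algebraMap (EQ w t) E (v i.succ * (pp w t A1 B1)⁻¹) *
      (k.t * (k.t ^ ((i.succ : Fin (m + 1)) : ℕ))⁻¹) =
      algebraMap (EQ w t) E (β i.castSucc) * U ^ ((i.castSucc : Fin (m + 1)) : ℕ) +
      (if (i : ℕ) = 0 then algebraMap (EQ w t) E (algebraMap K (EQ w t) c * v 0) else 0) := by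
    intro i
    have hi := i.2
    have h3 : k.t * (k.t ^ ((i.succ : Fin (m + 1)) : ℕ))⁻¹ =
        algebraMap (EQ w t) E ((kap w t)⁻¹ ^ (i : ℕ)) * U ^ (i : ℕ) := by
      rw [Fin.val_succ, pow_succ, mul_inv, mul_comm k.t, mul_assoc, inv_mul_cancel₀ ht0, mul_one,
        hUd, mul_pow, map_pow, map_inv₀, ← mul_assoc, ← mul_pow, inv_mul_cancel₀ hκE, one_pow,
        one_mul, inv_pow]
    have h4 : v i.succ * gB w t ((i : ℕ) + 1) * (pp w t A1 B1 * gB w t 1)⁻¹ =
        v i.succ * (pp w t A1 B1)⁻¹ * (kap w t)⁻¹ ^ (i : ℕ) := by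
      rw [HKt_gB (by omega), HKt_gB le_rfl, pow_one, pow_succ]
      field_simp
    by_cases h0 : (i : ℕ) = 0
    · rw [if_pos h0]
      have e1 : i.castSucc = (⟨0, by omega⟩ : Fin (m + 1)) := Fin.ext h0
      have e2 : i.succ = (⟨1, by omega⟩ : Fin (m + 1)) := Fin.ext (by
        rw [Fin.val_succ, h0])
      have e3 : (⟨0, by omega⟩ : Fin (m + 1)) = 0 := rfl
      rw [h3, e1, hβ0, h0, ← e2, e3]
      rw [h0] at h4
      simp only [Nat.zero_add, zero_add] at h4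
      rw [h4]
      simp only [pow_zero, map_one, mul_one, map_sub, Fin.val_zero]
      ring
    · rw [if_neg h0, add_zero, h3]
      have e1 : i.castSucc = (⟨(i : ℕ), by omega⟩ : Fin (m + 1)) := rfl
      have e2 : i.succ = (⟨(i : ℕ) + 1, by omega⟩ : Fin (m + 1)) := rfl
      rw [e1, hβ (i : ℕ) (by omega) (by omega), ← e2, h4, ← mul_assoc, ← map_mul]
  rw [Finset.sum_congr rfl (fun i _ => h2 i), Finset.sum_add_distrib]
  have h5 : ∑ i : Fin m, (if (i : ℕ) = 0 then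
      algebraMap (EQ w t) E (algebraMap K (EQ w t) c * v 0) else 0) =
      algebraMap (EQ w t) E (algebraMap K (EQ w t) c * v 0) := by
    rw [Finset.sum_eq_single (⟨0, by omega⟩ : Fin m)]
    · rw [if_pos rfl]
    · intro i _ hi
      rw [if_neg (fun h => hi (Fin.ext h))]
    · intro h
      exact absurd (Finset.mem_univ _) h
  rw [h5]
  -- the last term
  have h6 : algebraMap (EQ w t) E (v 0 * (pp w t A1 B1)⁻¹) *
      (k.t * (k.t ^ ((0 : Fin (m + 1)) : ℕ))⁻¹) +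
      algebraMap (EQ w t) E (algebraMap K (EQ w t) c * v 0) =
      algebraMap (EQ w t) E (β (Fin.last m)) * U ^ ((Fin.last m : Fin (m + 1)) : ℕ) := by
    have e1 : Fin.last m = (⟨m + 1 - 1, by omega⟩ : Fin (m + 1)) := rfl
    have e3 : (⟨0, by omega⟩ : Fin (m + 1)) = 0 := rfl
    rw [e1, hβ1, e3]
    simp only [Fin.val_zero, pow_zero, inv_one, mul_one, Nat.add_sub_cancel]
    have hty : k.t = algebraMap (EQ w t) E (kap w t) * U⁻¹ := by
      rw [hUd, mul_inv, inv_inv, ← mul_assoc, mul_inv_cancel₀ hκE, one_mul]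
    have hκg : gB w t 1 * kap w t = eps w t := by
      rw [HKt_gB le_rfl, pow_one, mul_assoc, inv_mul_cancel₀ hκ0, mul_one]
    have hg1E : algebraMap (EQ w t) E (gB w t 1) ≠ 0 := (_root_.map_ne_zero _).mpr hg1
    apply mul_right_cancel₀ hU0
    apply mul_right_cancel₀ (mul_ne_zero hπE hg1E)
    have h7 : algebraMap (EQ w t) E (v 0 * (pp w t Ag Bg * gB w t (m + 1)) *
        (pp w t A1 B1 * gB w t 1)⁻¹) * U ^ m * U *
        (algebraMap (EQ w t) E (pp w t A1 B1) * algebraMap (EQ w t) E (gB w t 1)) =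
        algebraMap (EQ w t) E (v 0) * (algebraMap (EQ w t) E (pp w t Ag Bg * gB w t (m + 1)) *
          U ^ (m + 1)) := by
      rw [map_mul, map_mul _ (v 0), map_inv₀, map_mul _ (pp w t A1 B1), pow_succ]
      field_simp
    rw [h7, hU]
    have h8 : algebraMap (EQ w t) E (v 0 * (pp w t A1 B1)⁻¹) * k.t * U *
        (algebraMap (EQ w t) E (pp w t A1 B1) * algebraMap (EQ w t) E (gB w t 1)) =
        algebraMap (EQ w t) E (v 0) * algebraMap (EQ w t) E (eps w t) := by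
      rw [← hκg, hty, map_mul, map_inv₀, map_mul]
      field_simp
    rw [add_mul, add_mul, h8]
    simp only [map_mul]
    ring
  rw [← h6]
  ring

theorem mem_omInf (hs : 1 + w ≠ 0) (hg : 3 ≤ g) (hg0 : (g : K) = 0) (hc0 : c ≠ 0)
    (hL1 : InL 1 (pp w t A1 B1)) (hLg : InL g (pp w t Ag Bg))
    (hP1 : QuadraticAlgebra.norm (pp w t A1 B1) = algebraMap K[X] (RatFunc K) P1)
    (hPg : QuadraticAlgebra.norm (pp w t Ag Bg) = algebraMap K[X] (RatFunc K) Pg)
    (hd1 : P1.natDegree = 1) (hdg : Pg.natDegree = 1)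
    (k : Tri (EQ w t) E g (algebraMap K (EQ w t) c * pp w t A1 B1) (pp w t Ag Bg))
    (v : Fin g → EQ w t) :
    elt k v ∈ omInf K E ↔ ∀ j : Fin g, InB (v j * gB w t j) := by
  classical
  have ht0 : k.t ≠ 0 := k.t_ne hg
  have hπ0 := HKt_pi_ne k
  -- the elements integral over `regInf`
  have h1 : elt k v ∈ omInf K E ↔ ∀ b : Fin g → EQ w t, (∀ i, InB (b i)) →
      RatFunc.X ^ 2 * Algebra.trace (RatFunc K) E (elt k v * ∑ i, algebraMap (EQ w t) E (b i) *
        (algebraMap (EQ w t) E (kap w t) * k.t⁻¹) ^ (i : ℕ)) ∈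
        (regInf K).toSubmodule.toAddSubmonoid := by
    constructor
    · intro h b hb
      exact h _ ((inf_iff hs hg hg0 hc0 hL1 hLg hP1 hPg hd1 hdg k b).mpr hb)
    · intro h a ha
      obtain ⟨b, rfl⟩ := exists_pwU k hg a
      exact h _ ((inf_iff hs hg hg0 hc0 hL1 hLg hP1 hPg hd1 hdg k b).mp ha)
  rw [h1, HKt_single k (elt k v)
    (fun i => (algebraMap (EQ w t) E (kap w t) * k.t⁻¹) ^ (i : ℕ)) InB InB_zero]
  -- duality over `B`
  have h2 : ∀ i : Fin g, (∀ a : EQ w t, InB a →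
      RatFunc.X ^ 2 * Algebra.trace (RatFunc K) (EQ w t) (Algebra.trace (EQ w t) E
        (elt k v * (algebraMap (EQ w t) E (kap w t) * k.t⁻¹) ^ (i : ℕ)) * a) ∈
        (regInf K).toSubmodule.toAddSubmonoid) ↔
      InB (Algebra.trace (EQ w t) E (elt k v *
        (algebraMap (EQ w t) E (kap w t) * k.t⁻¹) ^ (i : ℕ)) * WE w t) := by
    intro i
    exact dual_inf _
  rw [forall_congr' h2]
  -- the coefficients
  set β : Fin g → EQ w t := fun i =>
    if h : (i : ℕ) + 1 < g then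
      v ⟨i + 1, h⟩ * gB w t (i + 1) * (pp w t A1 B1 * gB w t 1)⁻¹ -
        (if (i : ℕ) = 0 then algebraMap K (EQ w t) c * v ⟨0, by omega⟩ else 0)
    else v ⟨0, by omega⟩ * (pp w t Ag Bg * gB w t g) * (pp w t A1 B1 * gB w t 1)⁻¹ with hβ
  have hβ0 : β ⟨0, by omega⟩ = v ⟨1, by omega⟩ * gB w t 1 * (pp w t A1 B1 * gB w t 1)⁻¹ -
      algebraMap K (EQ w t) c * v ⟨0, by omega⟩ := by
    have h3 : (0 : ℕ) + 1 < g := by omega
    rw [hβ]
    dsimp only
    rw [dif_pos h3, if_pos rfl]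
  have hβi : ∀ (i : ℕ) (hi : i + 1 < g), 1 ≤ i → β ⟨i, by omega⟩ =
      v ⟨i + 1, hi⟩ * gB w t (i + 1) * (pp w t A1 B1 * gB w t 1)⁻¹ := by
    intro i hi hi1
    rw [hβ]
    dsimp only
    rw [dif_pos hi, if_neg (by omega), sub_zero]
  have hβ1 : β ⟨g - 1, by omega⟩ = v ⟨0, by omega⟩ * (pp w t Ag Bg * gB w t g) *
      (pp w t A1 B1 * gB w t 1)⁻¹ := by
    have h3 : ¬ (g - 1 + 1 < g) := by omega
    rw [hβ]
    dsimp only
    rw [dif_neg h3]
  have hcoeff := HKt_coeff k hg v β hβ0 hβi hβ1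
  have h3 : ∀ i : ℕ, Algebra.trace (EQ w t) E (elt k v *
      (algebraMap (EQ w t) E (kap w t) * k.t⁻¹) ^ i) * WE w t =
      Algebra.trace (EQ w t) E (pwU k β *
        (algebraMap (EQ w t) E (kap w t) * k.t⁻¹) ^ i) := by
    intro i
    rw [mul_comm, ← smul_eq_mul, ← map_smul, Algebra.smul_def, ← hcoeff]
    congr 1
    ring
  have h4 := trace_coeffU hs hg hg0 hc0 hL1 hLg hP1 hPg hd1 hdg k β
  have h5 : (∀ i : Fin g, InB (Algebra.trace (EQ w t) E (elt k v *
      (algebraMap (EQ w t) E (kap w t) * k.t⁻¹) ^ (i : ℕ)) * WE w t)) ↔ ∀ i, InB (β i) := by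
    rw [← h4]
    constructor
    · intro h i hi
      have h6 := h ⟨i, hi⟩
      rw [h3] at h6
      exact h6
    · intro h i
      rw [h3]
      exact h i i.2
  rw [h5]
  -- the units
  obtain ⟨hη1, hη1'⟩ := unit_inf hs le_rfl hL1 hP1 hd1
  obtain ⟨hηg, hηg'⟩ := unit_inf hs (by omega) hLg hPg hdg
  have hη10 : pp w t A1 B1 * gB w t 1 ≠ 0 := by
    refine mul_ne_zero hπ0 ?_
    rw [HKt_gB le_rfl]
    exact mul_ne_zero eps_ne_zero (pow_ne_zero _ (inv_ne_zero
      (inv_ne_zero (mul_ne_zero (pow_ne_zero _ eps_ne_zero) xE_ne_zero))))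
  have hηg0 : pp w t Ag Bg * gB w t g ≠ 0 := by
    refine mul_ne_zero k.hf ?_
    rw [HKt_gB (by omega)]
    exact mul_ne_zero eps_ne_zero (pow_ne_zero _ (inv_ne_zero
      (inv_ne_zero (mul_ne_zero (pow_ne_zero _ eps_ne_zero) xE_ne_zero))))
  have hgB0 : gB w t 0 = 1 := by
    unfold gB
    rw [if_pos rfl]
  have hv0 : InB (v ⟨0, by omega⟩) ↔ InB (β ⟨g - 1, by omega⟩) := by
    rw [hβ1]
    constructor
    · intro h
      exact (h.mul hηg).mul hη1'
    · intro h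
      have h6 := (h.mul hη1).mul hηg'
      have e : v ⟨0, by omega⟩ * (pp w t Ag Bg * gB w t g) * (pp w t A1 B1 * gB w t 1)⁻¹ *
          (pp w t A1 B1 * gB w t 1) * (pp w t Ag Bg * gB w t g)⁻¹ = v ⟨0, by omega⟩ := by
        rw [inv_mul_cancel_right₀ hη10, mul_inv_cancel_right₀ hηg0]
      rw [e] at h6
      exact h6
  have hvi : ∀ (i : ℕ) (hi : i + 1 < g), InB (v ⟨i + 1, hi⟩ * gB w t (i + 1)) ↔
      InB (v ⟨i + 1, hi⟩ * gB w t (i + 1) * (pp w t A1 B1 * gB w t 1)⁻¹) := by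
    intro i hi
    constructor
    · intro h
      exact h.mul hη1'
    · intro h
      have h6 := h.mul hη1
      rw [inv_mul_cancel_right₀ hη10] at h6
      exact h6
  constructor
  · intro h j
    have hj0 : InB (v ⟨0, by omega⟩) := hv0.mpr (h _)
    obtain ⟨j, hj⟩ := j
    rcases Nat.eq_zero_or_pos j with h6 | h6
    · subst h6
      show InB (v ⟨0, _⟩ * gB w t 0)
      rw [hgB0, mul_one]
      exact hj0
    · obtain ⟨i, rfl⟩ : ∃ i, j = i + 1 := ⟨j - 1, by omega⟩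
      refine (hvi i hj).mpr ?_
      rcases Nat.eq_zero_or_pos i with h7 | h7
      · subst h7
        have h8 := h ⟨0, by omega⟩
        rw [hβ0] at h8
        have h9 := h8.add ((InB_const c).mul hj0)
        rw [sub_add_cancel] at h9
        exact h9
      · rw [← hβi i hj h7]
        exact h _
  · intro h i
    have hj0 : InB (v ⟨0, by omega⟩) := by
      have h6 := h ⟨0, by omega⟩
      have h7 : InB (v ⟨0, by omega⟩ * gB w t 0) := h6
      rw [hgB0, mul_one] at h7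
      exact h7
    obtain ⟨i, hi⟩ := i
    by_cases h6 : i + 1 < g
    · have h7 := (hvi i h6).mp (h ⟨i + 1, h6⟩)
      rcases Nat.eq_zero_or_pos i with h8 | h8
      · subst h8
        rw [hβ0]
        exact h7.sub ((InB_const c).mul hj0)
      · rw [hβi i h6 h8]
        exact h7
    · obtain rfl : i = g - 1 := by omega
      exact hv0.mp hj0

end

end Pool.Agent.GrT
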