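import Mathlib
import Pool.Agent.GrT.HKt
import Pool.Agent.GrE.HKb

/-!
The regular differentials of the curve `y^g + c h_1 y^(g-1) = h_g`, and its genus (2).
-/

set_option autoImplicit false

namespace Pool.Agent.GrT

open Polynomial Pool.Agent.GrE Pool.Agent.GrS

section

variable {K : Type*} [Field K] {w t : K} [Fact (∀ r : RatFunc K, r ^ 2 ≠ Nf w t + Tf w * r)]
  {E : Type*} [Field E] [Algebra (EQ w t) E] [Algebra K E] [Algebra K[X] E] [Algebra (RatFunc K) E]
  [IsScalarTower K (EQ w t) E] [IsScalarTower K[X] (EQ w t) E]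
  [IsScalarTower (RatFunc K) (EQ w t) E]
  {A1 B1 P1 Ag Bg Pg : K[X]} {g : ℕ} {c : K}

/-- As `GrE.mem_HK`. -/
theorem mem_HK [IsAlgClosed K] (hG : Good w t) (hg : 3 ≤ g) (hg0 : (g : K) = 0) (hc0 : c ≠ 0)
    (hL1 : InL 1 (pp w t A1 B1)) (hLg : InL g (pp w t Ag Bg))
    (hP1 : QuadraticAlgebra.norm (pp w t A1 B1) = algebraMap K[X] (RatFunc K) P1)
    (hPg : QuadraticAlgebra.norm (pp w t Ag Bg) = algebraMap K[X] (RatFunc K) Pg)
    (hd1 : P1.natDegree = 1) (hdg : Pg.natDegree = 1) (q : Pt w t A1 B1 Ag Bg)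
    (hc : ∀ y : K, y ^ g = Ag.eval q.e + Bg.eval q.e * q.n →
      q.A'.eval q.e + q.B'.eval q.e * q.n ≠ c * y ^ (g - 1))
    (k : Tri (EQ w t) E g (algebraMap K (EQ w t) c * pp w t A1 B1) (pp w t Ag Bg))
    (v : Fin g → EQ w t) : elt k v ∈ HK K E 1 ↔ ∀ j : Fin g, InL (j : ℕ) (v j) := by
  have : IsScalarTower K (RatFunc K) E := by
    refine IsScalarTower.of_algebraMap_eq fun c => ?_
    rw [IsScalarTower.algebraMap_apply K (EQ w t) E,
      IsScalarTower.algebraMap_apply (RatFunc K) (EQ w t) E,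
      IsScalarTower.algebraMap_apply K (RatFunc K) (EQ w t)]
  rw [HKb_mem, mem_omFin hG hg hg0 hc0 hP1 hPg hd1 hdg q hc k v,
    mem_omInf hG.s_ne hg hg0 hc0 hL1 hLg hP1 hPg hd1 hdg k v, ← forall_and]
  exact Iff.rfl

omit [Fact (∀ r : RatFunc K, r ^ 2 ≠ Nf w t + Tf w * r)] in
private lemma HKu_WE : WE w t ≠ 0 := by
  intro h
  have h1 := congrArg QuadraticAlgebra.re h
  have h2 : -Tf w = 0 := h1
  have h3 : TT w = 0 := by
    apply RatFunc.algebraMap_injective K
    rw [map_zero, ← neg_eq_zero]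
    exact h2
  rw [TT] at h3
  exact mul_ne_zero X_ne_zero (X_sub_C_ne_zero _) h3

private lemma HKu_scal {j : ℕ} (c : K) {u : EQ w t} (hu : InL j u) :
    InL j (algebraMap K (EQ w t) c * u) := by
  refine ⟨?_, ?_⟩
  · obtain ⟨A, B, rfl⟩ := hu.1
    refine ⟨C c * A, C c * B, ?_⟩
    rw [← Nor_algebraMap_mul, IsScalarTower.algebraMap_apply K K[X] (EQ w t)]
    rfl
  · rw [mul_assoc]
    exact (InB_const c).mul hu.2

/-- As `GrE.genus_eq`. -/
theorem genus_eq [IsAlgClosed K] (hG : Good w t) (hg : 3 ≤ g) (hg0 : (g : K) = 0) (hc0 : c ≠ 0)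
    (hL1 : InL 1 (pp w t A1 B1)) (hLg : InL g (pp w t Ag Bg))
    (hP1 : QuadraticAlgebra.norm (pp w t A1 B1) = algebraMap K[X] (RatFunc K) P1)
    (hPg : QuadraticAlgebra.norm (pp w t Ag Bg) = algebraMap K[X] (RatFunc K) Pg)
    (hd1 : P1.natDegree = 1) (hdg : Pg.natDegree = 1) (q : Pt w t A1 B1 Ag Bg)
    (hc : ∀ y : K, y ^ g = Ag.eval q.e + Bg.eval q.e * q.n →
      q.A'.eval q.e + q.B'.eval q.e * q.n ≠ c * y ^ (g - 1))
    (k : Tri (EQ w t) E g (algebraMap K (EQ w t) c * pp w t A1 B1) (pp w t Ag Bg)) :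
    genus K E = g := by
  have hex : ∀ j : Fin g, ∃ u : EQ w t, u ≠ 0 ∧ InL (j : ℕ) u := by
    intro j
    obtain ⟨A', B', h1, h2⟩ := exists_L (w := w) (t := t) hG.s_ne (j : ℕ)
    refine ⟨pp w t A' B', ?_, h2⟩
    intro h0
    have h3 : pp w t A' B' = pp w t 0 0 := by
      rw [h0, ← Nor_algebraMap, map_zero]
    obtain ⟨e1, e2⟩ := Nor_pp_inj h3
    rcases h1 with h1 | h1
    · exact h1 e1
    · exact h1 e2
  choose h hne hhL using hex
  set z : E := algebraMap (EQ w t) E ((pp w t A1 B1 * WE w t)⁻¹) with hz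
  set e : Fin g → E := fun j => z * (algebraMap (EQ w t) E (h j) * (k.t * (k.t ^ (j : ℕ))⁻¹))
    with he
  have hcomb : ∀ x : Fin g → K, Fintype.linearCombination K e x =
      elt k (fun j => algebraMap K (EQ w t) (x j) * h j) := by
    intro x
    rw [Fintype.linearCombination_apply, elt, Finset.mul_sum]
    refine Finset.sum_congr rfl fun j _ => ?_
    rw [Algebra.smul_def, IsScalarTower.algebraMap_apply K (EQ w t) E, he, map_mul _
      (algebraMap K (EQ w t) (x j))]
    ring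
  have hinj : Function.Injective (Fintype.linearCombination K e) := by
    rw [← LinearMap.ker_eq_bot, LinearMap.ker_eq_bot']
    intro x hx
    rw [hcomb] at hx
    have h0 : elt k (fun _ => (0 : EQ w t)) = 0 := by
      rw [elt, Finset.sum_eq_zero, mul_zero]
      intro j _
      rw [map_zero, zero_mul]
    rw [← h0] at hx
    have h1 := elt_injective k hg hx
    funext j
    have h2 := congrFun h1 j
    have h3 := (mul_eq_zero.mp h2).resolve_right (hne j)
    exact (map_eq_zero _).mp h3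
  have hrange : LinearMap.range (Fintype.linearCombination K e) = HK K E 1 := by
    ext x
    constructor
    · rintro ⟨y, rfl⟩
      rw [hcomb, mem_HK hG hg hg0 hc0 hL1 hLg hP1 hPg hd1 hdg q hc k]
      intro j
      exact HKu_scal _ (hhL j)
    · intro hx
      obtain ⟨f, rfl⟩ := exists_elt k hg x
      rw [mem_HK hG hg hg0 hc0 hL1 hLg hP1 hPg hd1 hdg q hc k] at hx
      have h1 : ∀ j : Fin g, ∃ x : K, f j = algebraMap K (EQ w t) x * h j :=
        fun j => uniq_L hG.s_ne (hx j) (hhL j) (hne j)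
      choose x hx' using h1
      refine ⟨x, ?_⟩
      rw [hcomb]
      congr 1
      funext j
      exact (hx' j).symm
  rw [genus, ← hrange, LinearMap.finrank_range_of_inj hinj, Module.finrank_fin_fun]

end

end Pool.Agent.GrT
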