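import Mathlib
import Pool.Agent.GrE.RedE
import Pool.Agent.GrP.Nodal

/-!
The reduction of the curve `y^g + c h_1 y^(g-1) = h_g`: `y = z μ`, `μ = N/D`, `N = z^g + c (1+w) z^(g-1) - [g+1]`, `D = c z^(g-1) - [g]`.
The nodes are `τ ~ w τ`, `A(τ) = 0`, `A = z^g + c z^(g-1) - 1`.
-/

set_option autoImplicit false

namespace Pool.Agent.GrT

open Polynomial Pool.Agent.GrE Pool.Agent.GrP

variable {k : Type*} [Field k]

/-- `A = z^g + c z^(g-1) - 1`. -/
noncomputable def AP (c : k) (g : ℕ) : k[X] := X ^ g + C c * X ^ (g - 1) - 1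

/-- `w^g A(z/w) = z^g + c w z^(g-1) - w^g`. -/
noncomputable def AW (w c : k) (g : ℕ) : k[X] := X ^ g + C (c * w) * X ^ (g - 1) - C (w ^ g)

/-- `D = c z^(g-1) - [g]`. -/
noncomputable def DP (w c : k) (g : ℕ) : k[X] := C c * X ^ (g - 1) - C (br w g)

/-- `N = z^g + c (1+w) z^(g-1) - [g+1]`. -/
noncomputable def NP (w c : k) (g : ℕ) : k[X] :=
  X ^ g + C (c * (1 + w)) * X ^ (g - 1) - C (br w (g + 1))

/-- `μ = N/D`. -/
noncomputable def M3 (w c : k) (g : ℕ) : RatFunc k :=
  algebraMap k[X] (RatFunc k) (NP w c g) / algebraMap k[X] (RatFunc k) (DP w c g)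

theorem Redt_br (w : k) (n : ℕ) : (1 - w) * br w n = 1 - w ^ n := by
  unfold br
  have := geom_sum_mul_neg w n
  rw [mul_comm]
  exact this

theorem Redt_brC (w : k) (n : ℕ) : br (RatFunc.C w : RatFunc k) n = RatFunc.C (br w n) := by
  unfold br
  rw [map_sum]
  refine Finset.sum_congr rfl fun i _ => ?_
  rw [map_pow]

/-- `(1 - w) D = A - w^g A(z/w)`, `(1 - w) N = A - w · w^g A(z/w)`. -/
theorem DP_eq (w c : k) {g : ℕ} (hg : 1 ≤ g) : C (1 - w) * DP w c g = AP c g - AW w c g := by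
  have h := congrArg (C : k → k[X]) (Redt_br w g)
  unfold DP AP AW
  simp only [map_sub, map_one, map_mul, map_pow] at h ⊢
  linear_combination -h

theorem NP_eq (w c : k) {g : ℕ} (hg : 1 ≤ g) : C (1 - w) * NP w c g = AP c g - C w * AW w c g := by
  have h := congrArg (C : k → k[X]) (Redt_br w (g + 1))
  unfold NP AP AW
  simp only [map_sub, map_one, map_mul, map_pow, map_add] at h ⊢
  linear_combination -h

theorem Redt_br_succ (w : k) (g : ℕ) : br w (g + 1) = br w g + w ^ g := by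
  unfold br
  rw [Finset.sum_range_succ]

theorem Redt_DP_degree (w : k) {c : k} (hc : c ≠ 0) {g : ℕ} (hg : 3 ≤ g) :
    (DP w c g).degree = ((g - 1 : ℕ) : WithBot ℕ) := by
  unfold DP
  have h1 : (C c * X ^ (g - 1) : k[X]).degree = ((g - 1 : ℕ) : WithBot ℕ) :=
    degree_C_mul_X_pow (g - 1) hc
  rw [degree_sub_eq_left_of_degree_lt]
  · exact h1
  · rw [h1]
    refine lt_of_le_of_lt degree_C_le ?_
    rw [← Nat.cast_zero]
    exact Nat.cast_lt.2 (by omega)

theorem Redt_DP_ne (w : k) {c : k} (hc : c ≠ 0) {g : ℕ} (hg : 3 ≤ g) : DP w c g ≠ 0 := by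
  intro h
  have := Redt_DP_degree w hc hg
  rw [h, degree_zero] at this
  exact absurd this.symm (by simp)

theorem Redt_AP_degree (c : k) {g : ℕ} (hg : 3 ≤ g) : (AP c g).natDegree = g ∧ (AP c g).Monic := by
  have h : AP c g = X ^ g + (C c * X ^ (g - 1) - 1) := by
    unfold AP
    ring
  have hd : (C c * X ^ (g - 1) - 1 : k[X]).degree < (g : WithBot ℕ) := by
    refine lt_of_le_of_lt (degree_sub_le _ _) (max_lt ?_ ?_)
    · refine lt_of_le_of_lt (degree_C_mul_X_pow_le (g - 1) c) ?_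
      exact Nat.cast_lt.2 (by omega)
    · refine lt_of_le_of_lt degree_one_le ?_
      rw [← Nat.cast_zero]
      exact Nat.cast_lt.2 (by omega)
  have hm : (AP c g).Monic := by
    rw [h]
    exact monic_X_pow_add hd
  refine ⟨?_, hm⟩
  rw [h]
  apply natDegree_eq_of_degree_eq_some
  rw [degree_add_eq_left_of_degree_lt (by rw [degree_X_pow]; exact hd), degree_X_pow]

theorem Redt_AW_monic (w c : k) {g : ℕ} (hg : 3 ≤ g) : (AW w c g).Monic := by
  have h : AW w c g = X ^ g + (C (c * w) * X ^ (g - 1) - C (w ^ g)) := by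
    unfold AW
    ring
  have hd : (C (c * w) * X ^ (g - 1) - C (w ^ g) : k[X]).degree < (g : WithBot ℕ) := by
    refine lt_of_le_of_lt (degree_sub_le _ _) (max_lt ?_ ?_)
    · refine lt_of_le_of_lt (degree_C_mul_X_pow_le (g - 1) _) ?_
      exact Nat.cast_lt.2 (by omega)
    · refine lt_of_le_of_lt degree_C_le ?_
      rw [← Nat.cast_zero]
      exact Nat.cast_lt.2 (by omega)
  rw [h]
  exact monic_X_pow_add hd

theorem Redt_mul (w : k) {c : k} (hc : c ≠ 0) {g : ℕ} (hg : 3 ≤ g) :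
    M3 w c g * algebraMap k[X] (RatFunc k) (DP w c g) =
      algebraMap k[X] (RatFunc k) (NP w c g) := by
  unfold M3
  refine div_mul_cancel₀ _ ?_
  rw [Ne, map_eq_zero_iff _ (IsFractionRing.injective k[X] (RatFunc k))]
  exact Redt_DP_ne w hc hg

/-- By degrees: `N` has degree `g`, `D` degree `g - 1`; compare `RedE_transc`. -/
theorem M3_transc (w : k) {c : k} (hc : c ≠ 0) {g : ℕ} (hg : 3 ≤ g) :
    ∀ P : k[X], P.eval₂ RatFunc.C (M3 w c g) = 0 → P = 0 := by
  intro P hP
  refine RedE_transc ?_ P hP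
  intro q hq
  have h1 : q * DP w c g = NP w c g := by
    apply IsFractionRing.injective k[X] (RatFunc k)
    rw [map_mul, hq]
    exact Redt_mul w hc hg
  have h2 : DP w c g ∣ C (c⁻¹ * br w g) * X + C ((1 + w) * br w g - br w (g + 1)) := by
    refine ⟨q - (C c⁻¹ * X + C (1 + w)), ?_⟩
    have hX : (X : k[X]) ^ g = X * X ^ (g - 1) := by
      rw [← pow_succ']
      congr 1
      omega
    have hcc : (C c * C c⁻¹ : k[X]) = 1 := by
      rw [← C_mul, mul_inv_cancel₀ hc, C_1]
    have h3 : DP w c g * (q - (C c⁻¹ * X + C (1 + w))) =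
        NP w c g - DP w c g * (C c⁻¹ * X + C (1 + w)) := by
      rw [← h1]
      ring
    rw [h3]
    unfold NP DP
    rw [hX]
    simp only [C_mul, C_add, C_sub, C_1]
    linear_combination (X * X ^ (g - 1)) * hcc
  have h4 := eq_zero_of_dvd_of_degree_lt h2 (by
    rw [Redt_DP_degree w hc hg]
    refine lt_of_le_of_lt degree_linear_le ?_
    rw [← Nat.cast_one]
    exact Nat.cast_lt.2 (by omega))
  have h5 := congrArg (fun p => coeff p 1) h4
  have h6 := congrArg (fun p => coeff p 0) h4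
  simp only [coeff_add, coeff_C_mul, coeff_X_one, coeff_C_succ, coeff_zero, mul_one, add_zero,
    coeff_X_zero, mul_zero, coeff_C_zero, zero_add] at h5 h6
  have h7 : br w g = 0 := by
    rcases mul_eq_zero.1 h5 with h | h
    · exact absurd h (inv_ne_zero hc)
    · exact h
  rw [Redt_br_succ, h7, mul_zero, zero_add, zero_sub, neg_eq_zero] at h6
  have hw : w = 0 := by
    exact pow_eq_zero_iff (by omega) |>.1 h6
  have h8 := Redt_br w g
  rw [h7, hw, zero_pow (by omega), mul_zero, sub_zero] at h8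
  exact one_ne_zero h8.symm

/-- The equation of the reduction. -/
theorem M3_eq {w c : k} (hc : c ≠ 0) {g : ℕ} (hg : 3 ≤ g) :
    (RatFunc.X * M3 w c g) ^ g + RatFunc.C c * hm (RatFunc.C w) (M3 w c g) 1 *
      (RatFunc.X * M3 w c g) ^ (g - 1) = hm (RatFunc.C w) (M3 w c g) g := by
  have h := Redt_mul w hc hg
  have h2 : br w 2 = 1 + w := by
    unfold br
    rw [Finset.sum_range_succ, Finset.sum_range_one, pow_zero, pow_one]
  have h1 : br w 1 = 1 := by
    unfold br
    rw [Finset.sum_range_one, pow_zero]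
  have hg1 : g = (g - 1) + 1 := by omega
  unfold hm
  rw [Redt_brC, Redt_brC, Redt_brC, Redt_brC, h2, h1]
  unfold DP NP at h
  simp only [map_sub, map_mul, map_add, map_pow, RatFunc.algebraMap_X, RatFunc.algebraMap_C,
    map_one] at h ⊢
  rw [mul_pow, mul_pow]
  generalize M3 w c g = M at *
  have e1 : M ^ g = M ^ (g - 1) * M := by
    rw [← pow_succ]
    congr 1
  rw [e1]
  linear_combination (-(M ^ (g - 1) * M)) * h

/-- Proof.  `μ = N/D`, `(1 - w) ([j+1] D - [j] N) = w^j A - AW` (`AW = w^g A(z/w)`), `D (μ - 1) = N - D = AW` up to ..: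
`(1 - w)(N - D) = (1 - w) AW`, `(1 - w)(N - w D) = (1 - w) A`; `D (1 + w - μ) = 1 - [g] - z^g`; `h_1 = μ (1 + w - μ)`.
`u = - D² / ((1 - w) z^(g-2) (1 - [g] - z^g) (1 - w/μ²))` up to sign: both sides are
`z^(g-1-j) (AW - w^j A)/(A · AW)` times `u`. -/
theorem form3 {w c : k} (hc : c ≠ 0) (hw0 : w ≠ 0) {g : ℕ} (hg : 3 ≤ g)
    (hw : ∀ i, 1 ≤ i → i ≤ g + 1 → w ^ i ≠ 1) :
    ∃ u : RatFunc k, u ≠ 0 ∧ ∀ j < g,
      (hm (RatFunc.C w) (M3 w c g) 1 * ((M3 w c g - 1) * (M3 w c g - RatFunc.C w) *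
          (1 - RatFunc.C w / (M3 w c g) ^ 2)))⁻¹ *
        (hm (RatFunc.C w) (M3 w c g) j * (RatFunc.X * M3 w c g *
          ((RatFunc.X * M3 w c g) ^ j)⁻¹)) =
      u * (RatFunc.X ^ (g - 1 - j) / algebraMap k[X] (RatFunc k) (AP c g) -
        RatFunc.C (w ^ j) * RatFunc.X ^ (g - 1 - j) / algebraMap k[X] (RatFunc k) (AW w c g)) := by
  have hinj := IsFractionRing.injective k[X] (RatFunc k)
  have hw1 : 1 - w ≠ 0 := by
    intro h
    have := hw 1 le_rfl (by omega)
    rw [pow_one] at this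
    exact this (sub_eq_zero.1 h).symm
  have hC1 : (RatFunc.C (1 - w) : RatFunc k) ≠ 0 := by
    rwa [Ne, map_eq_zero_iff _ RatFunc.C_injective]
  have hX0 : (RatFunc.X : RatFunc k) ≠ 0 := RatFunc.X_ne_zero
  have hA0 : algebraMap k[X] (RatFunc k) (AP c g) ≠ 0 := by
    rw [Ne, map_eq_zero_iff _ hinj]
    exact (Redt_AP_degree c hg).2.ne_zero
  have hW0 : algebraMap k[X] (RatFunc k) (AW w c g) ≠ 0 := by
    rw [Ne, map_eq_zero_iff _ hinj]
    exact (Redt_AW_monic w c hg).ne_zero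
  have hD0 : algebraMap k[X] (RatFunc k) (DP w c g) ≠ 0 := by
    rw [Ne, map_eq_zero_iff _ hinj]
    exact Redt_DP_ne w hc hg
  have hM0 : M3 w c g ≠ 0 := by
    intro h
    have := M3_transc w hc hg X (by rw [eval₂_X, h])
    exact X_ne_zero this
  have hM1 : RatFunc.C (1 + w) - M3 w c g ≠ 0 := by
    intro h
    have := M3_transc w hc hg (C (1 + w) - X) (by rw [eval₂_sub, eval₂_C, eval₂_X, h])
    rw [sub_eq_zero] at this
    have h2 := congrArg (fun p => coeff p 1) this
    simp only [coeff_C_succ, coeff_X_one] at h2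
    exact zero_ne_one h2
  have hM2 : (M3 w c g) ^ 2 - RatFunc.C w ≠ 0 := by
    intro h
    have := M3_transc w hc hg (X ^ 2 - C w) (by rw [eval₂_sub, eval₂_C, eval₂_X_pow, h])
    exact X_pow_sub_C_ne_zero (by norm_num) w this
  have hMD := Redt_mul w hc hg
  have hD := congrArg (algebraMap k[X] (RatFunc k)) (DP_eq w c (g := g) (by omega))
  have hN := congrArg (algebraMap k[X] (RatFunc k)) (NP_eq w c (g := g) (by omega))
  simp only [map_mul, map_sub, RatFunc.algebraMap_C, map_one] at hD hN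
  have hb1 : br w 1 = 1 := by
    unfold br
    rw [Finset.sum_range_one, pow_zero]
  have hb2 : br w 2 = 1 + w := by
    unfold br
    rw [Finset.sum_range_succ, Finset.sum_range_one, pow_zero, pow_one]
  refine ⟨- (algebraMap k[X] (RatFunc k) (DP w c g)) * (M3 w c g) ^ 2 /
    (RatFunc.C (1 - w) * RatFunc.X ^ (g - 2) * (RatFunc.C (1 + w) - M3 w c g) *
      ((M3 w c g) ^ 2 - RatFunc.C w)), ?_, ?_⟩
  · refine div_ne_zero (mul_ne_zero (neg_ne_zero.2 hD0) (pow_ne_zero _ hM0)) ?_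
    exact mul_ne_zero (mul_ne_zero (mul_ne_zero hC1 (pow_ne_zero _ hX0)) hM1) hM2
  · intro j hj
    have q : ∀ n : ℕ, RatFunc.C (1 - w) * RatFunc.C (br w n) = 1 - (RatFunc.C w : RatFunc k) ^ n := by
      intro n
      rw [← map_mul, Redt_br, map_sub, map_one, map_pow]
    have q0 := q j
    have q1 := q (j + 1)
    have hw' : (RatFunc.C (1 - w) : RatFunc k) = 1 - RatFunc.C w := by rw [map_sub, map_one]
    have hw'' : (RatFunc.C (1 + w) : RatFunc k) = 1 + RatFunc.C w := by rw [map_add, map_one]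
    have hXp : (RatFunc.X : RatFunc k) ^ (g - 1 - j) * RatFunc.X ^ j =
        RatFunc.X ^ (g - 2) * RatFunc.X := by
      rw [← pow_add, ← pow_succ]
      congr 1
      omega
    unfold hm
    rw [Redt_brC, Redt_brC, Redt_brC, Redt_brC, hb2, hb1]
    rw [map_pow RatFunc.C w j]
    rw [map_one RatFunc.C]
    rw [mul_pow RatFunc.X _ j, pow_one, one_mul]
    have hMj : (M3 w c g) ^ j ≠ 0 := pow_ne_zero _ hM0
    have hXj : (RatFunc.X : RatFunc k) ^ j ≠ 0 := pow_ne_zero _ hX0
    have hXg : (RatFunc.X : RatFunc k) ^ (g - 2) ≠ 0 := pow_ne_zero _ hX0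
    generalize algebraMap k[X] (RatFunc k) (AP c g) = A at *
    generalize algebraMap k[X] (RatFunc k) (AW w c g) = W at *
    generalize algebraMap k[X] (RatFunc k) (DP w c g) = D at *
    generalize algebraMap k[X] (RatFunc k) (NP w c g) = N at *
    generalize M3 w c g = M at *
    have hXp' : (RatFunc.X : RatFunc k) ^ (g - 1 - j) =
        RatFunc.X ^ (g - 2) * RatFunc.X / RatFunc.X ^ j := by
      rw [eq_div_iff hXj]
      exact hXp
    rw [hXp']
    generalize (RatFunc.X : RatFunc k) ^ (g - 2) = U at *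
    generalize (RatFunc.X : RatFunc k) ^ j = Y at *
    generalize (RatFunc.X : RatFunc k) = x at *
    generalize hPdef : M ^ j = P at *
    rw [hw''] at hM1 ⊢
    rw [hw'] at hC1 q0 q1 ⊢
    -- `M - 1 = W/D`, `M - w = A/D`
    have e1 : M - 1 = W / D := by
      rw [eq_div_iff hD0]
      apply mul_left_cancel₀ hC1
      linear_combination (1 - RatFunc.C w) * hMD + hN - hD
    have e2 : M - RatFunc.C w = A / D := by
      rw [eq_div_iff hD0]
      apply mul_left_cancel₀ hC1
      linear_combination (1 - RatFunc.C w) * hMD + hN - RatFunc.C w * hD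
    have e3 : RatFunc.C (br w (j + 1)) - RatFunc.C (br w j) * M =
        (RatFunc.C w ^ j * A - W) / ((1 - RatFunc.C w) * D) := by
      rw [eq_div_iff (mul_ne_zero hC1 hD0)]
      apply mul_left_cancel₀ hC1
      rw [pow_succ] at q1
      linear_combination ((1 - RatFunc.C w) * D) * q1 - (1 - RatFunc.C w) * M * D * q0 +
        (1 - RatFunc.C w ^ j * RatFunc.C w) * hD -
        (1 - RatFunc.C w ^ j) * ((1 - RatFunc.C w) * hMD + hN)
    have e4 : 1 - RatFunc.C w / M ^ 2 = (M ^ 2 - RatFunc.C w) / M ^ 2 := by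
      field_simp
    rw [e1, e2, e3, e4]
    generalize M ^ 2 - RatFunc.C w = R at *
    generalize 1 + RatFunc.C w - M = S at *
    generalize (1 - RatFunc.C w : RatFunc k) = T at *
    generalize (RatFunc.C w : RatFunc k) ^ j = Z at *
    field_simp
    ring

/-- Proof: `β` = the coefficients of `Q = A/(z - τ)`: `∑ β_s z^s/A = 1/(z - τ)`, and with `z/w` for `z`:
`∑ β_s w^(g-1-s) z^s/AW = w^(g-1) Q(z/w)/AW = 1/(z - w τ)`. -/
theorem dft3 {w c : k} (hw0 : w ≠ 0) {g : ℕ} (hg : 3 ≤ g) (τ : k) (hτ : (AP c g).eval τ = 0) :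
    ∃ β : Fin g → k, ∑ j : Fin g, RatFunc.C (β j) *
      (RatFunc.X ^ (g - 1 - (j : ℕ)) / algebraMap k[X] (RatFunc k) (AP c g) -
        RatFunc.C (w ^ (j : ℕ)) * RatFunc.X ^ (g - 1 - (j : ℕ)) /
          algebraMap k[X] (RatFunc k) (AW w c g)) = om τ (w * τ) := by
  have hinj := IsFractionRing.injective k[X] (RatFunc k)
  obtain ⟨hAd, hAm⟩ := Redt_AP_degree c hg
  have hA0 : algebraMap k[X] (RatFunc k) (AP c g) ≠ 0 := by
    rw [Ne, map_eq_zero_iff _ hinj]
    exact hAm.ne_zero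
  have hW0 : algebraMap k[X] (RatFunc k) (AW w c g) ≠ 0 := by
    rw [Ne, map_eq_zero_iff _ hinj]
    exact (Redt_AW_monic w c hg).ne_zero
  obtain ⟨Q, hQ⟩ := dvd_iff_isRoot.2 hτ
  have hQ0 : Q ≠ 0 := by
    rintro rfl
    rw [mul_zero] at hQ
    exact hAm.ne_zero hQ
  have hQd : Q.natDegree = g - 1 := by
    have h := congrArg natDegree hQ
    rw [hAd, natDegree_mul (X_sub_C_ne_zero τ) hQ0, natDegree_X_sub_C] at h
    omega
  have hsc : scaleRoots (AP c g) w = AW w c g := by
    ext i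
    rw [coeff_scaleRoots, hAd]
    unfold AP AW
    simp only [coeff_add, coeff_sub, coeff_C_mul, coeff_X_pow, coeff_one, coeff_C]
    rcases eq_or_ne i g with hi | hi
    · subst hi
      have h1 : ¬ (i = i - 1) := by omega
      have h2 : ¬ (i = 0) := by omega
      simp [h1, h2]
    · rcases eq_or_ne i (g - 1) with hj | hj
      · have h2 : ¬ (i = 0) := by omega
        have h3 : g - i = 1 := by omega
        rw [if_neg hi, if_pos hj, if_neg h2, if_neg h2, h3]
        ring
      · rcases eq_or_ne i 0 with h0 | h0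
        · subst h0
          simp [hi, hj]
        · simp [hi, hj, h0]
  have hsX : scaleRoots (X - C τ) w = X - C (w * τ) := by
    ext i
    rw [coeff_scaleRoots, natDegree_X_sub_C]
    simp only [coeff_sub, coeff_X, coeff_C]
    rcases i with _ | _ | i
    · simp
      ring
    · simp
    · simp
  have hWQ : AW w c g = (X - C (w * τ)) * scaleRoots Q w := by
    rw [← hsc, ← hsX, hQ]
    exact mul_scaleRoots_of_noZeroDivisors _ _ _
  have hsum : ∀ P : k[X], P.natDegree = g - 1 → ∑ j : Fin g, RatFunc.C (P.coeff (g - 1 - (j : ℕ))) *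
      RatFunc.X ^ (g - 1 - (j : ℕ)) = algebraMap k[X] (RatFunc k) P := by
    intro P hP
    have h := P.as_sum_range' g (by omega)
    conv_rhs => rw [h]
    rw [map_sum, Fin.sum_univ_eq_sum_range (fun j => RatFunc.C (P.coeff (g - 1 - j)) *
      (RatFunc.X : RatFunc k) ^ (g - 1 - j)) g]
    rw [Finset.sum_range_reflect (fun j => RatFunc.C (P.coeff j) * (RatFunc.X : RatFunc k) ^ j) g]
    refine Finset.sum_congr rfl fun i _ => ?_
    rw [← C_mul_X_pow_eq_monomial, map_mul, map_pow, RatFunc.algebraMap_X, RatFunc.algebraMap_C]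
  refine ⟨fun j => Q.coeff (g - 1 - (j : ℕ)), ?_⟩
  have e1 := hsum Q hQd
  have e2 := hsum (scaleRoots Q w) (by rw [natDegree_scaleRoots, hQd])
  have e3 : ∑ j : Fin g, RatFunc.C (Q.coeff (g - 1 - (j : ℕ))) *
      (RatFunc.C (w ^ (j : ℕ)) * RatFunc.X ^ (g - 1 - (j : ℕ))) =
        algebraMap k[X] (RatFunc k) (scaleRoots Q w) := by
    rw [← e2]
    refine Finset.sum_congr rfl fun j _ => ?_
    rw [coeff_scaleRoots, hQd, map_mul, mul_assoc]
    congr 3
    have := j.2
    have h3 : g - 1 - (g - 1 - (j : ℕ)) = j := by omega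
    rw [h3]
  simp only [mul_sub, Finset.sum_sub_distrib]
  simp only [← mul_div_assoc]
  rw [← Finset.sum_div, ← Finset.sum_div, e1, e3]
  unfold om
  congr 1
  · rw [hQ, map_mul, map_sub, RatFunc.algebraMap_X, RatFunc.algebraMap_C]
    rw [hQ, map_mul, map_sub, RatFunc.algebraMap_X, RatFunc.algebraMap_C] at hA0
    have h1 := left_ne_zero_of_mul hA0
    have h2 := right_ne_zero_of_mul hA0
    field_simp
  · rw [hWQ, map_mul, map_sub, RatFunc.algebraMap_X, RatFunc.algebraMap_C]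
    rw [hWQ, map_mul, map_sub, RatFunc.algebraMap_X, RatFunc.algebraMap_C] at hW0
    have h1 := left_ne_zero_of_mul hW0
    have h2 := right_ne_zero_of_mul hW0
    field_simp

end Pool.Agent.GrT
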