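import Mathlib
import Pool.Agent.GrT.Redt

/-!
The choice of `c`.
-/

set_option autoImplicit false

namespace Pool.Agent.GrT

open Polynomial Pool.Agent.GrE

variable {k : Type*} [Field k]

private lemma Part_br {R : Type*} [CommRing R] (w : R) (n : ℕ) : br w (n + 1) = 1 + w * br w n := by
  unfold br
  rw [Finset.sum_range_succ', Finset.mul_sum, add_comm]
  congr 1
  · rw [pow_zero]
  · exact Finset.sum_congr rfl fun i _ => by rw [pow_succ]; ring

/-- Proof: modulo `D`, `N ≡ z^g + [g] - 1` (`(1+w)[g] - [g+1] = [g] - 1`).  A common root (in an algebraic closure) has `c z^(g-1) = [g]`, `z^g = 1 - [g]`,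
so `[g]^g = c^g z^(g(g-1)) = c^g (1 - [g])^(g-1)`. -/
theorem coprime_ND {w c : k} {g : ℕ} (hg : 3 ≤ g)
    (h : c ^ g * (1 - br w g) ^ (g - 1) ≠ br w g ^ g) : IsCoprime (NP w c g) (DP w c g) := by
  rw [Polynomial.isCoprime_iff_aeval_ne_zero_of_isAlgClosed k (AlgebraicClosure k)]
  intro z
  by_contra hcon
  push Not at hcon
  obtain ⟨h1, h2⟩ := hcon
  unfold NP at h1
  unfold DP at h2
  simp only [map_sub, map_add, map_mul, map_pow, aeval_X, aeval_C] at h1 h2
  set φ := algebraMap k (AlgebraicClosure k) with hφ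
  have e1 : φ c * z ^ (g - 1) = φ (br w g) := by linear_combination h2
  have e2 : z ^ g = 1 - φ (br w g) := by
    rw [Part_br] at h1
    simp only [map_add, map_one, map_mul] at h1
    linear_combination h1 - (1 + φ w) * e1
  apply h
  apply φ.injective
  simp only [map_mul, map_pow, map_sub, map_one]
  rw [← e2, ← e1, mul_pow, ← pow_mul, ← pow_mul, mul_comm g (g - 1)]

/-- Finitely many `c` are excluded (`[g] ≠ 0`). -/
theorem exists_c [Infinite k] {w : k} {g : ℕ} (hg : 3 ≤ g) (hbr : br w g ≠ 0) :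
    ∃ c : k, c ≠ 0 ∧ c ^ g * (1 - br w g) ^ (g - 1) ≠ br w g ^ g := by
  by_contra hcon
  push Not at hcon
  have h1 : (X * (C ((1 - br w g) ^ (g - 1)) * X ^ g - C (br w g ^ g)) : k[X]) = 0 := by
    apply Polynomial.zero_of_eval_zero
    intro x
    rw [eval_mul, eval_X]
    by_cases hx : x = 0
    · rw [hx, zero_mul]
    · rw [eval_sub, eval_mul, eval_C, eval_C, eval_pow, eval_X, ← hcon x hx]
      ring
  rcases mul_eq_zero.mp h1 with h2 | h2
  · exact X_ne_zero h2
  · have h3 := congrArg (fun p => p.coeff 0) h2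
    simp only [coeff_sub, coeff_C_mul, coeff_X_pow, coeff_C_zero, coeff_zero] at h3
    rw [if_neg (by omega), mul_zero, zero_sub, neg_eq_zero] at h3
    exact hbr (pow_eq_zero_iff (by omega : g ≠ 0) |>.mp h3)

private lemma Part_natDegree (c : k) {g : ℕ} (hg : 3 ≤ g) : (AP c g).natDegree = g ∧ AP c g ≠ 0 := by
  have h1 : (AP c g) = X ^ g + (C c * X ^ (g - 1) - 1) := by
    unfold AP
    ring
  have h2 : (C c * X ^ (g - 1) - 1 : k[X]).degree < g := by
    refine lt_of_le_of_lt (degree_sub_le _ _) (max_lt ?_ ?_)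
    · refine lt_of_le_of_lt (degree_C_mul_X_pow_le _ _) ?_
      exact_mod_cast (by omega : g - 1 < g)
    · refine lt_of_le_of_lt degree_one_le ?_
      exact_mod_cast (by omega : 0 < g)
  have h3 : (AP c g).Monic := by
    rw [h1]
    exact monic_X_pow_add h2
  refine ⟨?_, h3.ne_zero⟩
  apply natDegree_eq_of_degree_eq_some
  rw [h1, degree_add_eq_left_of_degree_lt, degree_X_pow]
  rw [degree_X_pow]
  exact h2

private lemma Part_sep {c : k} (hc : c ≠ 0) {g : ℕ} (hg : 3 ≤ g) (hg0 : (g : k) = 0) :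
    (AP c g).Separable := by
  have hd : derivative (AP c g) = -(C c * X ^ (g - 2)) := by
    unfold AP
    simp only [derivative_sub, derivative_add, derivative_mul, derivative_X_pow, derivative_C,
      derivative_one, hg0, map_zero, zero_mul, zero_add, sub_zero]
    have h2 : (((g - 1 : ℕ) : k)) = -1 := by
      rw [Nat.cast_sub (by omega), hg0, Nat.cast_one, zero_sub]
    rw [h2]
    have h3 : g - 1 - 1 = g - 2 := by omega
    rw [h3, map_neg, map_one]
    ring
  rw [separable_def, hd]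
  have hX : AP c g = X * (X ^ (g - 1) + C c * X ^ (g - 2)) - 1 := by
    unfold AP
    obtain ⟨m, rfl⟩ : ∃ m, g = m + 2 := ⟨g - 2, by omega⟩
    have e1 : m + 2 - 1 = m + 1 := by omega
    have e2 : m + 2 - 2 = m := by omega
    rw [e1, e2]
    ring
  have h4 : IsCoprime (AP c g) (X : k[X]) := by
    refine ⟨-1, X ^ (g - 1) + C c * X ^ (g - 2), ?_⟩
    rw [hX]
    ring
  have h5 : IsCoprime (AP c g) (C c * X ^ (g - 2)) := by
    refine IsCoprime.mul_right ?_ h4.pow_right
    refine ⟨0, C c⁻¹, ?_⟩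
    rw [zero_mul, zero_add, ← C_mul, inv_mul_cancel₀ hc, C_1]
  exact h5.neg_right

/-- The nodes: `A` has `g` distinct roots `τ_l ≠ 0` (`A' = - c z^(g-2)`, `g = 0` in `k`), and `w τ_l ≠ τ_l'`: a common root of `A` and `AW` would be one of
`D` and `N` (`DP_eq`, `NP_eq`). -/
theorem nodes [IsAlgClosed k] {w c : k} (hc : c ≠ 0) (hw0 : w ≠ 0) (hw1 : w ≠ 1) {g : ℕ}
    (hg : 3 ≤ g) (hg0 : (g : k) = 0) (hco : IsCoprime (NP w c g) (DP w c g)) :
    ∃ τ : Fin g → k, Function.Injective τ ∧ (∀ l, τ l ≠ 0) ∧ (∀ l, (AP c g).eval (τ l) = 0) ∧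
      ∀ l l', τ l ≠ w⁻¹ * τ l' := by
  classical
  obtain ⟨hdeg, hne⟩ := Part_natDegree c hg
  have hnd := nodup_roots (Part_sep hc hg hg0)
  have hcard : (AP c g).roots.toFinset.card = g := by
    rw [Multiset.toFinset_card_of_nodup hnd, IsAlgClosed.card_roots_eq_natDegree, hdeg]
  let e := Finset.equivFinOfCardEq hcard
  have hroot : ∀ l, (AP c g).eval ((e.symm l : k)) = 0 := by
    intro l
    have h1 := (e.symm l).2
    rw [Multiset.mem_toFinset, mem_roots hne] at h1
    exact h1
  refine ⟨fun l => (e.symm l : k), ?_, ?_, hroot, ?_⟩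
  · intro a b hab
    exact e.symm.injective (Subtype.ext hab)
  · intro l h0
    have h1 := hroot l
    have h0' : (e.symm l : k) = 0 := h0
    rw [h0'] at h1
    unfold AP at h1
    simp only [eval_sub, eval_add, eval_mul, eval_pow, eval_X, eval_C, eval_one] at h1
    rw [zero_pow (by omega), zero_pow (by omega)] at h1
    simp at h1
  · intro l l' h0
    set z : k := (e.symm l' : k) with hz
    have h1 := hroot l
    have h2 := hroot l'
    have h0' : (e.symm l : k) = w⁻¹ * z := h0
    rw [h0'] at h1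
    have h3 : (AW w c g).eval z = 0 := by
      unfold AP at h1
      simp only [eval_sub, eval_add, eval_mul, eval_pow, eval_X, eval_C, eval_one] at h1
      unfold AW
      simp only [eval_sub, eval_add, eval_mul, eval_pow, eval_X, eval_C]
      have h4 : w ^ g * ((w⁻¹ * z) ^ g + c * (w⁻¹ * z) ^ (g - 1) - 1) = 0 := by
        rw [h1, mul_zero]
      have h5 : w ^ g = w ^ (g - 1) * w := by
        rw [← pow_succ]
        congr 1
        omega
      have h6 : w ^ g * (w⁻¹ * z) ^ g = z ^ g := by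
        rw [← mul_pow, mul_inv_cancel_left₀ hw0]
      have h7 : w ^ g * (w⁻¹ * z) ^ (g - 1) = w * z ^ (g - 1) := by
        rw [h5, mul_right_comm, ← mul_pow, mul_inv_cancel_left₀ hw0, mul_comm]
      linear_combination h4 - h6 - c * h7
    have hw : (1 - w) ≠ 0 := sub_ne_zero.mpr (Ne.symm hw1)
    have hD : (DP w c g).eval z = 0 := by
      have h5 := congrArg (fun p => p.eval z) (DP_eq w c (g := g) (by omega))
      simp only [eval_mul, eval_C, eval_sub] at h5
      rw [h2, h3, sub_zero] at h5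
      exact (mul_eq_zero.mp h5).resolve_left hw
    have hN : (NP w c g).eval z = 0 := by
      have h5 := congrArg (fun p => p.eval z) (NP_eq w c (g := g) (by omega))
      simp only [eval_mul, eval_C, eval_sub] at h5
      rw [h2, h3, mul_zero, sub_zero] at h5
      exact (mul_eq_zero.mp h5).resolve_left hw
    obtain ⟨a, b, hab⟩ := hco
    have h6 := congrArg (fun p => p.eval z) hab
    simp only [eval_add, eval_mul, eval_one] at h6
    rw [hN, hD, mul_zero, mul_zero, add_zero] at h6
    exact zero_ne_one h6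

/-- In a valuation ring with an element `ϖ ≠ 0` of the maximal ideal there is `c` with a given residue outside a given finite
set: `c₀ + ϖ^n`. -/
theorem exists_lift {K : Type*} [Field K] (V : ValuationSubring K) (ϖ : V) (h0 : ϖ ≠ 0)
    (h1 : IsLocalRing.residue V ϖ = 0) (c0 : IsLocalRing.ResidueField V) (S : Set K)
    (hS : S.Finite) : ∃ c : V, IsLocalRing.residue V c = c0 ∧ (c : K) ∉ S := by
  obtain ⟨b, hb⟩ := IsLocalRing.residue_surjective c0
  have key : ∀ m n : ℕ, m < n → ϖ ^ m ≠ ϖ ^ n := by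
    intro m n hmn h
    obtain ⟨d, rfl⟩ : ∃ d, n = m + (d + 1) := ⟨n - m - 1, by omega⟩
    rw [pow_add] at h
    have h2 : ϖ ^ m * (1 - ϖ ^ (d + 1)) = 0 := by
      rw [mul_sub, mul_one, ← h, sub_self]
    rcases mul_eq_zero.mp h2 with h3 | h3
    · exact pow_ne_zero m h0 h3
    · have h4 := congrArg (IsLocalRing.residue V) h3
      rw [map_sub, map_one, map_pow, h1, zero_pow (Nat.succ_ne_zero d), sub_zero, map_zero] at h4
      exact one_ne_zero h4
  have hinj : Function.Injective (fun n : ℕ => ((b + ϖ ^ (n + 1) : V) : K)) := by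
    intro m n hmn
    have h2 : (b + ϖ ^ (m + 1) : V) = b + ϖ ^ (n + 1) := Subtype.ext hmn
    have h3 : ϖ ^ (m + 1) = ϖ ^ (n + 1) := add_left_cancel h2
    rcases lt_trichotomy m n with h4 | h4 | h4
    · exact absurd h3 (key _ _ (by omega))
    · exact h4
    · exact absurd h3.symm (key _ _ (by omega))
  have hinf := Set.infinite_range_of_injective hinj
  obtain ⟨x, ⟨n, rfl⟩, hx⟩ := hinf.exists_notMem_finite hS
  refine ⟨b + ϖ ^ (n + 1), ?_, hx⟩
  rw [map_add, map_pow, h1, zero_pow (Nat.succ_ne_zero n), add_zero, hb]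

/-- The `c` for which the affine curve is singular: `κ' = c y^(g-1)` for a root `y ≠ 0` of `y^g = γ`. -/
theorem bad_finite {K : Type*} [Field K] {g : ℕ} (hg : 3 ≤ g) (γ κ' : K) (hγ : γ ≠ 0) :
    {c : K | ∃ y : K, y ^ g = γ ∧ κ' = c * y ^ (g - 1)}.Finite := by
  have h1 : {y : K | y ^ g = γ}.Finite := by
    have h2 : (X ^ g - C γ : K[X]) ≠ 0 := X_pow_sub_C_ne_zero (by omega) γ
    refine (Multiset.finite_toSet (X ^ g - C γ : K[X]).roots).subset ?_
    intro y hy
    have hy' : y ^ g = γ := hy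
    change y ∈ (X ^ g - C γ : K[X]).roots
    rw [mem_roots h2, IsRoot.def, eval_sub, eval_pow, eval_X, eval_C, hy', sub_self]
  refine (h1.image fun y => κ' / y ^ (g - 1)).subset ?_
  rintro c ⟨y, hy, hc⟩
  refine ⟨y, hy, ?_⟩
  have hy0 : y ≠ 0 := by
    rintro rfl
    rw [zero_pow (by omega)] at hy
    exact hγ hy.symm
  change κ' / y ^ (g - 1) = c
  rw [hc, mul_div_cancel_right₀ _ (pow_ne_zero _ hy0)]

end Pool.Agent.GrT
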