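import Mathlib
import Pool.Agent.GrE.RedE
import Pool.Agent.GrE.Plc
import Pool.Agent.GrT.Redt

/-!
The place of the curve `y^g + c h_1 y^(g-1) = h_g` over the nodal curve.
-/

set_option autoImplicit false

namespace Pool.Agent.GrT

open Polynomial IsLocalRing Pool.Agent.GrE

private lemma Plct_br {R S : Type*} [CommRing R] [CommRing S] (f : R →+* S) (w : R) (n : ℕ) :
    f (br w n) = br (f w) n := by
  unfold br
  rw [map_sum]
  simp only [map_pow]

private lemma Plct_quad {E : Type*} [Field E] (O : ValuationSubring E) (a b : O) {u : E}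
    (h : u ^ 2 = a * u + b) : u ∈ O := by
  have h1 : IsIntegral O u := by
    refine ⟨X ^ 2 - (C a * X + C b), ?_, ?_⟩
    · exact monic_X_pow_sub degree_linear_lt
    · rw [eval₂_sub, eval₂_pow, eval₂_X, eval₂_add, eval₂_mul, eval₂_C, eval₂_C, eval₂_X, h]
      exact sub_self _
  obtain ⟨v, hv⟩ := (IsIntegrallyClosed.isIntegral_iff (R := O) (K := E)).1 h1
  rw [← hv]
  exact v.2

private lemma Plct_tri {E : Type*} [Field E] (O : ValuationSubring E) {g : ℕ} (hg : 2 ≤ g)
    (a b : O) {u : E} (h : u ^ g + a * u ^ (g - 1) = b) : u ∈ O := by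
  have h1 : IsIntegral O u := by
    refine ⟨X ^ g + (C a * X ^ (g - 1) - C b), ?_, ?_⟩
    · apply monic_X_pow_add
      refine lt_of_le_of_lt (degree_sub_le _ _) (max_lt ?_ ?_)
      · refine lt_of_le_of_lt (degree_C_mul_X_pow_le _ _) ?_
        exact_mod_cast (by omega : g - 1 < g)
      · refine lt_of_le_of_lt degree_C_le ?_
        exact_mod_cast (by omega : 0 < g)
    · rw [eval₂_add, eval₂_sub, eval₂_mul, eval₂_pow, eval₂_pow, eval₂_X, eval₂_C, eval₂_C,
        ← add_sub_assoc, sub_eq_zero]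
      exact h
  obtain ⟨v, hv⟩ := (IsIntegrallyClosed.isIntegral_iff (R := O) (K := E)).1 h1
  rw [← hv]
  exact v.2

/-- As `GrE.place_curve` (same proof; the file GrE/Plc has the part for `x`, `ν`, `μ`).
`O` from `place_exists`; `x`, `ν`, `y` are in `O`; `x̄ = μ + w/μ`, `ν̄ = (μ-1)(μ-w)`, `μ` transcendental.  With `Red.eval`: `ȳ^g + c h_1(μ) ȳ^(g-1) = h_g(μ)`;
`z := ȳ/μ`: `z^g + c (1+w-μ) z^(g-1) = [g+1] - [g] μ`, i.e. `N(z) = μ D(z)`.  `D(z) ≠ 0` (otherwise `N(z) = 0`, against `hco`), `μ = N(z)/D(z)`, so `z` is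
transcendental; `ψ` is the embedding with `X ↦ z`. -/
theorem place_curve3 {K E : Type*} [Field K] [Field E] [Algebra K E] (V : ValuationSubring K)
    (w t c : V) (ht : residue V t = 0) (hw0 : residue V w ≠ 0) {g : ℕ} (hg : 3 ≤ g)
    (hco : IsCoprime (NP (residue V w) (residue V c) g) (DP (residue V w) (residue V c) g))
    (x ν y : E) (hx : Transcendental K x)
    (hν : ν ^ 2 = aeval x (TT (w : K)) * ν + aeval x (NN (w : K) (t : K)))
    (A1 B1 Ag Bg : V[X])
    (hy : y ^ g + algebraMap K E c * (aeval x (A1.map V.subtype) +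
      aeval x (B1.map V.subtype) * ν) * y ^ (g - 1) =
        aeval x (Ag.map V.subtype) + aeval x (Bg.map V.subtype) * ν)
    (hR1 : Red (residue V w) 1 (A1.map (residue V)) (B1.map (residue V)))
    (hRg : Red (residue V w) g (Ag.map (residue V)) (Bg.map (residue V))) :
    ∃ (O : ValuationSubring E) (ψ : RatFunc (ResidueField V) →+* ResidueField O)
      (hx : x ∈ O) (hν : ν ∈ O) (hy : y ∈ O),
      (∀ c : K, algebraMap K E c ∈ O → c ∈ V) ∧
      (∀ c : V, ∃ hc : algebraMap K E c ∈ O,
        residue O ⟨algebraMap K E c, hc⟩ = ψ (RatFunc.C (residue V c))) ∧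
      residue O ⟨x, hx⟩ =
        ψ (xm (RatFunc.C (residue V w)) (M3 (residue V w) (residue V c) g)) ∧
      residue O ⟨ν, hν⟩ =
        ψ (nm (RatFunc.C (residue V w)) (M3 (residue V w) (residue V c) g)) ∧
      residue O ⟨y, hy⟩ = ψ (RatFunc.X * M3 (residue V w) (residue V c) g) := by
  obtain ⟨O, hxO, ι, h1, h2, h3⟩ := place_exists V x hx
  -- constants
  let e : V →+* O := ((algebraMap K E).comp V.subtype).codRestrict O (fun c => (h1 c).2 c.2)
  have he : ∀ c : V, ((e c : O) : E) = algebraMap K E c := fun c => rfl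
  have her : (residue O).comp e = ι.comp (residue V) := by
    ext c
    exact h2 c _
  -- polynomials with coefficients in `V`
  have hval : ∀ P : V[X], ((P.eval₂ e ⟨x, hxO⟩ : O) : E) = aeval x (P.map V.subtype) := by
    intro P
    have h := Polynomial.hom_eval₂ P e O.subtype ⟨x, hxO⟩
    rw [aeval_def, eval₂_map]
    exact h
  have hres : ∀ P : V[X], residue O (P.eval₂ e ⟨x, hxO⟩) =
      (P.map (residue V)).eval₂ ι (residue O ⟨x, hxO⟩) := by
    intro P
    rw [Polynomial.hom_eval₂, her, eval₂_map]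
  have hTT : TT (w : K) = (TT w : V[X]).map V.subtype := by
    unfold TT
    simp
  have hNN : NN (w : K) (t : K) = (NN w t : V[X]).map V.subtype := by
    unfold NN
    simp
  rw [hTT, hNN, ← hval, ← hval] at hν
  have hνO : ν ∈ O := Plct_quad O _ _ hν
  -- the coefficients of the equation of `y`
  let a1 : O := e c * (A1.eval₂ e ⟨x, hxO⟩ + B1.eval₂ e ⟨x, hxO⟩ * ⟨ν, hνO⟩)
  let b1 : O := Ag.eval₂ e ⟨x, hxO⟩ + Bg.eval₂ e ⟨x, hxO⟩ * ⟨ν, hνO⟩
  have hya : y ^ g + a1 * y ^ (g - 1) = b1 := by
    have e1 : (a1 : E) = algebraMap K E c * (aeval x (A1.map V.subtype) +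
        aeval x (B1.map V.subtype) * ν) := by
      rw [← hval, ← hval]
      rfl
    have e2 : (b1 : E) = aeval x (Ag.map V.subtype) + aeval x (Bg.map V.subtype) * ν := by
      rw [← hval, ← hval]
      rfl
    rw [e1, e2]
    exact hy
  have hyO : y ∈ O := Plct_tri O (by omega) a1 b1 hya
  -- the residues
  set xr := residue O ⟨x, hxO⟩ with hxr
  set nr := residue O ⟨ν, hνO⟩ with hnr
  set yr := residue O ⟨y, hyO⟩ with hyr
  set wr := ι (residue V w) with hwr
  set cr := ι (residue V c) with hcr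
  have hwr0 : wr ≠ 0 := by
    rw [hwr, Ne, map_eq_zero]
    exact hw0
  have eν : nr ^ 2 = xr * (xr - (1 + wr)) * nr - wr * (xr - (1 + wr)) ^ 2 := by
    have h : (⟨ν, hνO⟩ : O) ^ 2 = (TT w : V[X]).eval₂ e ⟨x, hxO⟩ * ⟨ν, hνO⟩ +
        (NN w t : V[X]).eval₂ e ⟨x, hxO⟩ := Subtype.ext hν
    have h' := congrArg (residue O) h
    rw [map_pow, map_add, map_mul, hres, hres] at h'
    rw [h']
    unfold TT NN
    simp only [Polynomial.map_mul, Polynomial.map_sub, Polynomial.map_pow, Polynomial.map_X,
      Polynomial.map_C, ht, map_add, map_one, Polynomial.map_add, Polynomial.map_one, eval₂_mul,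
      eval₂_sub, eval₂_add, eval₂_one, eval₂_pow, eval₂_X, eval₂_C]
    rw [← hwr, ← hnr, map_zero]
    ring
  have ey : yr ^ g + cr * ((A1.map (residue V)).eval₂ ι xr + (B1.map (residue V)).eval₂ ι xr * nr) *
      yr ^ (g - 1) = (Ag.map (residue V)).eval₂ ι xr + (Bg.map (residue V)).eval₂ ι xr * nr := by
    have h : (⟨y, hyO⟩ : O) ^ g + a1 * ⟨y, hyO⟩ ^ (g - 1) = b1 := Subtype.ext hya
    have h' := congrArg (residue O) h
    simp only [a1, b1] at h'
    rw [map_add, map_pow, map_mul, map_mul, map_pow, map_add, map_mul, map_add, map_mul, hres, hres,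
      hres, hres] at h'
    have h5 : residue O (e c) = cr := RingHom.congr_fun her c
    rw [h5] at h'
    exact h'
  -- `μ`
  have hs : xr - (1 + wr) ≠ 0 := by
    intro h
    have h4 := h3 (X - C (1 + residue V w)) (by
      rw [eval₂_sub, eval₂_X, eval₂_C, map_add, map_one]
      exact h)
    exact X_sub_C_ne_zero _ h4
  set μ := nr / (xr - (1 + wr)) with hμ
  have hnμ : nr = (xr - (1 + wr)) * μ := by
    rw [hμ]
    field_simp
  have eμ : μ ^ 2 = xr * μ - wr := by
    have h4 : (xr - (1 + wr)) ^ 2 * μ ^ 2 = (xr - (1 + wr)) ^ 2 * (xr * μ - wr) := by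
      rw [hnμ] at eν
      linear_combination eν
    exact mul_left_cancel₀ (pow_ne_zero 2 hs) h4
  have hμ0 : μ ≠ 0 := by
    intro h
    rw [h] at eμ
    apply hwr0
    linear_combination eμ
  have exr : xr = xm wr μ := by
    unfold xm
    field_simp
    linear_combination -eμ
  have enr : nr = nm wr μ := by
    unfold nm
    rw [hnμ]
    linear_combination -eμ
  -- transcendence of `μ`
  let _ := ι.toAlgebra
  have hxtr : Transcendental (ResidueField V) xr := by
    rw [transcendental_iff]
    intro P hP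
    exact h3 P hP
  have hμtr : Transcendental (ResidueField V) μ := by
    intro halg
    apply hxtr
    rw [exr]
    unfold xm
    exact halg.add ((isAlgebraic_algebraMap (residue V w)).mul halg.inv)
  have hμtr' : ∀ P : (ResidueField V)[X], P.eval₂ ι μ = 0 → P = 0 := fun P hP =>
    transcendental_iff.1 hμtr P hP
  have hev1 := hR1.eval ι μ hμtr'
  have hevg := hRg.eval ι μ hμtr'
  rw [← hwr, ← exr, ← enr] at hev1 hevg
  rw [hev1, hevg] at ey
  set z := yr / μ with hz
  have hyz : yr = z * μ := by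
    rw [hz]
    field_simp
  have ez : z ^ g + cr * (1 + wr - μ) * z ^ (g - 1) = br wr (g + 1) - br wr g * μ := by
    have hb1 : br wr (1 + 1) = 1 + wr := by
      unfold br
      rw [Finset.sum_range_succ, Finset.sum_range_one, pow_zero, pow_one]
    have hb0 : br wr 1 = 1 := by
      unfold br
      rw [Finset.sum_range_one, pow_zero]
    have h4 : μ ^ g * (z ^ g + cr * (1 + wr - μ) * z ^ (g - 1)) =
        μ ^ g * (br wr (g + 1) - br wr g * μ) := by
      unfold hm at ey
      rw [hyz, hb1, hb0] at ey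
      obtain ⟨m, rfl⟩ : ∃ m, g = m + 1 := ⟨g - 1, by omega⟩
      rw [Nat.add_sub_cancel] at ey ⊢
      rw [mul_pow, mul_pow] at ey
      linear_combination ey
    exact mul_left_cancel₀ (pow_ne_zero g hμ0) h4
  -- `N(z) = μ D(z)`
  have hN : (NP (residue V w) (residue V c) g).eval₂ ι z =
      z ^ g + cr * (1 + wr) * z ^ (g - 1) - br wr (g + 1) := by
    unfold NP
    rw [eval₂_sub, eval₂_add, eval₂_mul, eval₂_pow, eval₂_pow, eval₂_X, eval₂_C, eval₂_C, map_mul,
      map_add, map_one, Plct_br]
  have hD : (DP (residue V w) (residue V c) g).eval₂ ι z = cr * z ^ (g - 1) - br wr g := by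
    unfold DP
    rw [eval₂_sub, eval₂_mul, eval₂_pow, eval₂_X, eval₂_C, eval₂_C, Plct_br]
  have hND : (NP (residue V w) (residue V c) g).eval₂ ι z =
      μ * (DP (residue V w) (residue V c) g).eval₂ ι z := by
    rw [hN, hD]
    linear_combination ez
  have hD0 : (DP (residue V w) (residue V c) g).eval₂ ι z ≠ 0 := by
    intro h
    rw [h, mul_zero] at hND
    obtain ⟨a, b, hab⟩ := hco
    have h6 := congrArg (fun p => p.eval₂ ι z) hab
    simp only [eval₂_add, eval₂_mul, eval₂_one] at h6
    rw [hND, h, mul_zero, mul_zero, add_zero] at h6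
    exact zero_ne_one h6
  have hμz : μ = (NP (residue V w) (residue V c) g).eval₂ ι z /
      (DP (residue V w) (residue V c) g).eval₂ ι z := by
    rw [hND]
    field_simp
  have hztr : Transcendental (ResidueField V) z := by
    intro halg
    apply hμtr
    rw [hμz, div_eq_mul_inv]
    have h7 : ∀ P : (ResidueField V)[X], IsAlgebraic (ResidueField V) (P.eval₂ ι z) := by
      intro P
      induction P using Polynomial.induction_on' with
      | add p q hp hq =>
        rw [eval₂_add]
        exact hp.add hq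
      | monomial n a =>
        rw [eval₂_monomial]
        exact (isAlgebraic_algebraMap a).mul (halg.pow n)
    exact (h7 _).mul (h7 _).inv
  have hinj : Function.Injective (eval₂RingHom ι z) := by
    rw [injective_iff_map_eq_zero]
    intro P hP
    exact transcendental_iff.1 hztr P hP
  have hle : nonZeroDivisors (ResidueField V)[X] ≤
      (nonZeroDivisors (ResidueField O)).comap (eval₂RingHom ι z) :=
    nonZeroDivisors_le_comap_nonZeroDivisors_of_injective _ hinj
  let ψ : RatFunc (ResidueField V) →+* ResidueField O := RatFunc.liftRingHom (eval₂RingHom ι z) hle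
  have hψC : ∀ a, ψ (RatFunc.C a) = ι a := by
    intro a
    rw [RatFunc.liftRingHom_C]
    exact eval₂_C _ _
  have hψX : ψ RatFunc.X = z := by
    rw [RatFunc.liftRingHom_X]
    exact eval₂_X _ _
  have hψP : ∀ P : (ResidueField V)[X],
      ψ (algebraMap (ResidueField V)[X] (RatFunc (ResidueField V)) P) = P.eval₂ ι z := by
    intro P
    have h8 : ψ.comp (algebraMap (ResidueField V)[X] (RatFunc (ResidueField V))) =
        eval₂RingHom ι z := by
      apply Polynomial.ringHom_ext
      · intro a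
        rw [RingHom.comp_apply, RatFunc.algebraMap_C, hψC]
        exact (eval₂_C _ _).symm
      · rw [RingHom.comp_apply, RatFunc.algebraMap_X, hψX]
        exact (eval₂_X _ _).symm
    exact RingHom.congr_fun h8 P
  have hψM : ψ (M3 (residue V w) (residue V c) g) = μ := by
    unfold M3
    rw [map_div₀, hψP, hψP, ← hμz]
  refine ⟨O, ψ, hxO, hνO, hyO, fun c hc => (h1 c).1 hc, ?_, ?_, ?_, ?_⟩
  · intro c
    refine ⟨(h1 c).2 c.2, ?_⟩
    rw [hψC]
    exact h2 c _
  · rw [← hxr, exr]
    unfold xm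
    rw [map_add, map_mul, map_inv₀, hψM, hψC]
  · rw [← hnr, enr]
    unfold nm
    rw [map_mul, map_sub, map_sub, map_one, hψM, hψC]
  · rw [← hyr, hyz, map_mul, hψM, hψX]

end Pool.Agent.GrT
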