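import Mathlib
import Pool.Agent.GrP.Smooth
import Pool.Agent.GrE.Asm
import Pool.Agent.GrE.Irr
import Pool.Agent.GrT.HKu
import Pool.Agent.GrT.Plct
import Pool.Agent.GrT.Part
import Pool.Agent.GrT.Irt
import Pool.Agent.GrT.Nd

/-!
Assembly for `p ∣ g`.
-/

set_option autoImplicit false

namespace Pool.Agent.GrT

open Polynomial Pool.Agent.GrS Pool.Agent.GrP Pool.Agent.GrE IsLocalRing

/-- The reduction of a polynomial expression with coefficients in `V`. -/
private lemma res_poly {K E Ω : Type*} [Field K] [Field E] [Algebra K E] [Field Ω]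
    (V : ValuationSubring K) (O : ValuationSubring E) (r : O →+* Ω) (κ : V →+* Ω) (x : E)
    (hx : x ∈ O)
    (hc : ∀ c : V, ∃ h : algebraMap K E c ∈ O, r ⟨algebraMap K E c, h⟩ = κ c) (P : V[X]) :
    ∃ h : aeval x (P.map V.subtype) ∈ O,
      r ⟨aeval x (P.map V.subtype), h⟩ = P.eval₂ κ (r ⟨x, hx⟩) := by
  let e : V →+* O := ((algebraMap K E).comp V.subtype).codRestrict O (fun c => (hc c).1)
  have her : r.comp e = κ := by
    ext c
    exact (hc c).2
  have h := Polynomial.hom_eval₂ P e O.subtype ⟨x, hx⟩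
  have h1 : ((P.eval₂ e ⟨x, hx⟩ : O) : E) = aeval x (P.map V.subtype) := by
    rw [aeval_def, eval₂_map]
    exact h
  refine ⟨h1 ▸ Subtype.mem _, ?_⟩
  have h2 : (⟨aeval x (P.map V.subtype), h1 ▸ Subtype.mem _⟩ : O) = P.eval₂ e ⟨x, hx⟩ :=
    Subtype.ext h1.symm
  rw [h2, Polynomial.hom_eval₂, her]

section

variable {E R : Type*} [Field E] [Field R]

/-- `z ∈ O` reduces to `ψ a`. -/
private def Rd (O : ValuationSubring E) (ψ : R →+* ResidueField O) (z : E) (a : R) : Prop :=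
  ∃ h : z ∈ O, residue O ⟨z, h⟩ = ψ a

variable {O : ValuationSubring E} {ψ : R →+* ResidueField O} {z z' : E} {a a' : R}

private lemma Rd.add (h : Rd O ψ z a) (h' : Rd O ψ z' a') : Rd O ψ (z + z') (a + a') := by
  obtain ⟨h1, h2⟩ := h
  obtain ⟨h1', h2'⟩ := h'
  refine ⟨O.add_mem _ _ h1 h1', ?_⟩
  rw [map_add, ← h2, ← h2', ← map_add]
  rfl

private lemma Rd.sub (h : Rd O ψ z a) (h' : Rd O ψ z' a') : Rd O ψ (z - z') (a - a') := by
  obtain ⟨h1, h2⟩ := h
  obtain ⟨h1', h2'⟩ := h'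
  refine ⟨sub_mem h1 h1', ?_⟩
  rw [map_sub, ← h2, ← h2', ← map_sub]
  rfl

private lemma Rd.mul (h : Rd O ψ z a) (h' : Rd O ψ z' a') : Rd O ψ (z * z') (a * a') := by
  obtain ⟨h1, h2⟩ := h
  obtain ⟨h1', h2'⟩ := h'
  refine ⟨O.mul_mem _ _ h1 h1', ?_⟩
  rw [map_mul, ← h2, ← h2', ← map_mul]
  rfl

private lemma Rd.pow (h : Rd O ψ z a) (n : ℕ) : Rd O ψ (z ^ n) (a ^ n) := by
  obtain ⟨h1, h2⟩ := h
  refine ⟨pow_mem h1 n, ?_⟩
  rw [map_pow, ← h2, ← map_pow]
  rfl

private lemma Rd.inv (h : Rd O ψ z a) (ha : a ≠ 0) : Rd O ψ z⁻¹ a⁻¹ := by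
  obtain ⟨h1, h2⟩ := h
  have h3 : residue O ⟨z, h1⟩ ≠ 0 := by
    rw [h2, Ne, map_eq_zero]
    exact ha
  have hu : IsUnit (⟨z, h1⟩ : O) := (residue_ne_zero_iff_isUnit _).1 h3
  obtain ⟨v, hv⟩ := hu.exists_left_inv
  have hv' : (v : E) * z = 1 := congrArg Subtype.val hv
  have hz : z⁻¹ = (v : E) := (eq_inv_of_mul_eq_one_left hv').symm
  have h4 : residue O v * ψ a = 1 := by
    rw [← h2, ← map_mul, hv, map_one]
  refine ⟨hz ▸ v.2, ?_⟩
  rw [map_inv₀]
  have h5 : (⟨z⁻¹, hz ▸ v.2⟩ : O) = v := Subtype.ext hz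
  rw [h5]
  exact eq_inv_of_mul_eq_one_left h4

private lemma Rd.zero : Rd O ψ (0 : E) (0 : R) :=
  ⟨O.zero_mem, by rw [map_zero]; exact map_zero (residue O)⟩

private lemma Rd.sum {ι : Type*} (s : Finset ι) (f : ι → E) (b : ι → R)
    (h : ∀ i ∈ s, Rd O ψ (f i) (b i)) : Rd O ψ (∑ i ∈ s, f i) (∑ i ∈ s, b i) := by
  classical
  induction s using Finset.induction_on with
  | empty => simpa using Rd.zero
  | insert i s hi ih =>
    rw [Finset.sum_insert hi, Finset.sum_insert hi]
    exact (h i (Finset.mem_insert_self _ _)).add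
      (ih (fun j hj => h j (Finset.mem_insert_of_mem hj)))

end

private lemma InL_const_mul {K : Type*} [Field K] {w t : K} {j : ℕ} (c : K) {u : EQ w t}
    (h : InL j u) : InL j (algebraMap K (EQ w t) c * u) := by
  obtain ⟨⟨A, B, rfl⟩, h2⟩ := h
  refine ⟨⟨C c * A, C c * B, ?_⟩, ?_⟩
  · rw [← Algebra.smul_def]
    have hKX : ∀ A : K[X], algebraMap K[X] (RatFunc K) (C c * A) =
        c • algebraMap K[X] (RatFunc K) A := by
      intro A
      rw [Algebra.smul_def, map_mul]
      rfl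
    unfold pp
    ext
    · rw [QuadraticAlgebra.re_smul, ← hKX]
    · rw [QuadraticAlgebra.im_smul, ← hKX]
  · rw [mul_assoc]
    exact (InB_const c).mul h2

private theorem asm_core3 {K : Type} [Field K] [IsAlgClosed K] (p : ℕ) [Fact p.Prime] [CharP K p]
    (V : ValuationSubring K) [CharP (ResidueField V) p] (w t c : V)
    [Fact (∀ r : RatFunc K, r ^ 2 ≠ Nf (w : K) (t : K) + Tf (w : K) * r)]
    (hG : Good (w : K) (t : K)) (ht : residue V t = 0) (g : ℕ) (hg : 3 ≤ g) (hpg : p ∣ g)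
    (hw0 : residue V w ≠ 0) (hw : ∀ i, 1 ≤ i → i ≤ 2 * g + 2 → residue V w ^ i ≠ 1)
    (hc0 : residue V c ≠ 0)
    (hco : IsCoprime (NP (residue V w) (residue V c) g) (DP (residue V w) (residue V c) g))
    (τ : Fin g → ResidueField V) (hτi : Function.Injective τ) (hτ0 : ∀ l, τ l ≠ 0)
    (hτA : ∀ l, (AP (residue V c) g).eval (τ l) = 0)
    (hτw : ∀ l l', τ l ≠ (residue V w)⁻¹ * τ l') (A B : ℕ → V[X])
    (hL : ∀ j ≤ g, InL j (pp (w : K) (t : K) ((A j).map V.subtype) ((B j).map V.subtype)))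
    (hR : ∀ j ≤ g, Red (residue V w) j ((A j).map (residue V)) ((B j).map (residue V)))
    {P1 Pg : K[X]} (hP1 : QuadraticAlgebra.norm
      (pp (w : K) (t : K) ((A 1).map V.subtype) ((B 1).map V.subtype)) =
        algebraMap K[X] (RatFunc K) P1) (hPg : QuadraticAlgebra.norm
      (pp (w : K) (t : K) ((A g).map V.subtype) ((B g).map V.subtype)) =
        algebraMap K[X] (RatFunc K) Pg) (hd1 : P1.natDegree = 1) (hdg : Pg.natDegree = 1)
    (q : Pt (w : K) (t : K) ((A 1).map V.subtype) ((B 1).map V.subtype) ((A g).map V.subtype)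
      ((B g).map V.subtype))
    (hcy : ∀ y : K, y ^ g = ((A g).map V.subtype).eval q.e + ((B g).map V.subtype).eval q.e * q.n →
      q.A'.eval q.e + q.B'.eval q.e * q.n ≠ (c : K) * y ^ (g - 1))
    {E : Type} [Field E] [Algebra (EQ (w : K) (t : K)) E] [Algebra K E] [Algebra K[X] E]
    [Algebra (RatFunc K) E] [IsScalarTower K (EQ (w : K) (t : K)) E]
    [IsScalarTower K[X] (EQ (w : K) (t : K)) E] [IsScalarTower (RatFunc K) (EQ (w : K) (t : K)) E]
    (k : Tri (EQ (w : K) (t : K)) E g (algebraMap K (EQ (w : K) (t : K)) (c : K) *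
      pp (w : K) (t : K) ((A 1).map V.subtype) ((B 1).map V.subtype))
      (pp (w : K) (t : K) ((A g).map V.subtype) ((B g).map V.subtype))) :
    genus K E = g ∧ ∀ m m', m ≤ m' → g ≤ m + m' + 3 →
      (∀ j ≤ m, (m.choose j : ResidueField V) ≠ 0) → kDim K E m' 0 = 0 := by
  have hgK : (g : K) = 0 := (CharP.cast_eq_zero_iff K p g).2 hpg
  have hcK : (c : K) ≠ 0 := by
    intro h
    apply hc0
    have h1 : c = 0 := Subtype.ext h
    rw [h1, map_zero]
  have hgen := genus_eq hG hg hgK hcK (hL 1 (by omega)) (hL g le_rfl) hP1 hPg hd1 hdg q hcy k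
  refine ⟨hgen, ?_⟩
  intro m m' hmm hgm hbin
  -- the functions `x`, `ν`, `y`
  have hT1 : ∀ c : K, algebraMap K E c =
      algebraMap (RatFunc K) E (algebraMap K (RatFunc K) c) := by
    intro c
    rw [IsScalarTower.algebraMap_apply K (EQ (w : K) (t : K)) E,
      IsScalarTower.algebraMap_apply (RatFunc K) (EQ (w : K) (t : K)) E]
    rfl
  have : IsScalarTower K (RatFunc K) E := IsScalarTower.of_algebraMap_eq hT1
  set x : E := algebraMap (EQ (w : K) (t : K)) E (xE (w : K) (t : K)) with hx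
  have hxX : x = algebraMap (RatFunc K) E RatFunc.X := by
    rw [hx, IsScalarTower.algebraMap_apply (RatFunc K) (EQ (w : K) (t : K)) E]
    rfl
  have hae : ∀ Q : K[X], aeval x Q = algebraMap (RatFunc K) E (algebraMap K[X] (RatFunc K) Q) := by
    intro Q
    rw [hxX, aeval_algebraMap_apply, RatFunc.aeval_X_left_eq_algebraMap]
  have hxt : Transcendental K x := by
    rw [transcendental_iff]
    intro Q hQ
    rw [hae, map_eq_zero, map_eq_zero_iff _ (RatFunc.algebraMap_injective K)] at hQ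
    exact hQ
  set ν : E := algebraMap (EQ (w : K) (t : K)) E QuadraticAlgebra.omega with hν
  have hae' : ∀ Q : K[X], aeval x Q = algebraMap (EQ (w : K) (t : K)) E
      (algebraMap (RatFunc K) (EQ (w : K) (t : K)) (algebraMap K[X] (RatFunc K) Q)) := by
    intro Q
    rw [hae, IsScalarTower.algebraMap_apply (RatFunc K) (EQ (w : K) (t : K)) E]
  have hνeq : ν ^ 2 = aeval x (TT (w : K)) * ν + aeval x (NN (w : K) (t : K)) := by
    rw [hae', hae', hν, ← map_pow, ← map_mul, ← map_add]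
    congr 1
    rw [sq, QuadraticAlgebra.omega_mul_omega_eq_mk]
    ext
    · simp
      rfl
    · simp
      rfl
  have hpp : ∀ A B : K[X], algebraMap (EQ (w : K) (t : K)) E (pp (w : K) (t : K) A B) =
      aeval x A + aeval x B * ν := by
    intro A B
    rw [hae', hae', hν, ← map_mul, ← map_add]
    congr 1
    unfold pp
    ext <;> simp
  have hyeq := k.ht
  rw [map_mul, hpp, hpp, ← IsScalarTower.algebraMap_apply K (EQ (w : K) (t : K)) E] at hyeq
  obtain ⟨O, ψ, hxO, hνO, hyO, hK, hV, rx, rν, ry⟩ :=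
    place_curve3 V w t c ht hw0 hg hco x ν k.t hxt hνeq (A 1) (B 1) (A g) (B g) hyeq
      (hR 1 (by omega)) (hR g le_rfl)
  have hTr := M3_transc (k := ResidueField V) (residue V w) hc0 hg
  set wr : ResidueField V := residue V w with hwr
  set cr : ResidueField V := residue V c with hcr
  set M : RatFunc (ResidueField V) := M3 wr cr g with hM
  -- reductions
  have Rx : Rd O ψ x (xm (RatFunc.C wr) M) := ⟨hxO, rx⟩
  have Rν : Rd O ψ ν (nm (RatFunc.C wr) M) := ⟨hνO, rν⟩
  have Ry : Rd O ψ k.t (RatFunc.X * M) := ⟨hyO, ry⟩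
  have Rc : ∀ c : V, Rd O ψ (algebraMap K E c) (RatFunc.C (residue V c)) := hV
  have Rp : ∀ Q : V[X], Rd O ψ (aeval x (Q.map V.subtype))
      ((Q.map (residue V)).eval₂ RatFunc.C (xm (RatFunc.C wr) M)) := by
    intro Q
    obtain ⟨h1, h2⟩ := res_poly V O (residue O) (ψ.comp (RatFunc.C.comp (residue V))) x hxO hV Q
    refine ⟨h1, ?_⟩
    rw [h2, Polynomial.hom_eval₂, eval₂_map, rx]
    rfl
  have Rh : ∀ j ≤ g, Rd O ψ (algebraMap (EQ (w : K) (t : K)) E
      (pp (w : K) (t : K) ((A j).map V.subtype) ((B j).map V.subtype)))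
      (hm (RatFunc.C wr) M j) := by
    intro j hj
    rw [hpp, ← (hR j hj).eval RatFunc.C M hTr]
    exact (Rp _).add ((Rp _).mul Rν)
  have hne : ∀ Q : (ResidueField V)[X], Q ≠ 0 → Q.eval₂ RatFunc.C M ≠ 0 :=
    fun Q hQ h => hQ (hTr Q h)
  have hM0 : M ≠ 0 := by
    have := hne X X_ne_zero
    rwa [eval₂_X] at this
  have hM1 : M - 1 ≠ 0 := by
    have := hne (X - C 1) (X_sub_C_ne_zero 1)
    rwa [eval₂_sub, eval₂_X, eval₂_C, map_one] at this
  have hMw : M - RatFunc.C wr ≠ 0 := by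
    have := hne (X - C wr) (X_sub_C_ne_zero wr)
    rwa [eval₂_sub, eval₂_X, eval₂_C] at this
  have hM2 : hm (RatFunc.C wr) M 1 ≠ 0 := by
    have := hne (X - C (1 + wr)) (X_sub_C_ne_zero _)
    rw [eval₂_sub, eval₂_X, eval₂_C, map_add, map_one] at this
    unfold hm br
    rw [Finset.sum_range_succ, Finset.sum_range_one]
    simp only [pow_zero, pow_one, one_mul]
    refine mul_ne_zero hM0 ?_
    intro h
    apply this
    linear_combination -h
  have hMs : 1 - RatFunc.C wr / M ^ 2 ≠ 0 := by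
    have := hne (X ^ 2 - C wr) (X_pow_sub_C_ne_zero (by norm_num) wr)
    rw [eval₂_sub, eval₂_pow, eval₂_X, eval₂_C] at this
    intro h
    apply this
    have h2 : M ^ 2 * (1 - RatFunc.C wr / M ^ 2) = M ^ 2 - RatFunc.C wr := by
      field_simp
    rw [← h2, h, mul_zero]
  have RW : Rd O ψ (algebraMap (EQ (w : K) (t : K)) E (WE (w : K) (t : K)))
      ((M - 1) * (M - RatFunc.C wr) * (1 - RatFunc.C wr / M ^ 2)) := by
    have hTT : TT (w : K) = (TT w : V[X]).map V.subtype := by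
      unfold TT
      simp
    have e1 : algebraMap (EQ (w : K) (t : K)) E (WE (w : K) (t : K)) =
        ν + ν - aeval x ((TT w : V[X]).map V.subtype) := by
      rw [← hTT, hae', hν, ← map_add, ← map_sub]
      congr 1
      unfold WE
      ext
      · simp
        rfl
      · simp
        norm_num
    have e2 : (M - 1) * (M - RatFunc.C wr) * (1 - RatFunc.C wr / M ^ 2) =
        nm (RatFunc.C wr) M + nm (RatFunc.C wr) M -
          ((TT w : V[X]).map (residue V)).eval₂ RatFunc.C (xm (RatFunc.C wr) M) := by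
      unfold TT nm xm
      simp only [Polynomial.map_mul, Polynomial.map_sub, Polynomial.map_X, Polynomial.map_C,
        map_add, map_one, Polynomial.map_add, Polynomial.map_one, eval₂_mul,
        eval₂_sub, eval₂_add, eval₂_one, eval₂_X, eval₂_C]
      rw [← hwr]
      field_simp
      ring
    rw [e1, e2]
    exact (Rν.add Rν).sub (Rp _)
  have hWM : (M - 1) * (M - RatFunc.C wr) * (1 - RatFunc.C wr / M ^ 2) ≠ 0 :=
    mul_ne_zero (mul_ne_zero hM1 hMw) hMs
  -- the forms
  obtain ⟨u0, hu0, hform⟩ := form3 (w := wr) (c := cr) hc0 hw0 hg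
    (fun i hi1 hi2 => hw i hi1 (by omega))
  rw [← hM] at hform
  choose β hβ using fun l : Fin g => dft3 (w := wr) (c := cr) hw0 hg (τ l) (hτA l)
  choose c' hc' using fun (l j : Fin g) => residue_surjective (R := V) (β l j)
  have hXM : RatFunc.X * M ≠ 0 := mul_ne_zero RatFunc.X_ne_zero hM0
  have Rf : ∀ l : Fin g, Rd O ψ (elt k (fun j => algebraMap K (EQ (w : K) (t : K)) (c' l j) *
      pp (w : K) (t : K) ((A j).map V.subtype) ((B j).map V.subtype)))
      (u0 * om (τ l) (wr * τ l)) := by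
    intro l
    rw [← hβ l, Finset.mul_sum]
    have e1 : ∀ j : Fin g, u0 * (RatFunc.C (β l j) *
        (RatFunc.X ^ (g - 1 - (j : ℕ)) / algebraMap (ResidueField V)[X] (RatFunc (ResidueField V))
          (AP cr g) - RatFunc.C (wr ^ (j : ℕ)) * RatFunc.X ^ (g - 1 - (j : ℕ)) /
            algebraMap (ResidueField V)[X] (RatFunc (ResidueField V)) (AW wr cr g))) =
        (hm (RatFunc.C wr) M 1 * ((M - 1) * (M - RatFunc.C wr) *
          (1 - RatFunc.C wr / M ^ 2)))⁻¹ * (RatFunc.C (β l j) * hm (RatFunc.C wr) M j *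
            (RatFunc.X * M * ((RatFunc.X * M) ^ (j : ℕ))⁻¹)) := by
      intro j
      have h1 := hform j j.2
      rw [mul_left_comm, ← h1]
      ring
    rw [Finset.sum_congr rfl fun j _ => e1 j, ← Finset.mul_sum]
    unfold elt
    rw [map_inv₀, map_mul]
    refine (((Rh 1 (by omega)).mul RW).inv (mul_ne_zero hM2 hWM)).mul (Rd.sum _ _ _ fun j _ => ?_)
    rw [map_mul, ← IsScalarTower.algebraMap_apply K (EQ (w : K) (t : K)) E, ← hc' l j]
    exact ((Rc _).mul (Rh j j.2.le)).mul (Ry.mul ((Ry.pow _).inv (pow_ne_zero _ hXM)))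
  refine smooth_main (K := K) (E := E) (F := ResidueField V) (R := ResidueField O) ψ p m m' g
    (by omega) hmm hgm hbin wr⁻¹ (inv_ne_zero hw0) ?_ τ hτ0 hτi hτw hgen O (residue O) ?_
    (fun l => elt k (fun j => algebraMap K (EQ (w : K) (t : K)) (c' l j) *
      pp (w : K) (t : K) ((A j).map V.subtype) ((B j).map V.subtype)))
    ?_ (fun l => (Rf l).choose) (ψ u0) ?_ (fun l => ?_)
  · intro i j hij hj h
    apply hw (j - i) (by omega) (by omega)
    rw [inv_pow, inv_pow, inv_inj] at h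
    have h1 : wr ^ i * wr ^ (j - i) = wr ^ i * 1 := by
      rw [← pow_add, mul_one, h]
      congr 1
      omega
    exact mul_left_cancel₀ (pow_ne_zero _ hw0) h1
  · intro a ha
    have h1 := hK a ha
    exact ⟨residue V ⟨a, h1⟩, (hV ⟨a, h1⟩).2⟩
  · intro l
    rw [mem_HK hG hg hgK hcK (hL 1 (by omega)) (hL g le_rfl) hP1 hPg hd1 hdg q hcy k]
    intro j
    exact InL_const_mul _ (hL j j.2.le)
  · rw [Ne, map_eq_zero]
    exact hu0
  · have h1 := (Rf l).choose_spec
    rw [h1, map_mul, inv_inv]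

/-- As `GrE.curve_main` (copy its lemmas `res_poly`, `Rd`).  `g = 0` in `K` and in the residue field.
`exists_c` over the residue field gives `c0`; `exists_h` (`j ≤ g`), `norm_deg` (`j = 1`, `g`), `not_dvd`, `exists_pt` (`q`), `bad_finite`, `exists_lift` (`ϖ = t`, `t ≠ 0` since
`Good w 0` is false: the point `(1 + w, 0)`) give `c ∈ V` with residue `c0` and the condition `hc`; `tri_irred`, `exists_tri`; `Tri.sep`, `sep_EQ`; `genus_eq`.  `place_curve3`.
`f_l = elt k (fun j => β_(l,j) h_j)`, `β_(l,j) ∈ V` a lift of the `β` of `dft3` for `τ = τ_l` (`nodes`); in `HK K E 1` by `mem_HK`; it reduces by `form3`, `dft3` to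
`ψ u * ψ (om τ_l (w τ_l))`.  `smooth_main` with `ρ = w⁻¹`. -/
theorem curve_main3 {K : Type} [Field K] [IsAlgClosed K] (p : ℕ) [Fact p.Prime] [CharP K p]
    (V : ValuationSubring K) [CharP (ResidueField V) p] [Infinite (ResidueField V)] (w t : V)
    (hG : Good (w : K) (t : K)) (ht : residue V t = 0) (g : ℕ) (hg : 3 ≤ g) (hpg : p ∣ g)
    (hw0 : residue V w ≠ 0) (hw : ∀ i, 1 ≤ i → i ≤ 2 * g + 2 → residue V w ^ i ≠ 1)
    (hs : 1 + residue V w ≠ 0) :
    ∃ (E : Type) (_ : Field E) (_ : Algebra K E) (_ : Algebra K[X] E)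
      (_ : Algebra (RatFunc K) E) (_ : IsScalarTower K[X] (RatFunc K) E)
      (_ : IsScalarTower K (RatFunc K) E) (_ : IsScalarTower K K[X] E)
      (_ : FiniteDimensional (RatFunc K) E) (_ : Algebra.IsSeparable (RatFunc K) E),
      genus K E = g ∧ ∀ m m', m ≤ m' → g ≤ m + m' + 3 →
        (∀ j ≤ m, (m.choose j : ResidueField V) ≠ 0) → kDim K E m' 0 = 0 := by
  have hF : Fact (∀ r : RatFunc K, r ^ 2 ≠ Nf (w : K) (t : K) + Tf (w : K) * r) :=
    ⟨irr hG.w_ne hG.s_ne⟩
  have hgK : (g : K) = 0 := (CharP.cast_eq_zero_iff K p g).2 hpg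
  have hgk : (g : ResidueField V) = 0 := (CharP.cast_eq_zero_iff (ResidueField V) p g).2 hpg
  have hkc : IsAlgClosed (ResidueField V) := residue_algClosed V
  have hbr : br (residue V w) g ≠ 0 := by
    intro h
    apply hw g (by omega) (by omega)
    have h1 := geom_sum_mul (residue V w) g
    unfold br at h
    rw [h, zero_mul] at h1
    exact (sub_eq_zero.1 h1.symm)
  obtain ⟨c0, hc0, hcn⟩ := exists_c (w := residue V w) hg hbr
  have hex : ∀ j : ℕ, ∃ A B : V[X], j ≤ g →
      (InL j (pp (w : K) (t : K) (A.map V.subtype) (B.map V.subtype)) ∧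
      Red (residue V w) j (A.map (residue V)) (B.map (residue V))) := by
    intro j
    by_cases hj : j ≤ g
    · obtain ⟨A, B, h1, h2⟩ := exists_h V w t ht hw0 hs j
        (fun i hi1 hi2 => hw i hi1 (by omega))
      exact ⟨A, B, fun _ => ⟨h1, h2⟩⟩
    · exact ⟨0, 0, fun h => absurd h hj⟩
  choose A B hAB using hex
  obtain ⟨P1, hd1, hP1⟩ := norm_deg V w t ht hw0 hs 1 (hw 1 le_rfl (by omega))
    (hw 2 (by omega) (by omega)) (A 1) (B 1) (hAB 1 (by omega)).1 (hAB 1 (by omega)).2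
  obtain ⟨Pg, hdg, hPg⟩ := norm_deg V w t ht hw0 hs g (hw g (by omega) (by omega))
    (hw (g + 1) (by omega) (by omega)) (A g) (B g) (hAB g le_rfl).1 (hAB g le_rfl).2
  have hnd := not_dvd V w t ht hw0 hs g hg (fun i hi1 hi2 => hw i hi1 (by omega))
    (hAB 1 (by omega)).1 (hAB g le_rfl).1 hP1 hPg hd1 hdg
  obtain ⟨q⟩ := exists_pt hP1 hd1 hnd
  have ht0 : t ≠ 0 := by
    intro h0
    subst h0
    have h1 := hG.smooth (1 + w) 0
    apply h1
    · unfold TT NN
      simp
    · unfold TT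
      simp
    · rw [mul_zero, zero_add]
      unfold NN
      rw [derivative_sub, derivative_C, derivative_mul, derivative_C, derivative_X_sub_C_sq]
      simp
  obtain ⟨c, hcr, hcS⟩ := exists_lift V t ht0 ht c0
    {c : K | ∃ y : K, y ^ g = ((A g).map V.subtype).eval q.e + ((B g).map V.subtype).eval q.e * q.n ∧
      q.A'.eval q.e + q.B'.eval q.e * q.n = c * y ^ (g - 1)} (bad_finite hg _ _ q.hγ)
  have hcy : ∀ y : K, y ^ g = ((A g).map V.subtype).eval q.e + ((B g).map V.subtype).eval q.e * q.n →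
      q.A'.eval q.e + q.B'.eval q.e * q.n ≠ (c : K) * y ^ (g - 1) := by
    intro y hy h
    exact hcS ⟨y, hy, h⟩
  have hcK : (c : K) ≠ 0 := by
    intro h
    apply hc0
    have h1 : c = 0 := Subtype.ext h
    rw [← hcr, h1, map_zero]
  have hco : IsCoprime (NP (residue V w) (residue V c) g) (DP (residue V w) (residue V c) g) := by
    rw [hcr]
    exact coprime_ND hg hcn
  have hw1 : residue V w ≠ 1 := by
    have := hw 1 le_rfl (by omega)
    rwa [pow_one] at this
  obtain ⟨τ, hτi, hτ0, hτA, hτw⟩ := nodes (w := residue V w) (c := residue V c)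
    (by rw [hcr]; exact hc0) hw0 hw1 hg hgk hco
  have hne : ∀ {A B P : K[X]}, QuadraticAlgebra.norm (pp (w : K) (t : K) A B) =
      algebraMap K[X] (RatFunc K) P → P.natDegree = 1 → pp (w : K) (t : K) A B ≠ 0 := by
    intro A B P hP hd h
    rw [h, QuadraticAlgebra.norm_zero] at hP
    have h1 : P = 0 := by
      rwa [eq_comm, map_eq_zero_iff _ (RatFunc.algebraMap_injective K)] at hP
    rw [h1, natDegree_zero] at hd
    exact zero_ne_one hd
  have hI : Fact (Irreducible (X ^ g + C (algebraMap K (EQ (w : K) (t : K)) (c : K) *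
      pp (w : K) (t : K) ((A 1).map V.subtype) ((B 1).map V.subtype)) * X ^ (g - 1) -
      C (pp (w : K) (t : K) ((A g).map V.subtype) ((B g).map V.subtype)) :
        (EQ (w : K) (t : K))[X])) :=
    ⟨tri_irred hG hg hcK (hAB 1 (by omega)).1 (hAB g le_rfl).1 hP1 hPg hd1 hdg hnd⟩
  have hcM : algebraMap K (EQ (w : K) (t : K)) (c : K) *
      pp (w : K) (t : K) ((A 1).map V.subtype) ((B 1).map V.subtype) ≠ 0 :=
    mul_ne_zero ((_root_.map_ne_zero _).2 hcK) (hne hP1 hd1)
  obtain ⟨k⟩ := exists_tri hcM (hne hPg hdg) hg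
  have hgM : (g : EQ (w : K) (t : K)) = 0 := by
    have h1 : (g : EQ (w : K) (t : K)) = algebraMap K (EQ (w : K) (t : K)) (g : K) :=
      (map_natCast _ g).symm
    rw [h1, hgK, map_zero]
  have s1 := sep_EQ (w := (w : K)) (t := (t : K))
  have s2 := k.sep hg hgM
  have f1 : FiniteDimensional (RatFunc K) (EQ (w : K) (t : K)) := inferInstance
  have f2 : Module.Finite (EQ (w : K) (t : K)) (AdjoinRoot (X ^ g +
      C (algebraMap K (EQ (w : K) (t : K)) (c : K) *
      pp (w : K) (t : K) ((A 1).map V.subtype) ((B 1).map V.subtype)) * X ^ (g - 1) -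
      C (pp (w : K) (t : K) ((A g).map V.subtype) ((B g).map V.subtype)) :
        (EQ (w : K) (t : K))[X])) := Module.Finite.of_basis k.b
  refine ⟨AdjoinRoot (X ^ g + C (algebraMap K (EQ (w : K) (t : K)) (c : K) *
      pp (w : K) (t : K) ((A 1).map V.subtype) ((B 1).map V.subtype)) * X ^ (g - 1) -
      C (pp (w : K) (t : K) ((A g).map V.subtype) ((B g).map V.subtype)) :
        (EQ (w : K) (t : K))[X]), inferInstance, inferInstance, inferInstance, inferInstance,
        inferInstance, inferInstance, inferInstance, ?_, ?_, ?_⟩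
  · exact FiniteDimensional.trans (RatFunc K) (EQ (w : K) (t : K)) _
  · exact Algebra.IsSeparable.trans (RatFunc K) (EQ (w : K) (t : K)) _
  · exact asm_core3 p V w t c hG ht g hg hpg hw0 hw (by rw [hcr]; exact hc0) hco τ hτi hτ0 hτA hτw
      A B (fun j hj => (hAB j hj).1) (fun j hj => (hAB j hj).2) hP1 hPg hd1 hdg q hcy k

end Pool.Agent.GrT
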