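import Mathlib

/-!
A field of characteristic `p` with an element which is neither zero nor a root of unity has a non-trivial
valuation ring.
-/

set_option autoImplicit false

namespace Pool.Agent.GrT

open Polynomial IsLocalRing

/-- A non-zero algebraic element over a finite prime field is a root of unity. -/
private lemma Val_root {K : Type*} [Field K] (p : ℕ) [Fact p.Prime] [Algebra (ZMod p) K] (x : K)
    (hx0 : x ≠ 0) (hx : IsIntegral (ZMod p) x) : ∃ n, 1 ≤ n ∧ x ^ n = 1 := by
  have h1 : Module.Finite (ZMod p) (Algebra.adjoin (ZMod p) {x}) :=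
    Algebra.finite_adjoin_simple_of_isIntegral hx
  have h2 : Finite (Algebra.adjoin (ZMod p) {x}) := Module.finite_of_finite (ZMod p)
  have hm : ∀ n : ℕ, x ^ n ∈ Algebra.adjoin (ZMod p) {x} := fun n =>
    Subalgebra.pow_mem _ (Algebra.self_mem_adjoin_singleton _ _) n
  obtain ⟨a, b, hab, h3⟩ := Finite.exists_ne_map_eq_of_infinite
    (fun n : ℕ => (⟨x ^ n, hm n⟩ : Algebra.adjoin (ZMod p) {x}))
  have h4 : x ^ a = x ^ b := congrArg Subtype.val h3
  rcases lt_or_gt_of_ne hab with h | h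
  · refine ⟨b - a, by omega, ?_⟩
    have h5 : x ^ a * x ^ (b - a) = x ^ a * 1 := by
      rw [← pow_add, mul_one, h4]
      congr 1
      omega
    exact mul_left_cancel₀ (pow_ne_zero a hx0) h5
  · refine ⟨a - b, by omega, ?_⟩
    have h5 : x ^ b * x ^ (a - b) = x ^ b * 1 := by
      rw [← pow_add, mul_one, ← h4]
      congr 1
      omega
    exact mul_left_cancel₀ (pow_ne_zero b hx0) h5

theorem exists_V {K : Type*} [Field K] (p : ℕ) [Fact p.Prime] [CharP K p] (x : K)
    (hx0 : x ≠ 0) (hx : ∀ n, 1 ≤ n → x ^ n ≠ 1) :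
    ∃ (V : ValuationSubring K) (T : V), T ≠ 0 ∧ residue V T = 0 := by
  let _ : Algebra (ZMod p) K := ZMod.algebra K p
  have hint : ∀ y : K, y ≠ 0 → (∀ n, 1 ≤ n → y ^ n ≠ 1) → ¬ IsIntegral (ZMod p) y :=
    fun y hy0 hy h => by
      obtain ⟨n, hn, h1⟩ := Val_root p y hy0 h
      exact hy n hn h1
  obtain ⟨V, h1, h2⟩ := Ideal.image_subset_nonunits_valuationSubring
    (A := (Algebra.adjoin (ZMod p) {x}).toSubring)
    (Ideal.span {⟨x, Algebra.self_mem_adjoin_singleton _ _⟩}) (by
      intro h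
      rw [Ideal.eq_top_iff_one, Ideal.mem_span_singleton] at h
      obtain ⟨⟨q, hq0⟩, hq⟩ := h
      have hq' : (1 : K) = x * q := congrArg Subtype.val hq
      have hq1 : q ∈ Algebra.adjoin (ZMod p) {x} := hq0
      rw [Algebra.adjoin_singleton_eq_range_aeval] at hq1
      obtain ⟨Q, hQ⟩ := hq1
      apply hint x hx0 hx
      rw [← isAlgebraic_iff_isIntegral]
      refine ⟨X * Q - 1, ?_, ?_⟩
      · intro h3
        have h4 := congrArg (Polynomial.eval 0) h3
        simp at h4
      · rw [map_sub, map_mul, aeval_X, map_one]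
        have hQ' : aeval x Q = q := hQ
        rw [hQ', ← hq', sub_self])
  have h3 : x ∈ V.nonunits :=
    h2 ⟨⟨x, Algebra.self_mem_adjoin_singleton _ _⟩, Ideal.mem_span_singleton_self _, rfl⟩
  rw [ValuationSubring.mem_nonunits_iff_exists_mem_maximalIdeal] at h3
  obtain ⟨hX1, hX2⟩ := h3
  refine ⟨V, ⟨x, hX1⟩, ?_, (residue_eq_zero_iff _).mpr hX2⟩
  intro h
  exact hx0 (congrArg Subtype.val h)

end Pool.Agent.GrT
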