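import Mathlib
import Pool.Agent.GrT.Asmt
import Pool.Agent.GrT.Val
import Pool.Agent.GrE.GoodFin
import Pool.Agent.GrE.Place

/-!
For every algebraically closed field `K` of characteristic `p` with an element which is neither zero nor a root of
unity and every `g ≥ 3` there is a smooth curve of genus `g` over `K` with `K_(m'+1,1) = 0`.
-/

set_option autoImplicit false

namespace Pool.Agent.GrT

open Polynomial Pool.Agent.GrS Pool.Agent.GrP Pool.Agent.GrE IsLocalRing

private lemma Exit_w (F : Type) [Field F] [IsAlgClosed F] (N : ℕ) :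
    ∃ w : F, w ≠ 0 ∧ ∀ i, 1 ≤ i → i ≤ N → w ^ i ≠ 1 := by
  have : Infinite F := IsAlgClosed.instInfinite
  by_contra hcon
  push Not at hcon
  have h1 : (X * ∏ i ∈ Finset.Icc 1 N, (X ^ i - 1) : F[X]) = 0 := by
    apply Polynomial.zero_of_eval_zero
    intro w
    by_cases hw : w = 0
    · rw [hw]
      simp
    · obtain ⟨i, hi1, hi2, hi⟩ := hcon w hw
      rw [eval_mul, eval_prod, Finset.prod_eq_zero (Finset.mem_Icc.mpr ⟨hi1, hi2⟩), mul_zero]
      simp [hi]
  rcases mul_eq_zero.mp h1 with h2 | h2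
  · exact X_ne_zero h2
  · obtain ⟨i, hi, h3⟩ := Finset.prod_eq_zero_iff.mp h2
    rw [Finset.mem_Icc] at hi
    have h4 : (X ^ i - C (1 : F)).natDegree = i := natDegree_X_pow_sub_C
    rw [C_1, h3, natDegree_zero] at h4
    omega

private lemma Exit_T {K : Type} [Field K] (V : ValuationSubring K) (T : V) (h0 : T ≠ 0)
    (h1 : residue V T = 0) : Function.Injective (fun n : ℕ => ((T : K)) ^ (n + 1)) := by
  have hT0 : (T : K) ≠ 0 := fun h => h0 (Subtype.ext h)
  have key : ∀ a b : ℕ, a < b → (T : K) ^ (a + 1) ≠ (T : K) ^ (b + 1) := by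
    intro a b hab h
    have h2 : (T : K) ^ (a + 1) * (T : K) ^ (b - a) = (T : K) ^ (a + 1) * 1 := by
      rw [← pow_add, mul_one, h]
      congr 1
      omega
    have h3 : (T : K) ^ (b - a) = 1 := mul_left_cancel₀ (pow_ne_zero _ hT0) h2
    have h4 : T ^ (b - a) = 1 := Subtype.ext (by
      rw [SubmonoidClass.coe_pow]
      exact h3)
    have h5 := congrArg (residue V) h4
    rw [map_pow, h1, zero_pow (by omega), map_one] at h5
    exact zero_ne_one h5
  intro a b h
  by_contra hab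
  rcases lt_or_gt_of_ne hab with h2 | h2
  · exact key a b h2 h
  · exact key b a h2 h.symm

theorem exists_smooth (K : Type) [Field K] [IsAlgClosed K] (p : ℕ) [Fact p.Prime] [CharP K p]
    (x : K) (hx0 : x ≠ 0) (hx : ∀ n, 1 ≤ n → x ^ n ≠ 1) (g : ℕ) (hg : 3 ≤ g) :
    ∃ (E : Type) (_ : Field E) (_ : Algebra K E) (_ : Algebra K[X] E)
      (_ : Algebra (RatFunc K) E) (_ : IsScalarTower K[X] (RatFunc K) E)
      (_ : IsScalarTower K (RatFunc K) E) (_ : IsScalarTower K K[X] E)
      (_ : FiniteDimensional (RatFunc K) E) (_ : Algebra.IsSeparable (RatFunc K) E),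
      genus K E = g ∧ ∀ m m', m ≤ m' → g ≤ m + m' + 3 →
        (∀ j ≤ m, (m.choose j : K) ≠ 0) → kDim K E m' 0 = 0 := by
  obtain ⟨V, T, hT0, hTr⟩ := exists_V p x hx0 hx
  have i1 : IsAlgClosed (ResidueField V) := residue_algClosed V
  have hpV : ((p : ℕ) : V) = 0 := by
    apply Subtype.ext
    change ((p : V) : K) = 0
    have h1 : ((p : V) : K) = (p : K) := map_natCast V.subtype p
    rw [h1]
    exact CharP.cast_eq_zero K p
  have i2 : CharP (ResidueField V) p := by
    rw [CharP.charP_iff_prime_eq_zero (Fact.out : p.Prime), ← map_natCast (residue V), hpV,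
      map_zero]
  have i4 : Infinite (ResidueField V) := IsAlgClosed.instInfinite
  have hbin : ∀ n : ℕ, (n : K) ≠ 0 → (n : ResidueField V) ≠ 0 := by
    intro n hn h
    apply hn
    rw [CharP.cast_eq_zero_iff K p]
    exact (CharP.cast_eq_zero_iff (ResidueField V) p n).mp h
  obtain ⟨w0, hw0, hw⟩ := Exit_w (ResidueField V) (2 * g + 2)
  obtain ⟨w, rfl⟩ := residue_surjective (R := V) w0
  have hs : 1 + residue V w ≠ 0 := by
    intro h
    have h1 : residue V w = -1 := by linear_combination h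
    exact hw 2 (by norm_num) (by omega) (by rw [h1]; norm_num)
  have hw1 : (w : K) ≠ 0 := by
    intro h
    apply hw0
    have h1 : w = 0 := Subtype.ext h
    rw [h1, map_zero]
  have hs1 : 1 + (w : K) ≠ 0 := by
    intro h
    apply hs
    have h1 : 1 + w = 0 := Subtype.ext h
    rw [← map_one (residue V), ← map_add, h1, map_zero]
  -- the choice of `t`
  have hbad := Pool.Agent.GrE.bad_finite hw1 hs1
  obtain ⟨n, hn⟩ : ∃ n : ℕ, Good (w : K) ((T : K) ^ (n + 1)) := by
    by_contra hcon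
    push Not at hcon
    exact (Set.infinite_range_of_injective (Exit_T V T hT0 hTr)) (hbad.subset (by
      rintro _ ⟨n, rfl⟩
      exact hcon n))
  have hTr' : residue V (T ^ (n + 1)) = 0 := by
    rw [map_pow, hTr, zero_pow (Nat.succ_ne_zero n)]
  by_cases hpg : p ∣ g
  · obtain ⟨E, j1, j2, j3, j4, j5, j6, j7, j8, j9, hgen, hK⟩ :=
      curve_main3 p V w (T ^ (n + 1)) hn hTr' g hg hpg hw0 hw hs
    exact ⟨E, j1, j2, j3, j4, j5, j6, j7, j8, j9, hgen, fun m m' h1 h2 h3 =>
      hK m m' h1 h2 (fun j hj => hbin _ (h3 j hj))⟩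
  · have hgF : (g : ResidueField V) ≠ 0 := by
      rw [Ne, CharP.cast_eq_zero_iff (ResidueField V) p]
      exact hpg
    obtain ⟨θ, hθ⟩ : ∃ θ : ResidueField V, IsPrimitiveRoot θ g := by
      have : NeZero (g : ResidueField V) := ⟨hgF⟩
      exact HasEnoughRootsOfUnity.exists_primitiveRoot (ResidueField V) g
    obtain ⟨E, j1, j2, j3, j4, j5, j6, j7, j8, j9, hgen, hK⟩ :=
      curve_main p V w (T ^ (n + 1)) hn hTr' g (by omega) hpg hw0 hw hs θ hθ
    exact ⟨E, j1, j2, j3, j4, j5, j6, j7, j8, j9, hgen, fun m m' h1 h2 h3 =>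
      hK m m' h1 h2 (fun j hj => hbin _ (h3 j hj))⟩

end Pool.Agent.GrT
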