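import Mathlib
import Pool.Agent.GrT.Exit
import Pool.Agent.GrD.Main
import Pool.Agent.GrD.MainE
import Pool.Agent.GrD.Noe
import Pool.Agent.GrP.Binom

/-!
Let `K` be an algebraically closed field of characteristic `p` which is not an algebraic closure of the prime field.  For
every `g ≥ 3` there is a smooth curve `X` of genus `g` over `K` with `K_(0,2)(X, ω_X) = 0` and `K_(i,2)(X, ω_X) = 0` for all
`i ≥ 1` such that some `a p^s` with `1 ≤ a < p` lies in `[i + 1, g - 2 - i]`.
-/

set_option autoImplicit false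

namespace Pool.Agent.GrT

open Polynomial Pool.Agent.GrS Pool.Agent.GrP

theorem green_all (K : Type) [Field K] [IsAlgClosed K] (p : ℕ) [Fact p.Prime] [CharP K p]
    (x : K) (hx0 : x ≠ 0) (hx : ∀ n, 1 ≤ n → x ^ n ≠ 1) (g : ℕ) (hg : 3 ≤ g) :
    ∃ (E : Type) (_ : Field E) (_ : Algebra K E) (_ : Algebra K[X] E)
      (_ : Algebra (RatFunc K) E) (_ : IsScalarTower K[X] (RatFunc K) E)
      (_ : IsScalarTower K (RatFunc K) E) (_ : IsScalarTower K K[X] E)
      (_ : FiniteDimensional (RatFunc K) E) (_ : Algebra.IsSeparable (RatFunc K) E),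
      genus K E = g ∧ HK K E 2 = HK K E 1 * HK K E 1 ∧
      ∀ i a s, 1 ≤ a → a < p → i + 2 ≤ a * p ^ s → a * p ^ s + i + 3 ≤ g →
        kDim K E i 1 = 0 ∧
        LinearMap.ker (kos (mulHK K E 2) i) ≤ LinearMap.range (kos (mulHK K E 1) (i + 1)) := by
  obtain ⟨E, j1, j2, j3, j4, j5, j6, j7, j8, j9, hgen, hK⟩ := exists_smooth K p x hx0 hx g hg
  refine ⟨E, j1, j2, j3, j4, j5, j6, j7, j8, j9, hgen, ?_, ?_⟩
  · refine Pool.Agent.GrD.noether (g - 3) (by omega) (hK 0 (g - 3) (Nat.zero_le _) (by omega) ?_)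
    intro j hj
    rw [Nat.le_zero.mp hj]
    simp
  · intro i a s ha1 ha h1 h2
    have h0 := hK (a * p ^ s - 1) (g - 4 - i) (by omega) (by omega)
        (fun j hj => binom_ne_zero p a s ha1 ha j hj)
    have h3 := Pool.Agent.GrD.green_dual (k := K) (F := E) (g - 2) (by omega) (g - 4 - i)
      (by omega) h0
    have h4 := Pool.Agent.GrD.green_dual_exact (k := K) (F := E) (g - 2) (by omega) (g - 4 - i)
      (by omega) h0
    rw [show g - 2 - (g - 4 - i) - 2 = i by omega] at h3 h4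
    exact ⟨h3, h4⟩

end Pool.Agent.GrT
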