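import Mathlib
import Pool.Agent.GrC.Stmt

/-!
Short names for the statements about smooth curves: exactness of the Koszul complex in the middle, for the
canonical bundle of the smooth curve with function field `F`.
-/

set_option autoImplicit false

namespace Pool.Agent.GrS

open Polynomial

/-- Exactness in the middle of `⋀^(i+2) V ⊗ M → ⋀^(i+1) V ⊗ N → ⋀^i V ⊗ P`. -/
def KosExact {k V M N P : Type*} [Field k] [AddCommGroup V] [Module k V]
    [AddCommGroup M] [Module k M] [AddCommGroup N] [Module k N] [AddCommGroup P] [Module k P]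
    (μ : V →ₗ[k] M →ₗ[k] N) (ν : V →ₗ[k] N →ₗ[k] P) (i : ℕ) : Prop :=
  LinearMap.ker (kos ν i) ≤ LinearMap.range (kos μ (i + 1))

section

variable (k F : Type*) [Field k] [Field F] [Algebra k F] [Algebra k[X] F] [Algebra (RatFunc k) F]

/-- `K_{i+1, q+1}(X, ω_X) = 0`: the complex
`⋀^(i+2) H⁰(ω) ⊗ H⁰(ω^q) → ⋀^(i+1) H⁰(ω) ⊗ H⁰(ω^(q+1)) → ⋀^i H⁰(ω) ⊗ H⁰(ω^(q+2))` is exact in the middle. -/
def KVan (i q : ℕ) : Prop := KosExact (mulHK k F q) (mulHK k F (q + 1)) i

/-- `K_{0,2}(X, ω_X) = 0`: `H⁰(ω²)` is spanned by the products of two elements of `H⁰(ω)`. -/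
def KVanZero : Prop := HK k F 2 = HK k F 1 * HK k F 1

end

end Pool.Agent.GrS
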